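import Pool.Agent.H229R2.Struct9

set_option autoImplicit false
set_option linter.unusedSectionVars false
set_option linter.unusedVariables false

open Polynomial Finset

namespace Pool.Agent.H229R2

variable {F : Type*} [Field F] [Fintype F] [DecidableEq F]

namespace Lift

variable {S : Finset (F × F)} {G : F → F × F} (L : Lift S G)

include L

theorem mu_le_two (NT : ∀ s ∈ S, ∀ o, mu S s o + 2 ≤ Fintype.card F) {s : F × F} (hs : s ∈ S)
    (o : Option F) : mu S s o ≤ 2 := by
  obtain ⟨f, hf, hq, ht⟩ := L.exists_f NT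
  have h1 := L.f_eq_one NT hf hq ht
  subst h1
  by_cases h : 2 ≤ mu S s o
  · have := L.J_pos NT (le_refl 1) hq ht hs h
    omega
  · omega

/-- the ordered pairs at a point. -/
theorem pairs_two (NT : ∀ s ∈ S, ∀ o, mu S s o + 2 ≤ Fintype.card F) {s : F × F} (hs : s ∈ S) :
    ((ZZ F).offDiag.filter (fun p => G p.1 - p.1 • s = G p.2 - p.2 • s)).card = 2 := by
  obtain ⟨hq, ht⟩ := L.q_eq_five NT
  have h1 := L.pairs_card s
  have h2 := sum_kk_sub G s
  rw [hq, ht s hs] at h2
  have h3 : ∑ d ∈ TS G s, (kk G s d - 1) = 1 := by omega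
  have h4 : ∀ d ∈ TS G s, kk G s d * (kk G s d - 1) = 2 * (kk G s d - 1) := by
    intro d hd
    have h5 : kk G s d - 1 ≤ ∑ d ∈ TS G s, (kk G s d - 1) :=
      Finset.single_le_sum (f := fun d => kk G s d - 1) (fun _ _ => Nat.zero_le _) hd
    rw [h3] at h5
    have h6 := kk_pos hd
    by_cases h7 : kk G s d = 1
    · rw [h7]
    · have h8 : kk G s d = 2 := by omega
      rw [h8]
  rw [h1, Finset.sum_congr rfl h4, ← Finset.mul_sum, h3, mul_one]

theorem pair_unique (NT : ∀ s ∈ S, ∀ o, mu S s o + 2 ≤ Fintype.card F) {s : F × F} (hs : s ∈ S)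
    {z z' x x' : F} (hz : z ≠ 0) (hz' : z' ≠ 0) (hne : z ≠ z') (hx : x ≠ 0) (hx' : x' ≠ 0)
    (hxne : x ≠ x') (h1 : G z - G z' = (z - z') • s) (h2 : G x - G x' = (x - x') • s) :
    (x = z ∧ x' = z') ∨ (x = z' ∧ x' = z) := by
  have hc := L.pairs_two NT hs
  set P := (ZZ F).offDiag.filter (fun p => G p.1 - p.1 • s = G p.2 - p.2 • s) with hP
  have m1 : (z, z') ∈ P := by
    rw [hP, mem_filter, mem_offDiag]
    exact ⟨⟨mem_ZZ.mpr hz, mem_ZZ.mpr hz', hne⟩, L.pair_iff.mpr h1⟩
  have m2 : (z', z) ∈ P := by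
    rw [hP, mem_filter, mem_offDiag]
    exact ⟨⟨mem_ZZ.mpr hz', mem_ZZ.mpr hz, Ne.symm hne⟩, (L.pair_iff.mpr h1).symm⟩
  have m3 : (x, x') ∈ P := by
    rw [hP, mem_filter, mem_offDiag]
    exact ⟨⟨mem_ZZ.mpr hx, mem_ZZ.mpr hx', hxne⟩, L.pair_iff.mpr h2⟩
  have hne2 : ((z, z') : F × F) ≠ (z', z) := by
    intro h
    exact hne (Prod.ext_iff.mp h).1
  have hPeq : ({(z, z'), (z', z)} : Finset (F × F)) = P := by
    apply Finset.eq_of_subset_of_card_le
    · intro y hy
      rw [mem_insert, mem_singleton] at hy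
      rcases hy with rfl | rfl
      · exact m1
      · exact m2
    · rw [hc, card_pair hne2]
  rw [← hPeq, mem_insert, mem_singleton, Prod.ext_iff, Prod.ext_iff] at m3
  exact m3

theorem pair_exists (NT : ∀ s ∈ S, ∀ o, mu S s o + 2 ≤ Fintype.card F) {s : F × F} (hs : s ∈ S) :
    ∃ z z', z ≠ 0 ∧ z' ≠ 0 ∧ z ≠ z' ∧ G z - G z' = (z - z') • s := by
  have hc := L.pairs_two NT hs
  obtain ⟨p, hp⟩ := card_pos.mp (by rw [hc]; omega : 0 <
    ((ZZ F).offDiag.filter (fun p => G p.1 - p.1 • s = G p.2 - p.2 • s)).card)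
  rw [mem_filter, mem_offDiag] at hp
  exact ⟨p.1, p.2, mem_ZZ.mp hp.1.1, mem_ZZ.mp hp.1.2.1, hp.1.2.2, L.pair_iff.mp hp.2⟩

end Lift

/-- The abstract description of the exceptional configuration. -/
structure Config (S N : Finset (F × F)) (n : Fin 4 → F × F) (s : Fin 4 → Fin 4 → F × F) :
    Prop where
  ninj : Function.Injective n
  hN : ∀ x, x ∈ N ↔ ∃ i, n i = x
  hS : ∀ x, x ∈ S ↔ ∃ i j, i ≠ j ∧ s i j = x
  symm : ∀ i j, s i j = s j i
  sinj : ∀ i j k l, i ≠ j → k ≠ l → s i j = s k l → (i = k ∧ j = l) ∨ (i = l ∧ j = k)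
  nn : ∀ i j, i ≠ j → dt (s i j - n i) (n j - n i) = 0
  ss : ∀ i j k, i ≠ j → i ≠ k → j ≠ k → dt (s j k - s i j) (s i k - s i j) = 0

theorem exists_config {S N : Finset (F × F)} (h : NucData S N)
    (NT : ∀ s ∈ S, ∀ o, mu S s o + 2 ≤ Fintype.card F) :
    ∃ (n : Fin 4 → F × F) (s : Fin 4 → Fin 4 → F × F), Config S N n s := by
  have L := h.lift
  set G := GG S N with hG
  obtain ⟨hq, ht⟩ := L.q_eq_five NT
  -- enumerate the non-zero scalars
  have hcard : (ZZ F).card = 4 := by rw [card_ZZ, hq]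
  set e : Fin 4 ≃ ZZ F := (Finset.equivFinOfCardEq hcard).symm with he
  set c : Fin 4 → F := fun i => (e i).1 with hc
  have hcinj : Function.Injective c := fun i j hij => e.injective (Subtype.ext hij)
  have hc0 : ∀ i, c i ≠ 0 := fun i => mem_ZZ.mp (e i).2
  have hcsurj : ∀ z : F, z ≠ 0 → ∃ i, c i = z := by
    intro z hz
    refine ⟨e.symm ⟨z, mem_ZZ.mpr hz⟩, ?_⟩
    rw [hc]
    simp
  have hex : ∀ i j : Fin 4, ∃ x : F × F, i ≠ j → x ∈ S ∧ G (c i) - G (c j) = (c i - c j) • x := by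
    intro i j
    by_cases hij : i = j
    · exact ⟨0, fun h => absurd hij h⟩
    · obtain ⟨x, hx, h1⟩ := L.h3 (c i) (c j) (hc0 i) (hc0 j) (fun h => hij (hcinj h))
      exact ⟨x, fun _ => ⟨hx, h1⟩⟩
  choose s0 hs0 using hex
  -- make it symmetric
  set s : Fin 4 → Fin 4 → F × F := fun i j => if i < j then s0 i j else s0 j i with hs
  have hsprop : ∀ i j, i ≠ j → s i j ∈ S ∧ G (c i) - G (c j) = (c i - c j) • s i j := by
    intro i j hij
    rw [hs]
    simp only
    split_ifs with hlt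
    · exact hs0 i j hij
    · obtain ⟨h1, h2⟩ := hs0 j i (Ne.symm hij)
      refine ⟨h1, ?_⟩
      have e1 : G (c i) - G (c j) = -(G (c j) - G (c i)) := by abel
      rw [e1, h2, ← neg_smul]
      congr 1
      ring
  have hsymm : ∀ i j, s i j = s j i := by
    intro i j
    rw [hs]
    simp only
    by_cases h1 : i < j
    · rw [if_pos h1, if_neg (by omega)]
    · by_cases h2 : j < i
      · rw [if_neg h1, if_pos h2]
      · have : i = j := by omega
        rw [this]
  have hexn : ∀ i, ∃ x ∈ N, zz S x = c i := fun i => h.exists_n (hc0 i)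
  choose n hnN hnz using hexn
  have hGn : ∀ i, G (c i) = c i • n i := by
    intro i
    have h1 := h.GG_zz (hnN i)
    rw [hnz i] at h1
    exact h1
  refine ⟨n, s, ?_, ?_, ?_, hsymm, ?_, ?_, ?_⟩
  · intro i j hij
    apply hcinj
    rw [← hnz i, ← hnz j, hij]
  · intro x
    constructor
    · intro hx
      obtain ⟨i, hi⟩ := hcsurj (zz S x) (h.zz_ne hx)
      refine ⟨i, ?_⟩
      apply h.zz_injOn (hnN i) hx
      rw [hnz i, hi]
    · rintro ⟨i, rfl⟩
      exact hnN i
  · intro x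
    constructor
    · intro hx
      obtain ⟨z, z', hz, hz', hne, h1⟩ := L.pair_exists NT hx
      obtain ⟨i, rfl⟩ := hcsurj z hz
      obtain ⟨j, rfl⟩ := hcsurj z' hz'
      have hij : i ≠ j := by rintro rfl; exact hne rfl
      exact ⟨i, j, hij, L.uniq hne (hsprop i j hij).2 h1⟩
    · rintro ⟨i, j, hij, rfl⟩
      exact (hsprop i j hij).1
  · intro i j k l hij hkl heq
    have h1 := (hsprop i j hij).2
    have h2 := (hsprop k l hkl).2
    rw [← heq] at h2
    rcases L.pair_unique NT (hsprop i j hij).1 (hc0 k) (hc0 l) (fun h => hkl (hcinj h)) (hc0 i)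
      (hc0 j) (fun h => hij (hcinj h)) h2 h1 with ⟨a, b⟩ | ⟨a, b⟩
    · left; exact ⟨hcinj a, hcinj b⟩
    · right; exact ⟨hcinj a, hcinj b⟩
  · intro i j hij
    have h1 := (hsprop i j hij).2
    rw [hGn, hGn] at h1
    have h2 : (c i - c j) • (s i j - n i) = (- c j) • (n j - n i) := by
      rw [smul_sub, ← h1, smul_sub, sub_smul]
      simp only [neg_smul]
      abel
    have h3 : (c i - c j) * dt (s i j - n i) (n j - n i) = 0 := by
      rw [← dt_smul_left, h2, dt_smul_left, dt_self, mul_zero]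
    exact (mul_eq_zero.mp h3).resolve_left (sub_ne_zero.mpr (fun h => hij (hcinj h)))
  · intro i j k hij hik hjk
    have h1 := (hsprop i j hij).2
    have h2 := (hsprop i k hik).2
    have h3 := (hsprop j k hjk).2
    -- (ci - cj) s_ij + (cj - ck) s_jk = (ci - ck) s_ik
    have h4 : (c j - c k) • (s j k - s i j) = (c i - c k) • (s i k - s i j) := by
      rw [smul_sub, smul_sub, ← h3, ← h2]
      have e1 : (c i - c k) • s i j = (c i - c j) • s i j + (c j - c k) • s i j := by
        rw [← add_smul]; congr 1; ring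
      rw [e1, ← h1]
      abel
    have h5 : (c j - c k) * dt (s j k - s i j) (s i k - s i j) = 0 := by
      rw [← dt_smul_left, h4, dt_smul_left, dt_self, mul_zero]
    exact (mul_eq_zero.mp h5).resolve_left (sub_ne_zero.mpr (fun h => hjk (hcinj h)))

/-- points on the line of two nuclei. -/
theorem ray_iff {S N : Finset (F × F)} (h : NucData S N) {n : Fin 4 → F × F}
    {s : Fin 4 → Fin 4 → F × F} (C : Config S N n s) {i j : Fin 4} (hij : i ≠ j) (Q : F × F) :
    (dt (Q - n i) (n j - n i) = 0 ∧ (Q ∈ S ∨ Q ∈ N)) ↔ (Q = n i ∨ Q = n j ∨ Q = s i j) := by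
  have hw : n j - n i ≠ 0 := sub_ne_zero.mpr (fun e => hij (C.ninj e).symm)
  have hniN : ∀ k, n k ∈ N := fun k => (C.hN _).mpr ⟨k, rfl⟩
  have hsS : ∀ k l, k ≠ l → s k l ∈ S := fun k l hkl => (C.hS _).mpr ⟨k, l, hkl, rfl⟩
  constructor
  · rintro ⟨h1, h2 | h2⟩
    · right; right
      exact h.unique (hniN i) hw h2 (hsS i j hij) h1 (C.nn i j hij)
    · obtain ⟨k, rfl⟩ := (C.hN _).mp h2
      by_cases hki : k = i
      · left; rw [hki]
      · by_cases hkj : k = j
        · right; left; rw [hkj]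
        · exfalso
          obtain ⟨t, ht⟩ := exists_smul_of_dt hw h1
          have ht0 : t ≠ 0 := by
            rintro rfl
            rw [zero_smul, sub_eq_zero] at ht
            exact hki (C.ninj ht)
          have h3 := C.nn i k (Ne.symm hki)
          rw [ht, dt_smul_right] at h3
          have h4 := (mul_eq_zero.mp h3).resolve_left ht0
          have h5 := h.unique (hniN i) hw (hsS i k (Ne.symm hki)) (hsS i j hij) h4 (C.nn i j hij)
          rcases C.sinj i k i j (Ne.symm hki) hij h5 with ⟨_, b⟩ | ⟨a, b⟩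
          · exact hkj b
          · exact hij a
  · rintro (rfl | rfl | rfl)
    · exact ⟨by simp, Or.inr (hniN i)⟩
    · exact ⟨dt_self _, Or.inr (hniN j)⟩
    · exact ⟨C.nn i j hij, Or.inl (hsS i j hij)⟩

/-- points on the line of two points of `S` with a common index. -/
theorem sec_iff {S N : Finset (F × F)} (h : NucData S N)
    (NT : ∀ s ∈ S, ∀ o, mu S s o + 2 ≤ Fintype.card F) {n : Fin 4 → F × F}
    {s : Fin 4 → Fin 4 → F × F} (C : Config S N n s) {i j k : Fin 4} (hij : i ≠ j) (hik : i ≠ k)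
    (hjk : j ≠ k) (Q : F × F) :
    (dt (Q - s i j) (s i k - s i j) = 0 ∧ (Q ∈ S ∨ Q ∈ N)) ↔
      (Q = s i j ∨ Q = s i k ∨ Q = s j k) := by
  have L := h.lift
  have hsS : ∀ k l, k ≠ l → s k l ∈ S := fun k l hkl => (C.hS _).mpr ⟨k, l, hkl, rfl⟩
  have n1 : s i k ≠ s i j := by
    intro e
    rcases C.sinj _ _ _ _ hik hij e with ⟨_, b⟩ | ⟨a, b⟩
    · exact hjk b.symm
    · exact hij a
  have n2 : s j k ≠ s i j := by
    intro e
    rcases C.sinj _ _ _ _ hjk hij e with ⟨a, b⟩ | ⟨a, b⟩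
    · exact hij a.symm
    · exact hik b.symm
  have n3 : s j k ≠ s i k := by
    intro e
    rcases C.sinj _ _ _ _ hjk hik e with ⟨a, b⟩ | ⟨a, b⟩
    · exact hij a.symm
    · exact hjk a
  have hw : s i k - s i j ≠ 0 := sub_ne_zero.mpr n1
  constructor
  · rintro ⟨h1, h2 | h2⟩
    · set o := dir (s i k - s i j) with ho
      have hmu := L.mu_le_two NT (hsS i j hij) o
      have hcard := Se_card (hsS i j hij) o
      have hsub : ({s i j, s i k, s j k} : Finset (F × F)) ⊆ Se S (s i j) o := by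
        intro x hx
        rw [mem_insert, mem_insert, mem_singleton] at hx
        rw [mem_Se, ho]
        rcases hx with rfl | rfl | rfl
        · exact ⟨hsS i j hij, by simp⟩
        · exact ⟨hsS i k hik, (dt_dir hw).mpr (dt_self _)⟩
        · exact ⟨hsS j k hjk, (dt_dir hw).mpr (C.ss i j k hij hik hjk)⟩
      have hc3 : ({s i j, s i k, s j k} : Finset (F × F)).card = 3 := by
        rw [card_insert_of_notMem, card_pair (Ne.symm n3)]
        rw [mem_insert, mem_singleton]
        rintro (e | e)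
        · exact n1 e.symm
        · exact n2 e.symm
      have heq := Finset.eq_of_subset_of_card_le hsub (by omega)
      have hQ : Q ∈ Se S (s i j) o := mem_Se.mpr ⟨h2, by rw [ho]; exact (dt_dir hw).mpr h1⟩
      rw [← heq, mem_insert, mem_insert, mem_singleton] at hQ
      exact hQ
    · exfalso
      apply n1
      refine h.unique h2 hw (hsS i k hik) (hsS i j hij) ?_ ?_
      · have : s i k - Q = (s i k - s i j) - (Q - s i j) := by abel
        rw [this, dt_sub_left, dt_self, h1, sub_zero]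
      · have : s i j - Q = -(Q - s i j) := by abel
        rw [this, dt_neg_left, h1, neg_zero]
  · rintro (rfl | rfl | rfl)
    · exact ⟨by simp, Or.inl (hsS i j hij)⟩
    · exact ⟨dt_self _, Or.inl (hsS i k hik)⟩
    · exact ⟨C.ss i j k hij hik hjk, Or.inl (hsS j k hjk)⟩

end Pool.Agent.H229R2
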