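import Pool.Agent.H229R2.Plane

set_option autoImplicit false
set_option linter.unusedSectionVars false
set_option linter.unusedVariables false

open Polynomial Finset

namespace Pool.Agent.H229R2

variable {F : Type*} [Field F] [Fintype F] [DecidableEq F]

/-- The data of a `(q+1)`-set with `q-1` nuclei. -/
structure NucData (S N : Finset (F × F)) : Prop where
  hS : S.card = Fintype.card F + 1
  hN : N.card = Fintype.card F - 1
  hnuc : ∀ n ∈ N, ∀ o : Option F, ∃ s ∈ S, dt (s - n) (bar o) = 0
  hdis : ∀ n ∈ N, n ∉ S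

namespace NucData

variable {S N : Finset (F × F)} (h : NucData S N)

include h

theorem sub_ne {n s : F × F} (hn : n ∈ N) (hs : s ∈ S) : s - n ≠ 0 := by
  intro h0
  rw [sub_eq_zero] at h0
  exact h.hdis n hn (h0 ▸ hs)

theorem injOn {n : F × F} (hn : n ∈ N) : Set.InjOn (fun s => dir (s - n)) (S : Set (F × F)) := by
  have hsurj : S.image (fun s => dir (s - n)) = univ := by
    rw [eq_univ_iff_forall]
    intro o
    obtain ⟨s, hs, h0⟩ := h.hnuc n hn o
    rw [dt_bar_eq_zero (h.sub_ne hn hs)] at h0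
    exact mem_image.mpr ⟨s, hs, h0.symm⟩
  apply Finset.card_image_iff.mp
  rw [hsurj, card_univ, Fintype.card_option, h.hS]

/-- a line through a nucleus has exactly one point of `S`. -/
theorem unique {n : F × F} (hn : n ∈ N) {w : F × F} (hw : w ≠ 0) {s s' : F × F} (hs : s ∈ S)
    (hs' : s' ∈ S) (h1 : dt (s - n) w = 0) (h2 : dt (s' - n) w = 0) : s = s' := by
  rw [← dt_dir hw, dt_bar_eq_zero (h.sub_ne hn hs)] at h1
  rw [← dt_dir hw, dt_bar_eq_zero (h.sub_ne hn hs')] at h2
  exact h.injOn hn hs hs' (h1.symm.trans h2)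

theorem exists_on {n : F × F} (hn : n ∈ N) {w : F × F} (hw : w ≠ 0) :
    ∃ s ∈ S, dt (s - n) w = 0 := by
  obtain ⟨s, hs, h1⟩ := h.hnuc n hn (dir w)
  exact ⟨s, hs, (dt_dir hw).mp h1⟩

theorem one_lt_q : 1 < Fintype.card F := Fintype.one_lt_card

/-- sum of `(q-1)`-st powers counts. -/
theorem sum_pow (f : F × F → F) :
    ∑ s ∈ S, (f s) ^ (Fintype.card F - 1) = 1 - ((S.filter (fun s => f s = 0)).card : F) := by
  have hq : 1 < Fintype.card F := Fintype.one_lt_card
  have h1 : ∀ s ∈ S, (f s) ^ (Fintype.card F - 1) = 1 - (if f s = 0 then (1 : F) else 0) := by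
    intro s _
    by_cases h0 : f s = 0
    · rw [if_pos h0, h0, zero_pow (by omega)]; ring
    · rw [if_neg h0, FiniteField.pow_card_sub_one_eq_one _ h0]; ring
  rw [Finset.sum_congr rfl h1, Finset.sum_sub_distrib, Finset.sum_const, h.hS, Finset.sum_boole]
  simp

/-- The identity `∑ ℓ_s^(q-1) = ∏ ℓ_n`. -/
theorem four (w : F × F) (hw : w ≠ 0) (c : F) :
    ∑ s ∈ S, (c - dt s w) ^ (Fintype.card F - 1) = ∏ n ∈ N, (c - dt n w) := by
  have hq : 1 < Fintype.card F := Fintype.one_lt_card
  obtain ⟨w2, hw2⟩ : ∃ w2 : F × F, dt w w2 ≠ 0 := by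
    rw [ne_zero_iff] at hw
    by_cases h1 : w.1 = 0
    · refine ⟨(1, 0), ?_⟩
      simp only [dt, mul_zero, mul_one, zero_sub]
      intro h2
      exact hw ⟨h1, by simpa using h2⟩
    · refine ⟨(0, 1), ?_⟩
      simpa [dt] using h1
  set b : F × F → F[X] := fun x => lin (dt x w) (dt x w2) with hb
  have hbinj : Function.Injective b := by
    intro x y hxy
    have e0 := congrArg (fun p => Polynomial.eval 0 p) hxy
    have e1 := congrArg (fun p => Polynomial.eval 1 p) hxy
    simp only [hb, eval_lin, mul_zero, add_zero, mul_one] at e0 e1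
    refine eq_of_dt_eq hw2 e0 ?_
    linear_combination e1 - e0
  have hbsub : ∀ x y, b x - b y = b (x - y) := by
    intro x y
    simp only [hb, lin, dt_sub_left, C_sub]
    ring
  set P1 : F[X][X] := ∑ s ∈ S, (X - C (b s)) ^ (Fintype.card F - 1) with hP1
  set P2 : F[X][X] := ∏ n ∈ N, (X - C (b n)) with hP2
  have hmain : P1 = P2 := by
    apply eq_of_degree_sub_lt_of_eval_finset_eq (N.image b)
    · rw [Finset.card_image_of_injective _ hbinj, h.hN]
      have hc1 : P1.coeff (Fintype.card F - 1) = 1 := by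
        rw [hP1, finsetSum_coeff]
        have : ∀ s ∈ S, ((X - C (b s)) ^ (Fintype.card F - 1)).coeff (Fintype.card F - 1) = 1 := by
          intro s _
          have hm : ((X - C (b s)) ^ (Fintype.card F - 1) : F[X][X]).Monic := (monic_X_sub_C _).pow _
          have hd : ((X - C (b s)) ^ (Fintype.card F - 1) : F[X][X]).natDegree = Fintype.card F - 1 := by
            rw [natDegree_pow, natDegree_X_sub_C, mul_one]
          have := hm.coeff_natDegree
          rwa [hd] at this
        rw [Finset.sum_congr rfl this, Finset.sum_const, h.hS]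
        simp only [nsmul_eq_mul, mul_one, Nat.cast_add, Nat.cast_one]
        have : ((Fintype.card F : ℕ) : F[X]) = 0 := by
          rw [← C_eq_natCast, FiniteField.cast_card_eq_zero, C_0]
        rw [this, zero_add]
      have hd1 : P1.natDegree ≤ Fintype.card F - 1 := by
        rw [hP1]
        apply natDegree_sum_le_of_forall_le
        intro s _
        rw [natDegree_pow, natDegree_X_sub_C, mul_one]
      have hm2 : P2.Monic := monic_prod_of_monic _ _ (fun _ _ => monic_X_sub_C _)
      have hd2 : P2.natDegree = Fintype.card F - 1 := by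
        rw [hP2, natDegree_prod_of_monic _ _ (fun i _ => monic_X_sub_C _)]
        simp [h.hN]
      have hc2 : P2.coeff (Fintype.card F - 1) = 1 := by
        have := hm2.coeff_natDegree
        rwa [hd2] at this
      rw [degree_lt_iff_coeff_zero]
      intro i hi
      rw [coeff_sub]
      rcases Nat.eq_or_lt_of_le hi with h1 | h1
      · rw [← h1, hc1, hc2, sub_self]
      · rw [coeff_eq_zero_of_natDegree_lt (by omega), coeff_eq_zero_of_natDegree_lt (by omega),
          sub_self]
    · intro x hx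
      obtain ⟨n, hn, rfl⟩ := mem_image.mp hx
      have e2 : P2.eval (b n) = 0 := by
        rw [hP2, eval_prod]
        apply Finset.prod_eq_zero hn
        simp
      rw [e2, hP1, eval_finsetSum]
      simp only [eval_pow, eval_sub, eval_X, eval_C, hbsub]
      apply eq_zero_of_natDegree_lt_card_of_eval_eq_zero' _ (univ : Finset F)
      · intro y _
        rw [eval_finsetSum]
        simp only [eval_pow]
        rw [h.sum_pow (fun s => eval y (b (n - s)))]
        have hwy : w + y • w2 ≠ 0 := by
          intro h0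
          apply hw2
          have h1 : w = -(y • w2) := eq_neg_of_add_eq_zero_left h0
          rw [h1, dt_neg_left, dt_smul_left, dt_self]
          simp
        obtain ⟨s0, hs0, hs0'⟩ := h.exists_on hn hwy
        have hev : ∀ s, eval y (b (n - s)) = - dt (s - n) (w + y • w2) := by
          intro s
          simp only [hb, eval_lin, dt_add_right, dt_smul_right, dt_sub_left]
          ring
        have : S.filter (fun s => eval y (b (n - s)) = 0) = {s0} := by
          ext s
          simp only [mem_filter, mem_singleton, hev, neg_eq_zero]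
          constructor
          · rintro ⟨h1, h2⟩
            exact h.unique hn hwy h1 hs0 h2 hs0'
          · rintro rfl
            exact ⟨hs0, hs0'⟩
        rw [this]; simp
      · rw [card_univ]
        refine lt_of_le_of_lt (natDegree_sum_le_of_forall_le _ _ (n := Fintype.card F - 1) ?_) (by omega)
        intro s _
        refine (natDegree_pow_le).trans ?_
        calc (Fintype.card F - 1) * (b (n - s)).natDegree ≤ (Fintype.card F - 1) * 1 :=
              Nat.mul_le_mul_left _ (natDegree_lin _ _)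
          _ = Fintype.card F - 1 := mul_one _
  have h3 := congrArg (fun P : F[X][X] => (P.eval (C c)).eval 0) hmain
  simp only [hP1, hP2, eval_finsetSum, eval_prod, eval_pow, eval_sub, eval_X, eval_C, hb,
    eval_lin, mul_zero, add_zero] at h3
  exact h3

/-- lines with `m ≡ 1` contain a nucleus. -/
theorem exists_nucleus (w : F × F) (hw : w ≠ 0) (c : F)
    (hm : ((S.filter (fun s => dt s w = c)).card : F) = 1) : ∃ n ∈ N, dt n w = c := by
  have h1 := h.four w hw c
  rw [h.sum_pow (fun s => c - dt s w)] at h1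
  have h2 : S.filter (fun s => c - dt s w = 0) = S.filter (fun s => dt s w = c) := by
    apply Finset.filter_congr
    intro s _
    rw [sub_eq_zero, eq_comm]
  rw [h2, hm, sub_self] at h1
  obtain ⟨n, hn, h3⟩ := Finset.prod_eq_zero_iff.mp h1.symm
  exact ⟨n, hn, (sub_eq_zero.mp h3).symm⟩

end NucData

/-- the scaling factor of a nucleus. -/
noncomputable def zz (S : Finset (F × F)) (n : F × F) : F := (∏ s ∈ S, cf (s - n))⁻¹

namespace NucData

variable {S N : Finset (F × F)} (h : NucData S N)

include h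

theorem zz_ne {n : F × F} (hn : n ∈ N) : zz S n ≠ 0 := by
  unfold zz
  apply inv_ne_zero
  rw [Finset.prod_ne_zero_iff]
  intro s hs
  exact cf_ne_zero (h.sub_ne hn hs)

theorem M1 {n s : F × F} (hn : n ∈ N) (hs : s ∈ S) :
    ∏ s' ∈ S.erase s, dt (s' - s) (zz S n • (n - s)) = 1 := by
  have h1 : ∀ s' ∈ S.erase s, dt (s' - s) (zz S n • (n - s)) =
      (- zz S n) * dt (s' - n) (s - n) := by
    intro s' _
    rw [dt_smul_right]
    have : dt (s' - s) (n - s) = - dt (s' - n) (s - n) := by
      simp only [dt, Prod.fst_sub, Prod.snd_sub]; ring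
    rw [this]; ring
  rw [Finset.prod_congr rfl h1, Finset.prod_mul_distrib, Finset.prod_const, card_erase_of_mem hs,
    h.hS, Nat.add_sub_cancel, FiniteField.pow_card, lemB S (fun s' => s' - n) (h.injOn hn) h.hS hs]
  have h2 : (∏ j ∈ S, cf (j - n)) ≠ 0 := by
    rw [Finset.prod_ne_zero_iff]
    intro s hs
    exact cf_ne_zero (h.sub_ne hn hs)
  unfold zz
  field_simp

theorem pair {n n' : F × F} (hn : n ∈ N) (hn' : n' ∈ N) (hne : n ≠ n') :
    ∃ s ∈ S, zz S n • (n - s) = zz S n' • (n' - s) := by
  have hw : n' - n ≠ 0 := sub_ne_zero.mpr (Ne.symm hne)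
  obtain ⟨s, hs, h1⟩ := h.exists_on hn hw
  refine ⟨s, hs, ?_⟩
  have h2 : dt (n - s) (n' - n) = 0 := by
    have : n - s = -(s - n) := by abel
    rw [this, dt_neg_left, h1, neg_zero]
  have h3 : dt (n' - s) (n - s) = 0 := by
    have : n' - s = (n' - n) + (n - s) := by abel
    rw [this, dt_add_left, dt_self, add_zero, dt_swap, h2, neg_zero]
  have hns : n - s ≠ 0 := by
    have := h.sub_ne hn hs
    intro h0
    apply this
    rw [← neg_sub, h0, neg_zero]
  obtain ⟨ν, hν⟩ := exists_smul_of_dt hns h3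
  have hz := h.zz_ne hn
  have h4 : zz S n' • (n' - s) = (zz S n' * ν / zz S n) • (zz S n • (n - s)) := by
    rw [hν, smul_smul, smul_smul]
    congr 1
    field_simp
  have h5 := h.M1 hn' hs
  rw [h4] at h5
  simp only [dt_smul_right _ _ (zz S n • (n - s))] at h5
  rw [Finset.prod_mul_distrib, Finset.prod_const, card_erase_of_mem hs, h.hS, Nat.add_sub_cancel,
    FiniteField.pow_card, h.M1 hn hs, mul_one] at h5
  rw [h4, h5, one_smul]

theorem zz_injOn : Set.InjOn (zz S) (N : Set (F × F)) := by
  intro n hn n' hn' heq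
  by_contra hne
  obtain ⟨s, _, h1⟩ := h.pair hn hn' hne
  rw [heq] at h1
  have := smul_right_injective _ (h.zz_ne hn') h1
  exact hne (sub_left_injective this)

theorem zz_image : N.image (zz S) = (univ : Finset F).erase 0 := by
  apply Finset.eq_of_subset_of_card_le
  · intro z hz
    obtain ⟨n, hn, rfl⟩ := mem_image.mp hz
    exact mem_erase.mpr ⟨h.zz_ne hn, mem_univ _⟩
  · rw [card_erase_of_mem (mem_univ _), card_univ, Finset.card_image_iff.mpr h.zz_injOn, h.hN]

end NucData

/-- the lifted nuclei as a function. -/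
noncomputable def GG (S N : Finset (F × F)) (z : F) : F × F :=
  ∑ n ∈ N.filter (fun n => zz S n = z), z • n

/-- The properties of the lifted configuration. -/
structure Lift (S : Finset (F × F)) (G : F → F × F) : Prop where
  h0 : G 0 = 0
  h1 : S.card = Fintype.card F + 1
  h2 : ∀ s ∈ S, ∀ z, z ≠ 0 → G z - z • s ≠ 0
  h3 : ∀ z z', z ≠ 0 → z' ≠ 0 → z ≠ z' → ∃ s ∈ S, G z - G z' = (z - z') • s
  h4 : ∀ z, z ≠ 0 → ∀ w, w ≠ 0 → ∀ s ∈ S, ∀ s' ∈ S, dt (G z - z • s) w = 0 →
    dt (G z - z • s') w = 0 → s = s'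
  h5 : ∀ w, w ≠ 0 → ∀ c, ((S.filter (fun s => dt s w = c)).card : F) = 1 →
    ∃ z, z ≠ 0 ∧ dt (G z) w = z * c
  h6 : ∀ s ∈ S, ∀ z, z ≠ 0 → ∏ s' ∈ S.erase s, dt (s' - s) (G z - z • s) = 1

namespace NucData

variable {S N : Finset (F × F)} (h : NucData S N)

include h

theorem GG_zz {n : F × F} (hn : n ∈ N) : GG S N (zz S n) = zz S n • n := by
  unfold GG
  have : N.filter (fun n' => zz S n' = zz S n) = {n} := by
    ext n'
    simp only [mem_filter, mem_singleton]
    constructor
    · rintro ⟨h1, h2⟩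
      exact h.zz_injOn h1 hn h2
    · rintro rfl
      exact ⟨hn, rfl⟩
  rw [this, sum_singleton]

theorem exists_n {z : F} (hz : z ≠ 0) : ∃ n ∈ N, zz S n = z := by
  have : z ∈ N.image (zz S) := by
    rw [h.zz_image]
    exact mem_erase.mpr ⟨hz, mem_univ _⟩
  exact mem_image.mp this

theorem lift : Lift S (GG S N) := by
  refine ⟨?_, h.hS, ?_, ?_, ?_, ?_, ?_⟩
  · unfold GG
    simp
  · intro s hs z hz
    obtain ⟨n, hn, rfl⟩ := h.exists_n hz
    rw [h.GG_zz hn, ← smul_sub]
    apply smul_ne_zero hz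
    intro h0
    rw [sub_eq_zero] at h0
    exact h.hdis n hn (h0 ▸ hs)
  · intro z z' hz hz' hne
    obtain ⟨n, hn, rfl⟩ := h.exists_n hz
    obtain ⟨n', hn', rfl⟩ := h.exists_n hz'
    obtain ⟨s, hs, h1⟩ := h.pair hn hn' (fun e => hne (by rw [e]))
    refine ⟨s, hs, ?_⟩
    rw [h.GG_zz hn, h.GG_zz hn', sub_smul]
    rw [smul_sub, smul_sub] at h1
    rw [sub_eq_sub_iff_add_eq_add] at h1 ⊢
    rw [add_comm (zz S n • s), ← h1]
  · intro z hz w hw s hs s' hs' e1 e2
    obtain ⟨n, hn, rfl⟩ := h.exists_n hz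
    rw [h.GG_zz hn, ← smul_sub, dt_smul_left] at e1 e2
    have e1' := (mul_eq_zero.mp e1).resolve_left hz
    have e2' := (mul_eq_zero.mp e2).resolve_left hz
    apply h.unique hn hw hs hs'
    · rw [← neg_sub, dt_neg_left, e1', neg_zero]
    · rw [← neg_sub, dt_neg_left, e2', neg_zero]
  · intro w hw c hm
    obtain ⟨n, hn, h1⟩ := h.exists_nucleus w hw c hm
    exact ⟨zz S n, h.zz_ne hn, by rw [h.GG_zz hn, dt_smul_left, h1]⟩
  · intro s hs z hz
    obtain ⟨n, hn, rfl⟩ := h.exists_n hz
    rw [h.GG_zz hn, ← smul_sub]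
    exact h.M1 hn hs

end NucData

end Pool.Agent.H229R2
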