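import Pool.Agent.H229R2.Poly

set_option autoImplicit false
set_option linter.unusedSectionVars false
set_option linter.unusedVariables false

open Polynomial Finset

namespace Pool.Agent.H229R2

section Plane

variable {F : Type*} [Field F] [DecidableEq F]

/-- The determinant of two plane vectors. -/
def dt (x y : F × F) : F := x.1 * y.2 - x.2 * y.1

/-- Representatives of the directions of the plane. -/
def bar : Option F → F × F
  | none => (1, 0)
  | some v => (-v, 1)

/-- The direction of a plane vector. -/
def dir (w : F × F) : Option F := if w.2 = 0 then none else some (-(w.1 / w.2))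

/-- The coefficient of a plane vector with respect to the representative of its direction. -/
def cf (w : F × F) : F := if w.2 = 0 then w.1 else w.2

theorem dt_smul_left (c : F) (x y : F × F) : dt (c • x) y = c * dt x y := by
  simp only [dt, Prod.smul_fst, Prod.smul_snd, smul_eq_mul]; ring

theorem dt_smul_right (c : F) (x y : F × F) : dt x (c • y) = c * dt x y := by
  simp only [dt, Prod.smul_fst, Prod.smul_snd, smul_eq_mul]; ring

theorem dt_add_left (x y z : F × F) : dt (x + y) z = dt x z + dt y z := by
  simp only [dt, Prod.fst_add, Prod.snd_add]; ring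

theorem dt_sub_left (x y z : F × F) : dt (x - y) z = dt x z - dt y z := by
  simp only [dt, Prod.fst_sub, Prod.snd_sub]; ring

theorem dt_add_right (x y z : F × F) : dt x (y + z) = dt x y + dt x z := by
  simp only [dt, Prod.fst_add, Prod.snd_add]; ring

theorem dt_sub_right (x y z : F × F) : dt x (y - z) = dt x y - dt x z := by
  simp only [dt, Prod.fst_sub, Prod.snd_sub]; ring

theorem dt_neg_left (x y : F × F) : dt (-x) y = - dt x y := by
  simp only [dt, Prod.fst_neg, Prod.snd_neg]; ring

theorem dt_neg_right (x y : F × F) : dt x (-y) = - dt x y := by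
  simp only [dt, Prod.fst_neg, Prod.snd_neg]; ring

theorem dt_self (x : F × F) : dt x x = 0 := by
  simp only [dt]; ring

theorem dt_swap (x y : F × F) : dt x y = - dt y x := by
  simp only [dt]; ring

@[simp] theorem dt_zero_left (x : F × F) : dt 0 x = 0 := by simp [dt]
@[simp] theorem dt_zero_right (x : F × F) : dt x 0 = 0 := by simp [dt]

theorem bar_ne_zero (o : Option F) : bar o ≠ 0 := by
  cases o with
  | none => simp [bar, Prod.ext_iff]
  | some v => simp [bar, Prod.ext_iff]

theorem ne_zero_iff (w : F × F) : w ≠ 0 ↔ ¬ (w.1 = 0 ∧ w.2 = 0) := by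
  rw [Ne, Prod.ext_iff]; rfl

theorem cf_ne_zero {w : F × F} (hw : w ≠ 0) : cf w ≠ 0 := by
  rw [ne_zero_iff] at hw
  unfold cf
  split_ifs with h
  · intro h1; exact hw ⟨h1, h⟩
  · exact h

theorem cf_smul_bar (w : F × F) : w = cf w • bar (dir w) := by
  unfold cf dir
  split_ifs with h
  · ext <;> simp [bar, h]
  · ext
    · simp [bar]
      field_simp
    · simp [bar]

theorem dt_bar_eq_zero {w : F × F} (hw : w ≠ 0) (o : Option F) : dt w (bar o) = 0 ↔ o = dir w := by
  rw [ne_zero_iff] at hw
  unfold dir
  cases o with
  | none =>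
    simp only [dt, bar, mul_zero, mul_one, zero_sub, neg_eq_zero]
    constructor
    · intro h; rw [if_pos h]
    · intro h
      by_contra h2
      rw [if_neg h2] at h
      exact absurd h (by simp)
  | some v =>
    simp only [dt, bar, mul_one]
    constructor
    · intro h
      have h2 : w.2 ≠ 0 := by
        intro h2
        rw [h2] at h
        exact hw ⟨by simpa using h, h2⟩
      rw [if_neg h2]
      congr 1
      field_simp
      linear_combination h
    · intro h
      by_cases h2 : w.2 = 0
      · rw [if_pos h2] at h
        exact absurd h (by simp)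
      · rw [if_neg h2] at h
        have h3 : v = -(w.1 / w.2) := by simpa using h
        rw [h3]
        field_simp
        ring

theorem dir_smul {c : F} (hc : c ≠ 0) (w : F × F) (hw : w ≠ 0) : dir (c • w) = dir w := by
  symm
  rw [← dt_bar_eq_zero (smul_ne_zero hc hw), dt_smul_left, (dt_bar_eq_zero hw _).mpr rfl, mul_zero]

theorem dir_neg (w : F × F) (hw : w ≠ 0) : dir (-w) = dir w := by
  have := dir_smul (c := (-1 : F)) (by simp) w hw
  simpa using this

theorem dir_bar (o : Option F) : dir (bar o) = o := by
  symm
  rw [← dt_bar_eq_zero (bar_ne_zero o), dt_self]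

/-- A vector is determined by two independent functionals. -/
theorem eq_of_dt_eq {a b : F × F} (hab : dt a b ≠ 0) {x y : F × F} (h1 : dt x a = dt y a)
    (h2 : dt x b = dt y b) : x = y := by
  have e1 : dt (x - y) a = 0 := by rw [dt_sub_left, h1, sub_self]
  have e2 : dt (x - y) b = 0 := by rw [dt_sub_left, h2, sub_self]
  have h3 : dt a b * (x - y).1 = 0 := by
    simp only [dt] at *
    linear_combination a.1 * e2 - b.1 * e1
  have h4 : dt a b * (x - y).2 = 0 := by
    simp only [dt] at *
    linear_combination a.2 * e2 - b.2 * e1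
  have h5 := (mul_eq_zero.mp h3).resolve_left hab
  have h6 := (mul_eq_zero.mp h4).resolve_left hab
  rw [← sub_eq_zero]
  ext
  · exact h5
  · exact h6

/-- Parallel vectors. -/
theorem exists_smul_of_dt {x w : F × F} (hw : w ≠ 0) (h : dt x w = 0) : ∃ c : F, x = c • w := by
  rw [ne_zero_iff] at hw
  simp only [dt] at h
  by_cases h1 : w.1 = 0
  · have h2 : w.2 ≠ 0 := fun h2 => hw ⟨h1, h2⟩
    refine ⟨x.2 / w.2, ?_⟩
    ext
    · rw [h1] at h
      have : x.1 = 0 := by
        have : x.1 * w.2 = 0 := by linear_combination h
        exact (mul_eq_zero.mp this).resolve_right h2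
      simp [h1, this]
    · simp
      field_simp
  · refine ⟨x.1 / w.1, ?_⟩
    ext
    · simp
      field_simp
    · simp
      field_simp
      linear_combination -h

theorem dt_eq_zero_trans {x y w : F × F} (hw : w ≠ 0) (h1 : dt x w = 0) (h2 : dt y w = 0) :
    dt x y = 0 := by
  obtain ⟨a, rfl⟩ := exists_smul_of_dt hw h1
  obtain ⟨b, rfl⟩ := exists_smul_of_dt hw h2
  rw [dt_smul_left, dt_smul_right, dt_self, mul_zero, mul_zero]

/-- functionals attached to parallel vectors have the same kernel. -/
theorem dt_dir {x w : F × F} (hw : w ≠ 0) : dt x (bar (dir w)) = 0 ↔ dt x w = 0 := by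
  have h := cf_smul_bar w
  have : dt x w = cf w * dt x (bar (dir w)) := by
    conv_lhs => rw [h]
    rw [dt_smul_right]
  rw [this, mul_eq_zero]
  constructor
  · intro h; exact Or.inr h
  · intro h; exact h.resolve_left (cf_ne_zero hw)

theorem dt_cf_left (x w : F × F) : dt x w = cf x * dt (bar (dir x)) w := by
  conv_lhs => rw [cf_smul_bar x]
  rw [dt_smul_left]

theorem dt_cf_right (x w : F × F) : dt x w = cf w * dt x (bar (dir w)) := by
  conv_lhs => rw [cf_smul_bar w]
  rw [dt_smul_right]

theorem dt_bar_bar {o o' : Option F} (h : o ≠ o') : dt (bar o) (bar o') ≠ 0 := by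
  intro h0
  rw [dt_bar_eq_zero (bar_ne_zero o), dir_bar] at h0
  exact h h0.symm

end Plane

section Fin

variable {F : Type*} [Field F] [Fintype F] [DecidableEq F]

theorem prod_erase_zero : ∏ x ∈ (univ : Finset F).erase 0, x = -1 := by
  have h : ∏ x : Fˣ, (x : F) = -1 := by
    have := congrArg Units.val (FiniteField.prod_univ_units_id_eq_neg_one (K := F))
    simpa [Units.coe_prod] using this
  rw [← h]
  symm
  apply Finset.prod_bij (fun (u : Fˣ) _ => (u : F))
  · intro u _
    simp
  · intro a _ b _ hab
    exact Units.ext hab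
  · intro b hb
    have hb0 : b ≠ 0 := (mem_erase.mp hb).1
    exact ⟨Units.mk0 b hb0, mem_univ _, rfl⟩
  · intro a _; rfl

theorem neg_one_pow_card : ((-1 : F)) ^ Fintype.card F = -1 := FiniteField.pow_card _

theorem prod_bar_bar (o : Option F) :
    ∏ o' ∈ (univ : Finset (Option F)).erase o, dt (bar o') (bar o) = -1 := by
  have h1 : ∏ o' ∈ (univ : Finset (Option F)).erase o, dt (bar o') (bar o)
      = ∏ o' : Option F, (if o' = o then 1 else dt (bar o') (bar o)) := by
    rw [← Finset.prod_erase univ (a := o) (f := fun o' => if o' = o then 1 else dt (bar o') (bar o))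
      (by simp)]
    apply Finset.prod_congr rfl
    intro x hx
    rw [if_neg (mem_erase.mp hx).1]
  rw [h1, Fintype.prod_option]
  cases o with
  | none =>
    simp only [if_true, one_mul, reduceCtorEq, if_false]
    have : ∀ v : F, dt (bar (some v)) (bar none) = -1 := by
      intro v; simp [dt, bar]
    simp only [this, prod_const, card_univ]
    exact neg_one_pow_card
  | some v =>
    simp only [reduceCtorEq, if_false, Option.some.injEq]
    have h2 : dt (bar (none : Option F)) (bar (some v)) = 1 := by simp [dt, bar]
    rw [h2, one_mul]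
    have h3 : ∀ v' : F, dt (bar (some v')) (bar (some v)) = v - v' := by
      intro v'; simp [dt, bar]; ring
    simp only [h3]
    have h4 : ∏ x : F, (if x = v then (1 : F) else v - x) = ∏ x ∈ (univ : Finset F).erase v, (v - x) := by
      rw [← Finset.prod_erase univ (a := v) (f := fun x => if x = v then (1 : F) else v - x) (by simp)]
      apply Finset.prod_congr rfl
      intro x hx
      rw [if_neg (mem_erase.mp hx).1]
    rw [h4, ← prod_erase_zero (F := F)]
    apply Finset.prod_bij (fun x _ => v - x)
    · intro x hx
      rw [mem_erase] at hx ⊢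
      exact ⟨sub_ne_zero.mpr (Ne.symm hx.1), mem_univ _⟩
    · intro a _ b _ hab
      exact sub_right_injective hab
    · intro b hb
      refine ⟨v - b, ?_, by ring⟩
      rw [mem_erase] at hb ⊢
      refine ⟨?_, mem_univ _⟩
      intro h; apply hb.1
      linear_combination -h
    · intro a _; rfl

theorem card_option_erase (o : Option F) :
    ((univ : Finset (Option F)).erase o).card = Fintype.card F := by
  rw [card_erase_of_mem (mem_univ _), card_univ, Fintype.card_option]
  rfl

theorem prod_bar {d : F × F} :
    ∏ o' ∈ (univ : Finset (Option F)).erase (dir d), dt (bar o') d = - cf d := by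
  have : ∀ o' ∈ (univ : Finset (Option F)).erase (dir d), dt (bar o') d =
      cf d * dt (bar o') (bar (dir d)) := fun o' _ => dt_cf_right _ _
  rw [Finset.prod_congr rfl this, Finset.prod_mul_distrib, Finset.prod_const, card_option_erase,
    FiniteField.pow_card, prod_bar_bar]
  ring

theorem lemB {ι : Type*} [DecidableEq ι] (W : Finset ι) (x : ι → F × F)
    (hinj : Set.InjOn (fun i => dir (x i)) W) (hc : W.card = Fintype.card F + 1)
    {i : ι} (hi : i ∈ W) : ∏ j ∈ W.erase i, dt (x j) (x i) = - ∏ j ∈ W, cf (x j) := by
  have h1 : ∀ j ∈ W.erase i, dt (x j) (x i) = cf (x j) * dt (bar (dir (x j))) (x i) :=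
    fun j _ => dt_cf_left _ _
  rw [Finset.prod_congr rfl h1, Finset.prod_mul_distrib]
  have h2 : ∏ j ∈ W.erase i, dt (bar (dir (x j))) (x i)
      = ∏ o' ∈ (univ : Finset (Option F)).erase (dir (x i)), dt (bar o') (x i) := by
    have himg : (W.erase i).image (fun j => dir (x j)) = (univ : Finset (Option F)).erase (dir (x i)) := by
      apply Finset.eq_of_subset_of_card_le
      · intro o ho
        obtain ⟨j, hj, rfl⟩ := mem_image.mp ho
        rw [mem_erase] at hj ⊢
        refine ⟨?_, mem_univ _⟩
        intro h
        exact hj.1 (hinj hj.2 hi h)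
      · rw [card_option_erase, Finset.card_image_of_injOn, card_erase_of_mem hi, hc]
        · simp
        · intro a ha b hb hab
          exact hinj (mem_of_mem_erase ha) (mem_of_mem_erase hb) hab
    rw [← himg, Finset.prod_image]
    intro a ha b hb hab
    exact hinj (mem_of_mem_erase ha) (mem_of_mem_erase hb) hab
  rw [h2, prod_bar, ← Finset.mul_prod_erase W (fun j => cf (x j)) hi]
  ring

end Fin

end Pool.Agent.H229R2
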