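import Mathlib

set_option autoImplicit false
set_option linter.unusedSectionVars false
set_option linter.unusedVariables false

open Polynomial Finset

namespace Pool.Agent.H229R2

section Wt

variable {F : Type*} [Field F]

/-- Weighted degree bound for polynomials in two variables: the coefficient of
`(outer variable)^i * (inner variable)^j` vanishes for `i + j > m`. -/
def Wt (m : ℕ) (P : F[X][X]) : Prop := ∀ i j, m < i + j → (P.coeff i).coeff j = 0

theorem Wt.mono {m n : ℕ} (h : m ≤ n) {P : F[X][X]} (hP : Wt m P) : Wt n P :=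
  fun i j hij => hP i j (lt_of_le_of_lt h hij)

theorem Wt.zero (m : ℕ) : Wt m (0 : F[X][X]) := by
  intro i j _; simp

theorem Wt.add {m : ℕ} {P Q : F[X][X]} (hP : Wt m P) (hQ : Wt m Q) : Wt m (P + Q) := by
  intro i j hij; simp [hP i j hij, hQ i j hij]

theorem Wt.sub {m : ℕ} {P Q : F[X][X]} (hP : Wt m P) (hQ : Wt m Q) : Wt m (P - Q) := by
  intro i j hij; simp [hP i j hij, hQ i j hij]

theorem Wt.mul {m n : ℕ} {P Q : F[X][X]} (hP : Wt m P) (hQ : Wt n Q) : Wt (m + n) (P * Q) := by
  intro i j hij
  rw [coeff_mul, finsetSum_coeff]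
  apply Finset.sum_eq_zero
  rintro ⟨a, b⟩ hab
  rw [HasAntidiagonal.mem_antidiagonal] at hab
  rw [coeff_mul]
  apply Finset.sum_eq_zero
  rintro ⟨c, d⟩ hcd
  rw [HasAntidiagonal.mem_antidiagonal] at hcd
  simp only at hab hcd ⊢
  by_cases h1 : m < a + c
  · rw [hP a c h1, zero_mul]
  · rw [hQ b d (by omega), mul_zero]

theorem Wt.one : Wt 0 (1 : F[X][X]) := by
  intro i j hij
  rw [coeff_one]
  split_ifs with h
  · subst h
    rw [coeff_one, if_neg (by omega)]
  · simp

theorem Wt.X_pow (n : ℕ) : Wt n ((X : F[X][X]) ^ n) := by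
  intro i j hij
  rw [coeff_X_pow]
  split_ifs with h
  · rw [coeff_one, if_neg (by omega)]
  · simp

theorem Wt.C_of_natDegree {m : ℕ} {p : F[X]} (h : p.natDegree ≤ m) : Wt m (C p) := by
  intro i j hij
  rw [coeff_C]
  split_ifs with h0
  · subst h0
    exact coeff_eq_zero_of_natDegree_lt (by omega)
  · simp

theorem Wt.pow {m : ℕ} {P : F[X][X]} (hP : Wt m P) (k : ℕ) : Wt (k * m) (P ^ k) := by
  induction k with
  | zero => simpa using (Wt.one (F := F))
  | succ k ih =>
    rw [pow_succ, Nat.succ_mul]
    exact ih.mul hP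

/-- the linear polynomial `a + b Y`. -/
noncomputable def lin (a b : F) : F[X] := C a + C b * X

theorem natDegree_lin (a b : F) : (lin a b).natDegree ≤ 1 := by
  unfold lin
  compute_degree

theorem eval_lin (a b y : F) : (lin a b).eval y = a + b * y := by
  simp [lin]

theorem Wt.X_sub_C_lin (a b : F) : Wt 1 (X - C (lin a b) : F[X][X]) := by
  have h1 : Wt 1 ((X : F[X][X])) := by
    simpa using Wt.X_pow (F := F) 1
  exact h1.sub (Wt.C_of_natDegree (natDegree_lin a b))

theorem Wt.prod {ι : Type*} (I : Finset ι) (f : ι → F[X][X]) (h : ∀ i ∈ I, Wt 1 (f i)) :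
    Wt I.card (∏ i ∈ I, f i) := by
  classical
  induction I using Finset.induction_on with
  | empty => simpa using (Wt.one (F := F))
  | insert a s ha ih =>
    rw [prod_insert ha, card_insert_of_notMem ha, add_comm]
    exact (h a (mem_insert_self _ _)).mul (ih (fun i hi => h i (mem_insert_of_mem hi)))

theorem exists_div {n : ℕ} {R : F[X][X]} (hR : R.Monic) (hn : R.natDegree = n) (hW : Wt n R) :
    ∀ (k m : ℕ) (P : F[X][X]), P.natDegree < k → Wt m P → n ≤ m →
      ∃ Q r : F[X][X], P = R * Q + r ∧ r.degree < n ∧ Wt m r ∧ Wt (m - n) Q := by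
  intro k
  induction k with
  | zero => intro m P h; omega
  | succ k ih =>
    intro m P hk hP hnm
    by_cases hd : P.degree < n
    · exact ⟨0, P, by simp, hd, hP, Wt.zero _⟩
    · rw [not_lt] at hd
      have hP0 : P ≠ 0 := by
        rintro rfl
        simp at hd
      have hRd : R.degree = n := by rw [degree_eq_natDegree hR.ne_zero, hn]
      have hnd : n ≤ P.natDegree := le_natDegree_of_coe_le_degree hd
      have hlt := div_wf_lemma (p := P) (q := R) ⟨by rw [hRd]; exact hd, hP0⟩ hR
      set T : F[X][X] := C P.leadingCoeff * X ^ (P.natDegree - R.natDegree) with hT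
      have hWT : Wt (m - n) T := by
        intro i j hij
        rw [hT, coeff_C_mul, coeff_X_pow]
        split_ifs with h
        · rw [mul_one]
          exact hP _ _ (by omega)
        · simp
      have hWP' : Wt m (P - R * T) := by
        have := hW.mul hWT
        rw [Nat.add_sub_cancel' hnm] at this
        exact hP.sub this
      by_cases h0 : P - R * T = 0
      · refine ⟨T, 0, ?_, ?_, Wt.zero _, hWT⟩
        · rw [add_zero]; exact sub_eq_zero.mp h0
        · rw [degree_zero]; exact WithBot.bot_lt_coe _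
      · have hk' : (P - R * T).natDegree < k := by
          have := natDegree_lt_natDegree h0 hlt
          omega
        obtain ⟨Q, r, e, h1, h2, h3⟩ := ih m (P - R * T) hk' hWP' hnm
        refine ⟨T + Q, r, ?_, h1, h2, hWT.add h3⟩
        linear_combination e

end Wt

section Lines

variable {F : Type*} [Field F] [DecidableEq F]

theorem prod_dvd_of_eval (V : Finset F) (P : F[X]) (h : ∀ v ∈ V, P.eval v = 0) :
    ∏ v ∈ V, (X - C v) ∣ P := by
  apply Finset.prod_dvd_of_coprime
  · intro a _ b _ hab
    exact pairwise_coprime_X_sub_C Function.injective_id hab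
  · intro v hv
    exact dvd_iff_isRoot.mpr (h v hv)

theorem natDegree_prod_X_sub_C' {ι : Type*} (I : Finset ι) (u : ι → F) :
    (∏ i ∈ I, (X - C (u i))).natDegree = I.card := by
  rw [natDegree_prod_of_monic _ _ (fun i _ => monic_X_sub_C _)]
  simp

theorem monic_prod' {ι : Type*} (I : Finset ι) (u : ι → F) :
    (∏ i ∈ I, (X - C (u i))).Monic := monic_prod_of_monic _ _ (fun i _ => monic_X_sub_C _)

/-- group the product according to the values. -/
theorem prod_fiber {ι : Type*} (I : Finset ι) (u : ι → F) :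
    ∏ i ∈ I, (X - C (u i)) = ∏ v ∈ I.image u, (X - C v) ^ (I.filter (fun i => u i = v)).card := by
  rw [← Finset.prod_fiberwise_of_maps_to (s := I) (t := I.image u) (g := u)
    (fun i hi => mem_image_of_mem u hi)]
  apply Finset.prod_congr rfl
  intro v _
  rw [← Finset.prod_const]
  apply Finset.prod_congr rfl
  intro i hi
  rw [(mem_filter.mp hi).2]

theorem pow_fiber_dvd {ι : Type*} (I : Finset ι) (u : ι → F) (v : F) :
    (X - C v) ^ (I.filter (fun i => u i = v)).card ∣ ∏ i ∈ I, (X - C (u i)) := by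
  rw [prod_fiber]
  by_cases hv : v ∈ I.image u
  · exact Finset.dvd_prod_of_mem (fun v => (X - C v) ^ (I.filter (fun i => u i = v)).card) hv
  · have : I.filter (fun i => u i = v) = ∅ := by
      rw [filter_eq_empty_iff]
      intro i hi h
      exact hv (h ▸ mem_image_of_mem u hi)
    rw [this]; simp

theorem sum_fiber_card {ι κ : Type*} [DecidableEq κ] (I : Finset ι) (u : ι → κ) :
    ∑ v ∈ I.image u, (I.filter (fun i => u i = v)).card = I.card := by
  rw [← Finset.card_eq_sum_card_image]

/-- A polynomial divisible by `∏ (X - u i)`, with non-zero derivative, has derivative of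
degree at least the number of repetitions. -/
theorem mult_le {ι : Type*} (I : Finset ι) (u : ι → F) (P : F[X])
    (h : ∏ i ∈ I, (X - C (u i)) ∣ P) (hP : derivative P ≠ 0) :
    I.card - (I.image u).card ≤ (derivative P).natDegree := by
  have h1 : ∏ v ∈ I.image u, (X - C v) ^ ((I.filter (fun i => u i = v)).card - 1) ∣
      derivative P := by
    apply Finset.prod_dvd_of_coprime
    · intro a _ b _ hab
      exact IsCoprime.pow (pairwise_coprime_X_sub_C Function.injective_id hab)
    · intro v _
      have := pow_sub_dvd_iterate_derivative_of_pow_dvd 1 ((pow_fiber_dvd I u v).trans h)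
      simpa using this
  have h2 := natDegree_le_of_dvd h1 hP
  have h3 : (∏ v ∈ I.image u, (X - C v) ^ ((I.filter (fun i => u i = v)).card - 1)).natDegree
      = I.card - (I.image u).card := by
    rw [natDegree_prod_of_monic _ _ (fun v _ => (monic_X_sub_C v).pow _)]
    simp only [natDegree_pow, natDegree_X_sub_C, mul_one]
    have h4 : ∑ v ∈ I.image u, ((I.filter (fun i => u i = v)).card - 1)
        + ∑ _v ∈ I.image u, 1 = ∑ v ∈ I.image u, (I.filter (fun i => u i = v)).card := by
      rw [← Finset.sum_add_distrib]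
      apply Finset.sum_congr rfl
      intro v hv
      have : 0 < (I.filter (fun i => u i = v)).card := by
        rw [card_pos]
        obtain ⟨i, hi, rfl⟩ := mem_image.mp hv
        exact ⟨i, mem_filter.mpr ⟨hi, rfl⟩⟩
      omega
    rw [sum_fiber_card] at h4
    simp only [sum_const, smul_eq_mul, mul_one] at h4
    omega
  omega

end Lines

section Family

variable {F : Type*} [Field F] [Fintype F] [DecidableEq F] {ι : Type*}

/-- The family of products `∏ (T - (α i + β i Y))`. -/
noncomputable def RR (I : Finset ι) (α β : ι → F) : F[X][X] :=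
  ∏ i ∈ I, (X - C (lin (α i) (β i)))

theorem RR_monic (I : Finset ι) (α β : ι → F) : (RR I α β).Monic :=
  monic_prod_of_monic _ _ (fun _ _ => monic_X_sub_C _)

theorem RR_natDegree (I : Finset ι) (α β : ι → F) : (RR I α β).natDegree = I.card := by
  unfold RR
  rw [natDegree_prod_of_monic _ _ (fun i _ => monic_X_sub_C _)]
  simp

theorem RR_Wt (I : Finset ι) (α β : ι → F) : Wt I.card (RR I α β) :=
  Wt.prod I _ (fun _ _ => Wt.X_sub_C_lin _ _)

theorem RR_map (I : Finset ι) (α β : ι → F) (ω : F) :
    (RR I α β).map (evalRingHom ω) = ∏ i ∈ I, (X - C (α i + β i * ω)) := by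
  unfold RR
  rw [Polynomial.map_prod]
  apply Finset.prod_congr rfl
  intro i _
  simp [lin]

theorem family (I : Finset ι) (α β : ι → F) (hI : I.card ≤ Fintype.card F) :
    ∃ Q r : F[X][X], (X : F[X][X]) ^ (Fintype.card F) = RR I α β * Q + r ∧
      r.degree < I.card ∧ Wt (Fintype.card F) r ∧ Wt (Fintype.card F - I.card) Q :=
  exists_div (RR_monic I α β) (RR_natDegree I α β) (RR_Wt I α β) _ _ _
    (Nat.lt_succ_self _) (Wt.X_pow _) hI

theorem prod_dvd_X_pow_sub_X (I : Finset ι) (u : ι → F) (hu : Set.InjOn u I) :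
    ∏ i ∈ I, (X - C (u i)) ∣ X ^ (Fintype.card F) - X := by
  rw [← Finset.prod_image (s := I) (g := u) (f := fun v => X - C v) (fun a ha b hb h => hu ha hb h)]
  apply prod_dvd_of_eval
  intro v _
  simp [FiniteField.pow_card]

theorem family_at {I : Finset ι} {α β : ι → F} {Q r : F[X][X]}
    (h : (X : F[X][X]) ^ (Fintype.card F) = RR I α β * Q + r) (hr : r.degree < I.card)
    (h2 : 2 ≤ I.card) (ω : F) (hω : Set.InjOn (fun i => α i + β i * ω) I) :
    r.map (evalRingHom ω) = X ∧
      (∏ i ∈ I, (X - C (α i + β i * ω))) * Q.map (evalRingHom ω) = X ^ (Fintype.card F) - X := by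
  have h1 := congrArg (Polynomial.map (evalRingHom ω)) h
  rw [Polynomial.map_add, Polynomial.map_mul, RR_map, Polynomial.map_pow, map_X] at h1
  obtain ⟨A, hA⟩ := prod_dvd_X_pow_sub_X I _ hω
  set P := ∏ i ∈ I, (X - C (α i + β i * ω)) with hP
  have hPm : P.Monic := monic_prod' I _
  have hPd : P.natDegree = I.card := natDegree_prod_X_sub_C' I _
  have h3 : r.map (evalRingHom ω) - X = P * (A - Q.map (evalRingHom ω)) := by
    linear_combination hA - h1
  have h4 : (r.map (evalRingHom ω) - X).degree < P.degree := by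
    rw [degree_eq_natDegree hPm.ne_zero, hPd]
    refine lt_of_le_of_lt (degree_sub_le _ _) (max_lt ?_ ?_)
    · exact lt_of_le_of_lt degree_map_le hr
    · rw [degree_X]
      exact_mod_cast (by omega : 1 < I.card)
  have h5 : A - Q.map (evalRingHom ω) = 0 := by
    by_contra hne
    rw [h3, degree_mul, degree_eq_natDegree hne] at h4
    have h6 : P.degree = (P.natDegree : WithBot ℕ) := degree_eq_natDegree hPm.ne_zero
    rw [h6] at h4
    have : P.natDegree + (A - Q.map (evalRingHom ω)).natDegree < P.natDegree := by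
      exact_mod_cast h4
    omega
  rw [h5, mul_zero] at h3
  have h6 : r.map (evalRingHom ω) = X := sub_eq_zero.mp h3
  refine ⟨h6, ?_⟩
  rw [← sub_eq_zero.mp h5]
  exact hA.symm

theorem r_coeff_zero {I : Finset ι} {α β : ι → F} {Q r : F[X][X]}
    (h : (X : F[X][X]) ^ (Fintype.card F) = RR I α β * Q + r) (hr : r.degree < I.card)
    (hW : Wt (Fintype.card F) r) (h2 : 2 ≤ I.card) (Ω : Finset F)
    (hΩ : ∀ ω ∈ Ω, Set.InjOn (fun i => α i + β i * ω) I) (i : ℕ) (hi : 2 ≤ i)
    (hi' : Fintype.card F < i + Ω.card) : r.coeff i = 0 := by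
  by_cases hq : Fintype.card F < i
  · ext j
    rw [hW i j (by omega), coeff_zero]
  apply eq_zero_of_natDegree_lt_card_of_eval_eq_zero' _ Ω
  · intro ω hω
    have := (family_at h hr h2 ω (hΩ ω hω)).1
    have h3 := congrArg (fun p => coeff p i) this
    simp only [coeff_map, coe_evalRingHom] at h3
    rw [h3, coeff_X, if_neg (by omega)]
  · have h3 : (r.coeff i).natDegree ≤ Fintype.card F - i := by
      rw [natDegree_le_iff_coeff_eq_zero]
      intro j hj
      exact hW i j (by omega)
    omega

/-- The core lemma: if all but at most `|B|` members of the pencil `u + Y w` are injective on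
`I` while `u` is not, then `∏ (X - u i)` divides `X^q - X - ρ` for a non-zero `ρ` of degree at
most `|B|`. -/
theorem core (I : Finset ι) (u w : ι → F) (B : Finset F) (hI : I.card ≤ Fintype.card F)
    (hB : ∀ Y, Y ∉ B → Set.InjOn (fun i => u i + w i * Y) I) (hu : ¬ Set.InjOn u I) :
    ∃ ρ : F[X], ρ ≠ 0 ∧ ρ.natDegree ≤ B.card ∧
      ∏ i ∈ I, (X - C (u i)) ∣ X ^ (Fintype.card F) - X - ρ := by
  obtain ⟨Q, r, h, hr, hW, -⟩ := family I u w hI
  have h2 : 2 ≤ I.card := by
    by_contra hlt
    apply hu
    have : I.card ≤ 1 := by omega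
    rw [Finset.card_le_one] at this
    intro a ha b hb _
    exact this a ha b hb
  have h0B : (0 : F) ∈ B := by
    by_contra h0
    apply hu
    have := hB 0 h0
    simpa using this
  have hBc : 1 ≤ B.card := card_pos.mpr ⟨0, h0B⟩
  have hBq : Bᶜ.card = Fintype.card F - B.card := card_compl B
  have hBle : B.card ≤ Fintype.card F := card_le_univ B
  have hev := congrArg (Polynomial.map (evalRingHom (0 : F))) h
  rw [Polynomial.map_add, Polynomial.map_mul, RR_map, Polynomial.map_pow, map_X] at hev
  simp only [mul_zero, add_zero] at hev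
  set r0 := r.map (evalRingHom (0 : F)) with hr0
  have hdvd : ∏ i ∈ I, (X - C (u i)) ∣ X ^ (Fintype.card F) - X - (r0 - X) := by
    refine ⟨Q.map (evalRingHom 0), ?_⟩
    linear_combination hev
  refine ⟨r0 - X, ?_, ?_, hdvd⟩
  · intro h0
    rw [h0, sub_zero] at hdvd
    apply hu
    intro a ha b hb hab
    by_contra hne
    have h3 : (X - C (u a)) ^ 2 ∣ X ^ (Fintype.card F) - X := by
      refine dvd_trans ?_ ((pow_fiber_dvd I u (u a)).trans hdvd)
      apply pow_dvd_pow
      rw [Nat.succ_le_iff, Finset.one_lt_card]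
      exact ⟨a, mem_filter.mpr ⟨ha, rfl⟩, b, mem_filter.mpr ⟨hb, hab.symm⟩, hne⟩
    have h4 := pow_sub_dvd_iterate_derivative_of_pow_dvd 1 h3
    have hd : derivative ((X : F[X]) ^ (Fintype.card F) - X) = -1 := by
      rw [derivative_sub, derivative_X_pow, derivative_X]
      simp
    simp only [Nat.add_one_sub_one, pow_one, Function.iterate_one, hd] at h4
    have h5 := natDegree_le_of_dvd h4 (by simp)
    rw [natDegree_X_sub_C] at h5
    simp at h5
  · rw [natDegree_le_iff_coeff_eq_zero]
    intro i hi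
    rw [coeff_sub, hr0, coeff_map, coeff_X, if_neg (by omega)]
    rw [r_coeff_zero h hr hW h2 Bᶜ (fun ω hω => hB ω (by simpa using hω)) i (by omega) (by omega)]
    simp

theorem eval_rho {I : Finset ι} {u : ι → F} {ρ : F[X]}
    (h : ∏ i ∈ I, (X - C (u i)) ∣ X ^ (Fintype.card F) - X - ρ) {i : ι} (hi : i ∈ I) :
    ρ.eval (u i) = 0 := by
  have h1 : (X - C (u i)) ∣ ∏ i ∈ I, (X - C (u i)) :=
    Finset.dvd_prod_of_mem (fun i => (X - C (u i))) hi
  have h2 : (X - C (u i)) ∣ X ^ (Fintype.card F) - X - ρ := dvd_trans h1 h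
  have h3 := dvd_iff_isRoot.mp h2
  rw [IsRoot.def, eval_sub, eval_sub, eval_pow, eval_X, FiniteField.pow_card, sub_self,
    zero_sub, neg_eq_zero] at h3
  exact h3

/-- consequence: the number of values is at most `|B|`. -/
theorem card_image_le_of_root (I : Finset ι) (u : ι → F) (ρ : F[X]) (hρ : ρ ≠ 0)
    (h : ∏ i ∈ I, (X - C (u i)) ∣ X ^ (Fintype.card F) - X - ρ) :
    (I.image u).card ≤ ρ.natDegree := by
  have h1 : ∏ v ∈ I.image u, (X - C v) ∣ ρ := by
    apply prod_dvd_of_eval
    intro v hv
    obtain ⟨i, hi, rfl⟩ := mem_image.mp hv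
    exact eval_rho h hi
  have h4 := natDegree_le_of_dvd h1 hρ
  rw [natDegree_prod_of_monic _ _ (fun v _ => monic_X_sub_C v)] at h4
  simpa using h4

/-- If `ρ` has degree equal to the number of values then it is a multiple of the product over
the distinct values. -/
theorem rho_eq (I : Finset ι) (u : ι → F) (ρ : F[X]) (hρ : ρ ≠ 0)
    (h : ∏ i ∈ I, (X - C (u i)) ∣ X ^ (Fintype.card F) - X - ρ)
    (hd : ρ.natDegree ≤ (I.image u).card) :
    ∃ c : F, c ≠ 0 ∧ ρ = C c * ∏ v ∈ I.image u, (X - C v) := by
  have h1 : ∏ v ∈ I.image u, (X - C v) ∣ ρ := by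
    apply prod_dvd_of_eval
    intro v hv
    obtain ⟨i, hi, rfl⟩ := mem_image.mp hv
    exact eval_rho h hi
  obtain ⟨s, hs⟩ := h1
  have hm : (∏ v ∈ I.image u, (X - C v)).Monic := monic_prod_of_monic _ _ (fun v _ => monic_X_sub_C v)
  have hs0 : s ≠ 0 := by
    rintro rfl
    rw [mul_zero] at hs
    exact hρ hs
  have h5 : ρ.natDegree = (I.image u).card + s.natDegree := by
    rw [hs, hm.natDegree_mul' hs0, natDegree_prod_of_monic _ _ (fun v _ => monic_X_sub_C v)]
    simp
  have h6 : s.natDegree = 0 := by omega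
  rw [eq_C_of_natDegree_eq_zero h6] at hs
  refine ⟨s.coeff 0, ?_, by rw [hs, mul_comm]⟩
  intro h7
  rw [h7, C_0, mul_zero] at hs
  exact hρ hs

end Family

end Pool.Agent.H229R2
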