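import Pool.Agent.H229R2.Lift

set_option autoImplicit false
set_option linter.unusedSectionVars false
set_option linter.unusedVariables false

open Polynomial Finset

namespace Pool.Agent.H229R2

variable {F : Type*} [Field F] [Fintype F] [DecidableEq F]

/-- The planar consequence of the core lemma. -/
theorem plane {G : F → F × F} (C' : Finset F) (b w : F × F) (hbw : dt b w ≠ 0) (s s0 : F × F)
    (hss0 : s ≠ s0) (hb : dt (s0 - s) b = 0) (D : Finset (F × F))
    (hD : ∀ s' ∈ D, dt (s' - s) b = 0)
    (hC : ∀ z ∈ C', ∀ z' ∈ C', z ≠ z' → ∃ s' ∈ D, G z - G z' = (z - z') • s')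
    (hpair : ∃ z ∈ C', ∃ z' ∈ C', z ≠ z' ∧ G z - z • s = G z' - z' • s) :
    ∃ ρ : F[X], ρ ≠ 0 ∧ ρ.natDegree ≤ (D.erase s0).card ∧
      ∏ z ∈ C', (X - C (dt (G z - z • s) w)) ∣ X ^ (Fintype.card F) - X - ρ := by
  have hdiff : ∀ (s1 : F × F) (z z' : F) (s' : F × F), G z - G z' = (z - z') • s' →
      dt (G z - z • s1) w - dt (G z' - z' • s1) w = (z - z') * dt (s' - s1) w := by
    intro s1 z z' s' he
    rw [← dt_sub_left, ← dt_smul_left]
    congr 1
    have : G z - z • s1 - (G z' - z' • s1) = (G z - G z') - (z - z') • s1 := by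
      rw [sub_smul]; abel
    rw [this, he, smul_sub]
  have hpar : ∀ s' , dt (s' - s) b = 0 → s' ≠ s0 → dt (s' - s0) w ≠ 0 := by
    intro s' h1 hne h0
    apply hne
    rw [← sub_eq_zero]
    refine eq_of_dt_eq hbw ?_ ?_
    · have : s' - s0 = (s' - s) - (s0 - s) := by abel
      rw [this, dt_sub_left, h1, hb]; simp
    · rw [h0]; simp
  have hinj1 : ∀ Y, Y ∉ (D.erase s0).image (fun s' => - dt (s' - s) w / dt (s' - s0) w) →
      Set.InjOn (fun z => dt (G z - z • s) w + dt (G z - z • s0) w * Y) (C' : Set F) := by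
    intro Y hY z hz z' hz' heq
    by_contra hne
    obtain ⟨s', hs', he⟩ := hC z hz z' hz' hne
    simp only at heq
    have e1 := hdiff s z z' s' he
    have e2 := hdiff s0 z z' s' he
    have e3 : (z - z') * (dt (s' - s) w + Y * dt (s' - s0) w) = 0 := by
      linear_combination heq - e1 - Y * e2
    have e4 := (mul_eq_zero.mp e3).resolve_left (sub_ne_zero.mpr hne)
    by_cases h0 : s' = s0
    · subst h0
      rw [sub_self, dt_zero_left, mul_zero, add_zero] at e4
      apply hss0
      symm
      rw [← sub_eq_zero]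
      refine eq_of_dt_eq hbw ?_ ?_
      · rw [hb]; simp
      · rw [e4]; simp
    · apply hY
      refine mem_image.mpr ⟨s', mem_erase.mpr ⟨h0, hs'⟩, ?_⟩
      have h5 := hpar s' (hD s' hs') h0
      field_simp
      linear_combination -e4
  have hinj2 : ¬ Set.InjOn (fun z => dt (G z - z • s) w) (C' : Set F) := by
    intro hinj
    obtain ⟨z, hz, z', hz', hne, he⟩ := hpair
    apply hne
    apply hinj hz hz'
    simp only [he]
  obtain ⟨ρ, h1, h2, h3⟩ := core C' (fun z => dt (G z - z • s) w) (fun z => dt (G z - z • s0) w)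
    _ (card_le_univ _) hinj1 hinj2
  exact ⟨ρ, h1, h2.trans card_image_le, h3⟩

/-- the non-zero field elements -/
def ZZ (F : Type*) [Field F] [Fintype F] [DecidableEq F] : Finset F := univ.erase 0

theorem mem_ZZ {z : F} : z ∈ ZZ F ↔ z ≠ 0 := by simp [ZZ]

theorem card_ZZ : (ZZ F).card = Fintype.card F - 1 := by
  unfold ZZ; rw [card_erase_of_mem (mem_univ _), card_univ]

/-- number of other points of `S` on the line through `s` with direction `o`. -/
def mu (S : Finset (F × F)) (s : F × F) (o : Option F) : ℕ :=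
  ((S.erase s).filter (fun s' => dt (s' - s) (bar o) = 0)).card

/-- points of `S` on the line through `s` with direction `o`. -/
def Se (S : Finset (F × F)) (s : F × F) (o : Option F) : Finset (F × F) :=
  S.filter (fun s' => dt (s' - s) (bar o) = 0)

/-- the lifted points modulo `s`. -/
def TS (G : F → F × F) (s : F × F) : Finset (F × F) := (ZZ F).image (fun z => G z - z • s)

/-- the class of lifted points in a plane parallel to a line. -/
def cls (G : F → F × F) (s : F × F) (o : Option F) (v : F) : Finset F :=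
  (ZZ F).filter (fun z => dt (G z - z • s) (bar o) = v)

/-- the part of `TS` over the value `v`. -/
def TT (G : F → F × F) (s : F × F) (o : Option F) (v : F) : Finset (F × F) :=
  (TS G s).filter (fun d => dt d (bar o) = v)

/-- the values of a line. -/
def VV (G : F → F × F) (s : F × F) (o : Option F) : Finset F :=
  (ZZ F).image (fun z => dt (G z - z • s) (bar o))

theorem cls_image (G : F → F × F) (s : F × F) (o : Option F) (v : F) :
    (cls G s o v).image (fun z => G z - z • s) = TT G s o v := by
  unfold cls TT TS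
  rw [Finset.filter_image]

theorem Se_card {S : Finset (F × F)} {s : F × F} (hs : s ∈ S) (o : Option F) :
    (Se S s o).card = mu S s o + 1 := by
  unfold Se mu
  have hmem : s ∈ S.filter (fun s' => dt (s' - s) (bar o) = 0) := by
    rw [mem_filter]; exact ⟨hs, by simp⟩
  rw [← Finset.card_erase_add_one hmem, Finset.filter_erase]

theorem mem_Se {S : Finset (F × F)} {s s' : F × F} {o : Option F} :
    s' ∈ Se S s o ↔ s' ∈ S ∧ dt (s' - s) (bar o) = 0 := by
  unfold Se; rw [mem_filter]

theorem sum_mu {S : Finset (F × F)} {s : F × F} (hs : s ∈ S) :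
    ∑ o : Option F, mu S s o = S.card - 1 := by
  rw [← card_erase_of_mem hs]
  rw [Finset.card_eq_sum_card_fiberwise (f := fun s' => dir (s' - s)) (t := univ)
    (fun _ _ => mem_univ _)]
  apply Finset.sum_congr rfl
  intro o _
  unfold mu
  congr 1
  apply Finset.filter_congr
  intro s' hs'
  have : s' - s ≠ 0 := sub_ne_zero.mpr (mem_erase.mp hs').1
  rw [dt_bar_eq_zero this]
  exact eq_comm

theorem dt_base_change (G : F → F × F) {s s' : F × F} {o : Option F}
    (h : dt (s' - s) (bar o) = 0) (z : F) :
    dt (G z - z • s') (bar o) = dt (G z - z • s) (bar o) := by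
  have : G z - z • s' = (G z - z • s) - z • (s' - s) := by
    rw [smul_sub]; abel
  rw [this, dt_sub_left, dt_smul_left, h, mul_zero, sub_zero]

theorem cls_base_change (G : F → F × F) {s s' : F × F} {o : Option F}
    (h : dt (s' - s) (bar o) = 0) (v : F) : cls G s' o v = cls G s o v := by
  unfold cls
  simp only [dt_base_change G h]

theorem VV_base_change (G : F → F × F) {s s' : F × F} {o : Option F}
    (h : dt (s' - s) (bar o) = 0) : VV G s' o = VV G s o := by
  unfold VV
  simp only [dt_base_change G h]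

theorem Se_base_change (S : Finset (F × F)) {s s' : F × F} {o : Option F}
    (h : dt (s' - s) (bar o) = 0) : Se S s' o = Se S s o := by
  unfold Se
  apply Finset.filter_congr
  intro x _
  have : x - s' = (x - s) - (s' - s) := by abel
  rw [this, dt_sub_left, h, sub_zero]

theorem mu_base_change {S : Finset (F × F)} {s s' : F × F} {o : Option F} (hs : s ∈ S)
    (hs' : s' ∈ S) (h : dt (s' - s) (bar o) = 0) : mu S s' o = mu S s o := by
  have h1 := Se_card hs o
  have h2 := Se_card hs' o
  rw [Se_base_change S h, h1] at h2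
  omega

theorem sum_TT (G : F → F × F) (s : F × F) (o : Option F) :
    ∑ v ∈ VV G s o, (TT G s o v).card = (TS G s).card := by
  unfold TT
  rw [← Finset.card_eq_sum_card_fiberwise]
  intro d hd
  simp only [TS, coe_image, Set.mem_image, mem_coe] at hd
  obtain ⟨z, hz, rfl⟩ := hd
  exact mem_image_of_mem _ hz

theorem sum_cls (G : F → F × F) (s : F × F) (o : Option F) :
    ∑ v ∈ VV G s o, (cls G s o v).card = Fintype.card F - 1 := by
  unfold cls
  rw [← Finset.card_eq_sum_card_fiberwise, card_ZZ]
  intro z hz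
  exact mem_image_of_mem _ hz

theorem VV_eq (G : F → F × F) (s : F × F) (o : Option F) :
    VV G s o = (TS G s).image (fun d => dt d (bar o)) := by
  unfold VV TS
  rw [Finset.image_image]
  rfl

namespace Lift

variable {S : Finset (F × F)} {G : F → F × F} (L : Lift S G)

include L

theorem uniq {z z' : F} (hne : z ≠ z') {s s' : F × F} (h : G z - G z' = (z - z') • s)
    (h' : G z - G z' = (z - z') • s') : s = s' := by
  rw [h] at h'
  exact smul_right_injective _ (sub_ne_zero.mpr hne) h'

theorem pair_iff {z z' : F} {s : F × F} :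
    G z - z • s = G z' - z' • s ↔ G z - G z' = (z - z') • s := by
  rw [sub_smul, sub_eq_sub_iff_sub_eq_sub]

/-- two lifted points in the same class differ by a direction on the line -/
theorem class_pair {z z' : F} (hz : z ≠ 0) (hz' : z' ≠ 0) (hne : z ≠ z') {s : F × F}
    {w : F × F} (h : dt (G z - z • s) w = dt (G z' - z' • s) w) :
    ∃ s' ∈ S, dt (s' - s) w = 0 ∧ G z - G z' = (z - z') • s' := by
  obtain ⟨s', hs', h1⟩ := L.h3 z z' hz hz' hne
  refine ⟨s', hs', ?_, h1⟩
  have h2 : (z - z') * dt (s' - s) w = 0 := by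
    rw [← dt_smul_left, smul_sub, ← h1]
    have : G z - G z' - (z - z') • s = (G z - z • s) - (G z' - z' • s) := by
      rw [sub_smul]; abel
    rw [this, dt_sub_left, h, sub_self]
  exact (mul_eq_zero.mp h2).resolve_left (sub_ne_zero.mpr hne)

theorem TS_ne_zero {s : F × F} (hs : s ∈ S) {d : F × F} (hd : d ∈ TS G s) : d ≠ 0 := by
  obtain ⟨z, hz, rfl⟩ := mem_image.mp hd
  exact L.h2 s hs z (mem_ZZ.mp hz)

theorem tangent_of {s : F × F} (hs : s ∈ S) {d : F × F} (hd : d ∈ TS G s) :
    mu S s (dir d) = 0 := by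
  obtain ⟨z, hz, rfl⟩ := mem_image.mp hd
  rw [mem_ZZ] at hz
  have hd0 := L.h2 s hs z hz
  unfold mu
  rw [card_eq_zero, filter_eq_empty_iff]
  intro s' hs' h0
  rw [mem_erase] at hs'
  apply hs'.1
  symm
  have h1 : dt (G z - z • s) (bar (dir (G z - z • s))) = 0 := (dt_bar_eq_zero hd0 _).mpr rfl
  refine L.h4 z hz _ (bar_ne_zero _) s hs s' hs'.2 h1 ?_
  rw [dt_base_change G h0, h1]

theorem dir_injOn {s : F × F} (hs : s ∈ S) : Set.InjOn dir (TS G s : Set (F × F)) := by
  intro d hd d' hd' heq
  have ht := L.tangent_of hs hd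
  have hd0 := L.TS_ne_zero hs hd
  have hd0' := L.TS_ne_zero hs hd'
  have e1 : dt d (bar (dir d)) = 0 := (dt_bar_eq_zero hd0 _).mpr rfl
  have e2 : dt d' (bar (dir d)) = 0 := (dt_bar_eq_zero hd0' _).mpr heq
  simp only [TS, coe_image, Set.mem_image, mem_coe] at hd hd'
  obtain ⟨z, hz, h1⟩ := hd
  obtain ⟨z', hz', h2⟩ := hd'
  by_cases hzz : z = z'
  · rw [← h1, ← h2, hzz]
  · obtain ⟨s', hs', h3, h4⟩ := L.class_pair (mem_ZZ.mp hz) (mem_ZZ.mp hz') hzz
      (s := s) (w := bar (dir d)) (by rw [h1, h2, e1, e2])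
    have : s' = s := by
      by_contra hne
      unfold mu at ht
      rw [card_eq_zero, filter_eq_empty_iff] at ht
      exact ht (mem_erase.mpr ⟨hne, hs'⟩) h3
    subst this
    rw [← h1, ← h2]
    exact L.pair_iff.mpr h4

/-- tangent directions at `s` correspond to the points of `TS`. -/
theorem tangents {s : F × F} (hs : s ∈ S) :
    (univ : Finset (Option F)).filter (fun o => mu S s o = 0) = (TS G s).image dir := by
  ext o
  simp only [mem_filter, mem_univ, true_and, mem_image]
  constructor
  · intro h0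
    have hcard : (S.filter (fun s' => dt s' (bar o) = dt s (bar o))).card = 1 := by
      have h1 := Se_card hs o
      rw [h0, zero_add] at h1
      unfold Se at h1
      rw [← h1]
      congr 1
      apply Finset.filter_congr
      intro x _
      rw [dt_sub_left, sub_eq_zero]
    obtain ⟨z, hz, h1⟩ := L.h5 (bar o) (bar_ne_zero o) (dt s (bar o)) (by rw [hcard]; simp)
    refine ⟨G z - z • s, mem_image.mpr ⟨z, mem_ZZ.mpr hz, rfl⟩, ?_⟩
    symm
    rw [← dt_bar_eq_zero (L.h2 s hs z hz), dt_sub_left, dt_smul_left, h1, sub_self]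
  · rintro ⟨d, hd, rfl⟩
    exact L.tangent_of hs hd

theorem card_tangents {s : F × F} (hs : s ∈ S) :
    ((univ : Finset (Option F)).filter (fun o => mu S s o = 0)).card = (TS G s).card := by
  rw [L.tangents hs, Finset.card_image_of_injOn (L.dir_injOn hs)]

theorem TS_card_le {s : F × F} : (TS G s).card ≤ Fintype.card F - 1 := by
  unfold TS
  exact card_image_le.trans (le_of_eq card_ZZ)

theorem TS_card_pos {s : F × F} : 0 < (TS G s).card := by
  have hq : 1 < Fintype.card F := Fintype.one_lt_card
  rw [card_pos]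
  exact ⟨_, mem_image_of_mem _ (mem_ZZ.mpr (one_ne_zero : (1 : F) ≠ 0))⟩

theorem card_sec {s : F × F} (hs : s ∈ S) :
    ((univ : Finset (Option F)).filter (fun o => 1 ≤ mu S s o)).card + (TS G s).card
      = Fintype.card F + 1 := by
  rw [← L.card_tangents hs]
  have h1 : (univ : Finset (Option F)).filter (fun o => 1 ≤ mu S s o) =
      (univ : Finset (Option F)).filter (fun o => ¬ mu S s o = 0) := by
    apply Finset.filter_congr
    intro o _
    omega
  rw [h1, add_comm, Finset.card_filter_add_card_filter_not, card_univ, Fintype.card_option]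

theorem sum_mu' {s : F × F} (hs : s ∈ S) : ∑ o : Option F, mu S s o = Fintype.card F := by
  rw [sum_mu hs, L.h1]; rfl

theorem sum_sec {s : F × F} (hs : s ∈ S) :
    ∑ o ∈ (univ : Finset (Option F)).filter (fun o => 1 ≤ mu S s o), mu S s o
      = Fintype.card F := by
  rw [← L.sum_mu' hs, Finset.sum_filter]
  apply Finset.sum_congr rfl
  intro o _
  split_ifs with h <;> omega

theorem sum_sec_sub {s : F × F} (hs : s ∈ S) :
    ∑ o ∈ (univ : Finset (Option F)).filter (fun o => 1 ≤ mu S s o), (mu S s o - 1)
      = (TS G s).card - 1 := by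
  have h1 := L.sum_sec hs
  have h2 := L.card_sec hs
  have h3 := L.TS_card_pos (s := s)
  have h4 : ∑ o ∈ (univ : Finset (Option F)).filter (fun o => 1 ≤ mu S s o), (mu S s o - 1)
      + ∑ _o ∈ (univ : Finset (Option F)).filter (fun o => 1 ≤ mu S s o), 1
      = ∑ o ∈ (univ : Finset (Option F)).filter (fun o => 1 ≤ mu S s o), mu S s o := by
    rw [← Finset.sum_add_distrib]
    apply Finset.sum_congr rfl
    intro o ho
    have := (mem_filter.mp ho).2
    omega
  simp only [sum_const, smul_eq_mul, mul_one] at h4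
  omega

end Lift

end Pool.Agent.H229R2
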