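import Pool.Agent.H229R2.Struct

set_option autoImplicit false
set_option linter.unusedSectionVars false
set_option linter.unusedVariables false

open Polynomial Finset

namespace Pool.Agent.H229R2

variable {F : Type*} [Field F] [Fintype F] [DecidableEq F]

/-- the class contains two lifted points which agree modulo `s`. -/
def HasPair (G : F → F × F) (s : F × F) (C' : Finset F) : Prop :=
  ∃ z ∈ C', ∃ z' ∈ C', z ≠ z' ∧ G z - z • s = G z' - z' • s

theorem exists_indep (o : Option F) : ∃ w : F × F, dt (bar o) w ≠ 0 := by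
  cases o with
  | none => exact ⟨bar (some 0), dt_bar_bar (by simp)⟩
  | some v => exact ⟨bar none, dt_bar_bar (by simp)⟩

theorem mem_cls {G : F → F × F} {s : F × F} {o : Option F} {v z : F} :
    z ∈ cls G s o v ↔ z ≠ 0 ∧ dt (G z - z • s) (bar o) = v := by
  unfold cls; rw [mem_filter, mem_ZZ]

theorem mem_TT {G : F → F × F} {s : F × F} {o : Option F} {v : F} {d : F × F} :
    d ∈ TT G s o v ↔ d ∈ TS G s ∧ dt d (bar o) = v := by
  unfold TT; rw [mem_filter]

theorem card_TT_eq (G : F → F × F) (s : F × F) (o : Option F) (v : F) (w : F × F)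
    (hw : dt (bar o) w ≠ 0) :
    ((cls G s o v).image (fun z => dt (G z - z • s) w)).card = (TT G s o v).card := by
  rw [← cls_image]
  have : (cls G s o v).image (fun z => dt (G z - z • s) w)
      = ((cls G s o v).image (fun z => G z - z • s)).image (fun d => dt d w) := by
    rw [Finset.image_image]; rfl
  rw [this]
  apply Finset.card_image_of_injOn
  rw [cls_image]
  intro d hd d' hd' h
  rw [mem_coe, mem_TT] at hd hd'
  exact eq_of_dt_eq hw (hd.2.trans hd'.2.symm) h

theorem card_TT_le_cls (G : F → F × F) (s : F × F) (o : Option F) (v : F) :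
    (TT G s o v).card ≤ (cls G s o v).card := by
  rw [← cls_image]; exact card_image_le

theorem TT_pos {G : F → F × F} {s : F × F} {o : Option F} {v : F} (hv : v ∈ VV G s o) :
    1 ≤ (TT G s o v).card := by
  rw [Nat.succ_le_iff, card_pos]
  obtain ⟨z, hz, h1⟩ := mem_image.mp hv
  refine ⟨G z - z • s, ?_⟩
  rw [mem_TT]
  exact ⟨mem_image_of_mem _ hz, h1⟩

theorem cls_pos {G : F → F × F} {s : F × F} {o : Option F} {v : F} (hv : v ∈ VV G s o) :
    1 ≤ (cls G s o v).card := (TT_pos hv).trans (card_TT_le_cls G s o v)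

namespace Lift

variable {S : Finset (F × F)} {G : F → F × F} (L : Lift S G)

include L

theorem cls_dir {s : F × F} {o : Option F} {v : F} {z z' : F} (hz : z ∈ cls G s o v)
    (hz' : z' ∈ cls G s o v) (hne : z ≠ z') :
    ∃ s' ∈ Se S s o, G z - G z' = (z - z') • s' := by
  rw [mem_cls] at hz hz'
  obtain ⟨s', hs', h1, h2⟩ := L.class_pair hz.1 hz'.1 hne (hz.2.trans hz'.2.symm)
  exact ⟨s', mem_Se.mpr ⟨hs', h1⟩, h2⟩

theorem class_rho {s : F × F} (hs : s ∈ S) {o : Option F} (hmu : 1 ≤ mu S s o) (w : F × F)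
    (hw : dt (bar o) w ≠ 0) (v : F) (hpair : HasPair G s (cls G s o v)) :
    ∃ ρ : F[X], ρ ≠ 0 ∧ ρ.natDegree ≤ mu S s o ∧
      ∏ z ∈ cls G s o v, (X - C (dt (G z - z • s) w)) ∣ X ^ (Fintype.card F) - X - ρ := by
  obtain ⟨s0, hs0⟩ := card_pos.mp (Nat.lt_of_lt_of_le Nat.zero_lt_one hmu)
  rw [mem_filter, mem_erase] at hs0
  have hmem : s0 ∈ Se S s o := mem_Se.mpr ⟨hs0.1.2, hs0.2⟩
  obtain ⟨ρ, h1, h2, h3⟩ := plane (G := G) (cls G s o v) (bar o) w hw s s0 (Ne.symm hs0.1.1) hs0.2
    (Se S s o) (fun s' hs' => (mem_Se.mp hs').2) (fun z hz z' hz' hne => L.cls_dir hz hz' hne) hpair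
  refine ⟨ρ, h1, ?_, h3⟩
  rw [card_erase_of_mem hmem, Se_card hs] at h2
  simpa using h2

theorem class_rho' {s : F × F} (hs : s ∈ S) {o : Option F} (hmu : 2 ≤ mu S s o) (w : F × F)
    (hw : dt (bar o) w ≠ 0) (v : F) (hpair : HasPair G s (cls G s o v)) {s' : F × F}
    (hs' : s' ∈ Se S s o) (hnp : ¬ HasPair G s' (cls G s o v)) :
    ∃ ρ : F[X], ρ ≠ 0 ∧ ρ.natDegree ≤ mu S s o - 1 ∧
      ∏ z ∈ cls G s o v, (X - C (dt (G z - z • s) w)) ∣ X ^ (Fintype.card F) - X - ρ := by
  have hss' : s ≠ s' := by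
    rintro rfl; exact hnp hpair
  have hsmem : s ∈ Se S s o := mem_Se.mpr ⟨hs, by simp⟩
  have hcard : 0 < (((Se S s o).erase s').erase s).card := by
    rw [card_erase_of_mem (mem_erase.mpr ⟨hss', hsmem⟩), card_erase_of_mem hs', Se_card hs]
    omega
  obtain ⟨s0, hs0⟩ := card_pos.mp hcard
  rw [mem_erase] at hs0
  have hs0mem : s0 ∈ (Se S s o).erase s' := hs0.2
  have hs0Se : s0 ∈ Se S s o := (mem_erase.mp hs0.2).2
  obtain ⟨ρ, h1, h2, h3⟩ := plane (G := G) (cls G s o v) (bar o) w hw s s0 (Ne.symm hs0.1)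
    (mem_Se.mp hs0Se).2 ((Se S s o).erase s') (fun s'' hs'' => (mem_Se.mp (mem_erase.mp hs'').2).2)
    (fun z hz z' hz' hne => by
      obtain ⟨s1, hs1, he⟩ := L.cls_dir hz hz' hne
      refine ⟨s1, mem_erase.mpr ⟨?_, hs1⟩, he⟩
      rintro rfl
      exact hnp ⟨z, hz, z', hz', hne, L.pair_iff.mpr he⟩) hpair
  refine ⟨ρ, h1, ?_, h3⟩
  rw [card_erase_of_mem hs0mem, card_erase_of_mem hs', Se_card hs] at h2
  omega

theorem TT_le {s : F × F} (hs : s ∈ S) {o : Option F} (hmu : 1 ≤ mu S s o) (v : F)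
    (hpair : HasPair G s (cls G s o v)) : (TT G s o v).card ≤ mu S s o := by
  obtain ⟨w, hw⟩ := exists_indep o
  obtain ⟨ρ, h1, h2, h3⟩ := L.class_rho hs hmu w hw v hpair
  rw [← card_TT_eq G s o v w hw]
  exact (card_image_le_of_root _ _ ρ h1 h3).trans h2

/-- the other points of `TS` seen from `d`. -/
theorem sum_TT_point {s : F × F} (hs : s ∈ S) {d : F × F} (hd : d ∈ TS G s) :
    ∑ o ∈ (univ : Finset (Option F)).filter (fun o => 1 ≤ mu S s o),
      ((TT G s o (dt d (bar o))).card - 1) = (TS G s).card - 1 := by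
  rw [← card_erase_of_mem hd]
  rw [Finset.card_eq_sum_card_fiberwise (f := fun d' => dir (d' - d))
    (t := (univ : Finset (Option F)).filter (fun o => 1 ≤ mu S s o))]
  · apply Finset.sum_congr rfl
    intro o _
    have hmem : d ∈ TT G s o (dt d (bar o)) := mem_TT.mpr ⟨hd, rfl⟩
    rw [← card_erase_of_mem hmem]
    congr 1
    ext d'
    simp only [mem_erase, mem_TT, mem_filter]
    constructor
    · rintro ⟨h1, h2, h3⟩
      refine ⟨⟨h1, h2⟩, ?_⟩
      symm
      rw [← dt_bar_eq_zero (sub_ne_zero.mpr h1), dt_sub_left, h3, sub_self]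
    · rintro ⟨⟨h1, h2⟩, h3⟩
      refine ⟨h1, h2, ?_⟩
      have h4 := h3.symm
      rw [← dt_bar_eq_zero (sub_ne_zero.mpr h1), dt_sub_left, sub_eq_zero] at h4
      exact h4
  · intro d' hd'
    rw [mem_coe, mem_erase] at hd'
    rw [mem_coe, mem_filter]
    refine ⟨mem_univ _, ?_⟩
    have hne : d' - d ≠ 0 := sub_ne_zero.mpr hd'.1
    obtain ⟨z1, hz1, e1⟩ := mem_image.mp hd'.2
    obtain ⟨z, hz, e⟩ := mem_image.mp hd
    have hzz : z1 ≠ z := by
      rintro rfl
      exact hd'.1 (e1.symm.trans e)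
    have h5 : dt (d' - d) (bar (dir (d' - d))) = 0 := (dt_bar_eq_zero hne _).mpr rfl
    obtain ⟨s', hs', h1, h2⟩ := L.class_pair (mem_ZZ.mp hz1) (mem_ZZ.mp hz) hzz
      (s := s) (w := bar (dir (d' - d))) (by
        rw [e1, e, ← sub_eq_zero, ← dt_sub_left, h5])
    have hs's : s' ≠ s := by
      rintro rfl
      have := L.pair_iff.mpr h2
      rw [e1, e] at this
      exact hd'.1 this
    rw [Nat.succ_le_iff]
    unfold mu
    rw [card_pos]
    exact ⟨s', mem_filter.mpr ⟨mem_erase.mpr ⟨hs's, hs'⟩, h1⟩⟩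

/-- Tightness. -/
theorem tight {s : F × F} (hs : s ∈ S) {z z' : F} (hz : z ≠ 0) (hz' : z' ≠ 0) (hne : z ≠ z')
    (he : G z - z • s = G z' - z' • s) {o : Option F} (ho : 1 ≤ mu S s o) :
    (TT G s o (dt (G z - z • s) (bar o))).card = mu S s o := by
  set d := G z - z • s with hd
  have hdm : d ∈ TS G s := mem_image_of_mem (fun z => G z - z • s) (mem_ZZ.mpr hz)
  have h1 := L.sum_TT_point hs hdm
  rw [← L.sum_sec_sub hs] at h1
  have hle : ∀ o ∈ (univ : Finset (Option F)).filter (fun o => 1 ≤ mu S s o),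
      ((TT G s o (dt d (bar o))).card - 1) ≤ mu S s o - 1 := by
    intro o ho
    apply Nat.sub_le_sub_right
    apply L.TT_le hs (mem_filter.mp ho).2
    refine ⟨z, mem_cls.mpr ⟨hz, rfl⟩, z', mem_cls.mpr ⟨hz', by rw [← he]⟩, hne, he⟩
  have h2 := (Finset.sum_eq_sum_iff_of_le hle).mp h1 o (mem_filter.mpr ⟨mem_univ _, ho⟩)
  have h3 : 1 ≤ (TT G s o (dt d (bar o))).card := by
    rw [Nat.succ_le_iff, card_pos]
    exact ⟨d, mem_TT.mpr ⟨hdm, rfl⟩⟩
  omega

theorem tight' {s : F × F} (hs : s ∈ S) {o : Option F} (ho : 1 ≤ mu S s o) {v : F}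
    (hpair : HasPair G s (cls G s o v)) : (TT G s o v).card = mu S s o := by
  obtain ⟨z, hz, z', hz', hne, he⟩ := hpair
  rw [mem_cls] at hz hz'
  have := L.tight hs hz.1 hz'.1 hne he ho
  rwa [hz.2] at this

/-- All points on a line with at least three points are determined by a class once one is. -/
theorem determined {s : F × F} (hs : s ∈ S) {o : Option F} (hmu : 2 ≤ mu S s o) {v : F}
    (hpair : HasPair G s (cls G s o v)) {s' : F × F} (hs' : s' ∈ Se S s o) :
    HasPair G s' (cls G s o v) := by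
  by_contra hnp
  obtain ⟨w, hw⟩ := exists_indep o
  obtain ⟨ρ, h1, h2, h3⟩ := L.class_rho' hs hmu w hw v hpair hs' hnp
  have h4 := (card_image_le_of_root _ _ ρ h1 h3).trans h2
  rw [card_TT_eq G s o v w hw, L.tight' hs (by omega) hpair] at h4
  omega

theorem hasPair_of_two {s : F × F} (hs : s ∈ S) {o : Option F} (hmu : 2 ≤ mu S s o) {v : F}
    (h2 : 2 ≤ (cls G s o v).card) : HasPair G s (cls G s o v) := by
  obtain ⟨z, hz, z', hz', hne⟩ := Finset.one_lt_card.mp (by omega : 1 < (cls G s o v).card)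
  obtain ⟨s', hs', he⟩ := L.cls_dir hz hz' hne
  rw [mem_Se] at hs'
  have hb : dt (s - s') (bar o) = 0 := by
    have : s - s' = -(s' - s) := by abel
    rw [this, dt_neg_left, hs'.2, neg_zero]
  have hmu' : 2 ≤ mu S s' o := by rw [mu_base_change hs hs'.1 hs'.2]; exact hmu
  have hp : HasPair G s' (cls G s' o v) := by
    rw [cls_base_change G hs'.2]
    exact ⟨z, hz, z', hz', hne, L.pair_iff.mpr he⟩
  have := L.determined hs'.1 hmu' hp (s' := s) (mem_Se.mpr ⟨hs, hb⟩)
  rwa [cls_base_change G hs'.2] at this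

theorem TT_big {s : F × F} (hs : s ∈ S) {o : Option F} (hmu : 2 ≤ mu S s o) {v : F}
    (h2 : 2 ≤ (cls G s o v).card) : (TT G s o v).card = mu S s o :=
  L.tight' hs (by omega) (L.hasPair_of_two hs hmu h2)

theorem TT_small {s : F × F} {o : Option F} {v : F} (hv : v ∈ VV G s o)
    (h2 : ¬ 2 ≤ (cls G s o v).card) : (TT G s o v).card = 1 := by
  have h1 := TT_pos hv
  have h3 := card_TT_le_cls G s o v
  omega

/-- `|TS|` is the same for all points of a line with at least three points of `S`. -/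
theorem TS_const {s s' : F × F} (hs : s ∈ S) {o : Option F} (hmu : 2 ≤ mu S s o)
    (hs' : s' ∈ Se S s o) : (TS G s').card = (TS G s).card := by
  rw [mem_Se] at hs'
  rw [← sum_TT G s o, ← sum_TT G s' o, VV_base_change G hs'.2]
  apply Finset.sum_congr rfl
  intro v hv
  have hmu' : mu S s' o = mu S s o := mu_base_change hs hs'.1 hs'.2
  by_cases h2 : 2 ≤ (cls G s o v).card
  · rw [L.TT_big hs hmu h2, ← hmu']
    apply L.TT_big hs'.1 (by omega)
    rw [cls_base_change G hs'.2]; exact h2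
  · rw [L.TT_small hv h2]
    apply L.TT_small
    · rw [VV_base_change G hs'.2]; exact hv
    · rw [cls_base_change G hs'.2]; exact h2

/-- For a line with at least two points of `S`, `m - 1` is non-zero in the field. -/
theorem mu_cast_ne {s : F × F} (hs : s ∈ S) {o : Option F} (hmu : 1 ≤ mu S s o) :
    ((mu S s o : ℕ) : F) ≠ 0 := by
  intro h0
  have hcard : ((S.filter (fun s' => dt s' (bar o) = dt s (bar o))).card : F) = 1 := by
    have h1 := Se_card hs o
    unfold Se at h1
    have h2 : S.filter (fun s' => dt s' (bar o) = dt s (bar o)) =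
        S.filter (fun s' => dt (s' - s) (bar o) = 0) := by
      apply Finset.filter_congr
      intro x _
      rw [dt_sub_left, sub_eq_zero]
    rw [h2, h1]
    push_cast
    rw [h0, zero_add]
  obtain ⟨z, hz, h1⟩ := L.h5 (bar o) (bar_ne_zero o) (dt s (bar o)) hcard
  have h2 : dt (G z - z • s) (bar o) = 0 := by rw [dt_sub_left, dt_smul_left, h1, sub_self]
  obtain ⟨s', hs'⟩ := card_pos.mp (Nat.lt_of_lt_of_le Nat.zero_lt_one hmu)
  rw [mem_filter, mem_erase] at hs'
  apply hs'.1.1
  symm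
  refine L.h4 z hz _ (bar_ne_zero o) s hs s' hs'.1.2 h2 ?_
  rw [dt_base_change G hs'.2, h2]

/-- The class bound. -/
theorem cls_le {s : F × F} (hs : s ∈ S) {o : Option F} (hmu : 2 ≤ mu S s o) (v : F) :
    (cls G s o v).card ≤ 2 * mu S s o - 1 := by
  by_cases h2 : 2 ≤ (cls G s o v).card
  · have hp := L.hasPair_of_two hs hmu h2
    obtain ⟨w, hw⟩ := exists_indep o
    obtain ⟨ρ, h1, h3, h4⟩ := L.class_rho hs (by omega) w hw v hp
    have h5 := card_image_le_of_root _ _ ρ h1 h4
    have h6 := card_TT_eq G s o v w hw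
    have h7 := L.TT_big hs hmu h2
    have hdeg : ρ.natDegree = mu S s o := by omega
    have hlead : ρ.coeff (mu S s o) ≠ 0 := by
      rw [← hdeg]
      exact leadingCoeff_ne_zero.mpr h1
    have hder : derivative (X ^ (Fintype.card F) - X - ρ) = -1 - derivative ρ := by
      rw [derivative_sub, derivative_sub, derivative_X_pow, derivative_X]
      simp
    have hcoeff : (derivative (X ^ (Fintype.card F) - X - ρ)).coeff (mu S s o - 1) ≠ 0 := by
      rw [hder, coeff_sub, coeff_derivative]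
      have e1 : ((-1 : F[X])).coeff (mu S s o - 1) = 0 := by
        rw [coeff_neg, coeff_one, if_neg (by omega), neg_zero]
      have e2 : mu S s o - 1 + 1 = mu S s o := by omega
      have e3 : ((mu S s o - 1 : ℕ) : F) + 1 = (mu S s o : F) := by
        rw [← Nat.cast_add_one, e2]
      rw [e1, e2, e3, zero_sub, neg_ne_zero]
      exact mul_ne_zero hlead (L.mu_cast_ne hs (by omega))
    have hne : derivative (X ^ (Fintype.card F) - X - ρ) ≠ 0 := by
      intro h0
      rw [h0, coeff_zero] at hcoeff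
      exact hcoeff rfl
    have h8 := mult_le (cls G s o v) (fun z => dt (G z - z • s) w) _ h4 hne
    have h9 : (derivative (X ^ (Fintype.card F) - X - ρ)).natDegree ≤ mu S s o - 1 := by
      rw [hder]
      refine (natDegree_sub_le _ _).trans (max_le (by simp) ?_)
      rw [← hdeg]
      exact natDegree_derivative_le _
    omega
  · omega

end Lift

end Pool.Agent.H229R2
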