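import Pool.Agent.H229R2.Struct2

set_option autoImplicit false
set_option linter.unusedSectionVars false
set_option linter.unusedVariables false

open Polynomial Finset

namespace Pool.Agent.H229R2

variable {F : Type*} [Field F] [Fintype F] [DecidableEq F]

/-- secant directions at `s` -/
def Sec (S : Finset (F × F)) (s : F × F) : Finset (Option F) :=
  univ.filter (fun o => 1 ≤ mu S s o)

/-- directions at `s` of lines with at least three points -/
def Big (S : Finset (F × F)) (s : F × F) : Finset (Option F) :=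
  univ.filter (fun o => 2 ≤ mu S s o)

/-- directions at `s` of lines with exactly two points -/
def Two (S : Finset (F × F)) (s : F × F) : Finset (Option F) :=
  univ.filter (fun o => mu S s o = 1)

/-- multiplicity of `d`. -/
def kk (G : F → F × F) (s d : F × F) : ℕ := ((ZZ F).filter (fun z => G z - z • s = d)).card

theorem mem_Sec {S : Finset (F × F)} {s : F × F} {o : Option F} : o ∈ Sec S s ↔ 1 ≤ mu S s o := by
  simp [Sec]

theorem mem_Big {S : Finset (F × F)} {s : F × F} {o : Option F} : o ∈ Big S s ↔ 2 ≤ mu S s o := by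
  simp [Big]

theorem mem_Two {S : Finset (F × F)} {s : F × F} {o : Option F} : o ∈ Two S s ↔ mu S s o = 1 := by
  simp [Two]

theorem Sec_eq (S : Finset (F × F)) (s : F × F) : Sec S s = Big S s ∪ Two S s := by
  ext o
  rw [mem_union, mem_Sec, mem_Big, mem_Two]
  omega

theorem disj (S : Finset (F × F)) (s : F × F) : Disjoint (Big S s) (Two S s) := by
  rw [Finset.disjoint_left]
  intro o h1 h2
  rw [mem_Big] at h1
  rw [mem_Two] at h2
  omega

theorem card_Sec_eq (S : Finset (F × F)) (s : F × F) :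
    (Sec S s).card = (Big S s).card + (Two S s).card := by
  rw [Sec_eq, card_union_of_disjoint (disj S s)]

theorem sum_Sec_eq (S : Finset (F × F)) (s : F × F) (f : Option F → ℕ) :
    ∑ o ∈ Sec S s, f o = ∑ o ∈ Big S s, f o + ∑ o ∈ Two S s, f o := by
  rw [Sec_eq, sum_union (disj S s)]

namespace Lift

variable {S : Finset (F × F)} {G : F → F × F} (L : Lift S G)

include L

theorem card_Sec {s : F × F} (hs : s ∈ S) :
    (Sec S s).card + (TS G s).card = Fintype.card F + 1 := L.card_sec hs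

theorem sum_Sec {s : F × F} (hs : s ∈ S) : ∑ o ∈ Sec S s, mu S s o = Fintype.card F :=
  L.sum_sec hs

theorem sum_Big_mu {s : F × F} (hs : s ∈ S) :
    ∑ o ∈ Big S s, mu S s o + (Two S s).card = Fintype.card F := by
  have h := L.sum_Sec hs
  rw [sum_Sec_eq] at h
  rw [← h]
  congr 1
  rw [Finset.card_eq_sum_ones]
  apply Finset.sum_congr rfl
  intro o ho
  rw [mem_Two.mp ho]

/-- every point of `S` is determined. -/
theorem exists_pair (NT : ∀ s ∈ S, ∀ o, mu S s o + 2 ≤ Fintype.card F) {s : F × F}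
    (hs : s ∈ S) : HasPair G s (ZZ F) := by
  by_contra hnp
  have hinj : ∀ s1 : F × F, ¬ HasPair G s1 (ZZ F) → (TS G s1).card = Fintype.card F - 1 := by
    intro s1 h1
    unfold TS
    rw [Finset.card_image_of_injOn, card_ZZ]
    intro z hz z' hz' he
    by_contra hne
    exact h1 ⟨z, hz, z', hz', hne, he⟩
  have hinj' : ∀ s1 : F × F, (TS G s1).card = Fintype.card F - 1 → ¬ HasPair G s1 (ZZ F) := by
    rintro s1 h1 ⟨z, hz, z', hz', hne, he⟩
    have h2 : Set.InjOn (fun z => G z - z • s1) (ZZ F : Set F) := by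
      apply Finset.card_image_iff.mp
      rw [card_ZZ]
      exact h1
    exact hne (h2 hz hz' he)
  have hT := hinj s hnp
  have hsec := L.card_Sec hs
  have hq : 1 < Fintype.card F := Fintype.one_lt_card
  have hsum := L.sum_Sec hs
  have hcard2 : (Sec S s).card = 2 := by omega
  obtain ⟨o1, o2, hne, hS2⟩ := Finset.card_eq_two.mp hcard2
  rw [hS2, Finset.sum_pair hne] at hsum
  have n1 := NT s hs o1
  have n2 := NT s hs o2
  have hall : ∀ s' ∈ S, ¬ HasPair G s' (ZZ F) := by
    intro s' hs'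
    by_cases hss : s' = s
    · rw [hss]; exact hnp
    · apply hinj'
      rw [← hT]
      set o := dir (s' - s) with ho
      have h0 : dt (s' - s) (bar o) = 0 := (dt_bar_eq_zero (sub_ne_zero.mpr hss) _).mpr rfl
      have h1 : 1 ≤ mu S s o := by
        rw [Nat.succ_le_iff]
        unfold mu
        rw [card_pos]
        exact ⟨s', mem_filter.mpr ⟨mem_erase.mpr ⟨hss, hs'⟩, h0⟩⟩
      have h2 : o ∈ Sec S s := mem_Sec.mpr h1
      rw [hS2, mem_insert, mem_singleton] at h2
      have h3 : 2 ≤ mu S s o := by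
        rcases h2 with h2 | h2 <;> rw [h2] <;> omega
      exact L.TS_const hs h3 (mem_Se.mpr ⟨hs', h0⟩)
  have h4 : 1 < (ZZ F).card := by rw [card_ZZ]; omega
  obtain ⟨z, hz, z', hz', hzz⟩ := Finset.one_lt_card.mp h4
  obtain ⟨s', hs', he⟩ := L.h3 z z' (mem_ZZ.mp hz) (mem_ZZ.mp hz') hzz
  exact hall s' hs' ⟨z, hz, z', hz', hzz, L.pair_iff.mpr he⟩

/-- at least two lines with at least three points pass through each point of `S`. -/
theorem two_le_Big (NT : ∀ s ∈ S, ∀ o, mu S s o + 2 ≤ Fintype.card F) {s : F × F}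
    (hs : s ∈ S) : 2 ≤ (Big S s).card := by
  by_contra hlt
  have h1 : (Big S s).card ≤ 1 := by omega
  obtain ⟨o1, ho1⟩ : ∃ o1 : Option F, ∀ o, 2 ≤ mu S s o → o = o1 := by
    rcases Finset.card_le_one_iff_subset_singleton.mp h1 with ⟨o1, ho1⟩
    exact ⟨o1, fun o ho => mem_singleton.mp (ho1 (mem_Big.mpr ho))⟩
  obtain ⟨z, hz, z', hz', hne, he⟩ := L.exists_pair NT hs
  rw [mem_ZZ] at hz hz'
  have hcon : ∀ z1, z1 ≠ 0 → dt (G z1 - z1 • s) (bar o1) = dt (G z - z • s) (bar o1) := by
    intro z1 hz1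
    by_cases hd : G z1 - z1 • s = G z - z • s
    · rw [hd]
    · have hd' : G z1 - z1 • s - (G z - z • s) ≠ 0 := sub_ne_zero.mpr hd
      set o := dir (G z1 - z1 • s - (G z - z • s)) with ho
      have h0 : dt (G z1 - z1 • s - (G z - z • s)) (bar o) = 0 :=
        (dt_bar_eq_zero hd' _).mpr rfl
      have h0' : dt (G z1 - z1 • s) (bar o) = dt (G z - z • s) (bar o) := by
        rw [dt_sub_left, sub_eq_zero] at h0; exact h0
      have hzz : z1 ≠ z := by rintro rfl; exact hd rfl
      obtain ⟨s', hs', h2, h3⟩ := L.class_pair hz1 hz hzz h0'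
      have hs's : s' ≠ s := by
        rintro rfl
        exact hd (L.pair_iff.mpr h3)
      have hmu : 1 ≤ mu S s o := by
        rw [Nat.succ_le_iff]
        unfold mu
        rw [card_pos]
        exact ⟨s', mem_filter.mpr ⟨mem_erase.mpr ⟨hs's, hs'⟩, h2⟩⟩
      have h4 := L.tight hs hz hz' hne he hmu
      have h5 : 1 < (TT G s o (dt (G z - z • s) (bar o))).card := by
        rw [Finset.one_lt_card]
        refine ⟨G z1 - z1 • s, mem_TT.mpr ⟨mem_image_of_mem (fun z => G z - z • s) (mem_ZZ.mpr hz1), h0'⟩,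
          G z - z • s, mem_TT.mpr ⟨mem_image_of_mem (fun z => G z - z • s) (mem_ZZ.mpr hz), rfl⟩, hd⟩
      have h6 : o = o1 := ho1 o (by omega)
      rw [← h6]; exact h0'
  have hcard := Se_card hs o1
  have hn := NT s hs o1
  obtain ⟨s', hs', hs'2⟩ : ∃ s' ∈ S, s' ∉ Se S s o1 := by
    by_contra hall
    push Not at hall
    have h7 : S ⊆ Se S s o1 := fun x hx => hall x hx
    have h8 := card_le_card h7
    rw [L.h1, hcard] at h8
    omega
  obtain ⟨z1, hz1, z2, hz2, hne', he'⟩ := L.exists_pair NT hs'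
  rw [mem_ZZ] at hz1 hz2
  obtain ⟨s'', hs'', h9, h10⟩ := L.class_pair hz1 hz2 hne' (s := s) (w := bar o1)
    ((hcon z1 hz1).trans (hcon z2 hz2).symm)
  have h11 : s' = s'' := L.uniq hne' (L.pair_iff.mp he') h10
  apply hs'2
  rw [mem_Se, h11]
  exact ⟨hs'', h9⟩

theorem fiber_sub_cls (s d : F × F) (o : Option F) :
    (ZZ F).filter (fun z => G z - z • s = d) ⊆ cls G s o (dt d (bar o)) := by
  intro z hz
  rw [mem_filter] at hz
  rw [mem_cls]
  exact ⟨mem_ZZ.mp hz.1, by rw [hz.2]⟩

theorem kk_le_cls (s d : F × F) (o : Option F) : kk G s d ≤ (cls G s o (dt d (bar o))).card :=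
  card_le_card (L.fiber_sub_cls s d o)

/-- the other lifted points seen from the line over `d`. -/
theorem sum_cls_point {s : F × F} (hs : s ∈ S) {d : F × F} (hd : d ∈ TS G s) :
    ∑ o ∈ Sec S s, ((cls G s o (dt d (bar o))).card - kk G s d)
      = Fintype.card F - 1 - kk G s d := by
  have h1 : Fintype.card F - 1 - kk G s d
      = ((ZZ F).filter (fun z => ¬ G z - z • s = d)).card := by
    unfold kk
    rw [← card_ZZ, ← Finset.card_filter_add_card_filter_not (s := ZZ F) (fun z => G z - z • s = d)]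
    omega
  rw [h1, Finset.card_eq_sum_card_fiberwise (f := fun z => dir (G z - z • s - d)) (t := Sec S s)]
  · apply Finset.sum_congr rfl
    intro o _
    unfold kk
    rw [← card_sdiff_of_subset (L.fiber_sub_cls s d o)]
    congr 1
    ext z
    simp only [mem_sdiff, mem_filter, mem_cls, mem_ZZ]
    constructor
    · rintro ⟨⟨h1, h2⟩, h3⟩
      have h4 : ¬ G z - z • s = d := fun h5 => h3 ⟨h1, h5⟩
      refine ⟨⟨h1, h4⟩, ?_⟩
      symm
      rw [← dt_bar_eq_zero (sub_ne_zero.mpr h4), dt_sub_left, h2, sub_self]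
    · rintro ⟨⟨h1, h2⟩, h3⟩
      refine ⟨⟨h1, ?_⟩, fun h5 => h2 h5.2⟩
      have h4 := h3.symm
      rw [← dt_bar_eq_zero (sub_ne_zero.mpr h2), dt_sub_left, sub_eq_zero] at h4
      exact h4
  · intro z1 hz1
    rw [mem_coe, mem_filter, mem_ZZ] at hz1
    rw [mem_coe, mem_Sec]
    obtain ⟨z, hz, e⟩ := mem_image.mp hd
    have hne : G z1 - z1 • s - d ≠ 0 := sub_ne_zero.mpr hz1.2
    have hzz : z1 ≠ z := by
      rintro rfl
      exact hz1.2 e
    have h5 : dt (G z1 - z1 • s - d) (bar (dir (G z1 - z1 • s - d))) = 0 :=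
      (dt_bar_eq_zero hne _).mpr rfl
    obtain ⟨s', hs', h1, h2⟩ := L.class_pair hz1.1 (mem_ZZ.mp hz) hzz
      (s := s) (w := bar (dir (G z1 - z1 • s - d))) (by
        rw [e, ← sub_eq_zero, ← dt_sub_left, h5])
    have hs's : s' ≠ s := by
      rintro rfl
      have := L.pair_iff.mpr h2
      rw [e] at this
      exact hz1.2 this
    rw [Nat.succ_le_iff]
    unfold mu
    rw [card_pos]
    exact ⟨s', mem_filter.mpr ⟨mem_erase.mpr ⟨hs's, hs'⟩, h1⟩⟩

theorem pair_of_kk {s d : F × F} (hk : 2 ≤ kk G s d) :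
    ∃ z z', z ≠ 0 ∧ z' ≠ 0 ∧ z ≠ z' ∧ G z - z • s = d ∧ G z' - z' • s = d := by
  have hk' : 1 < ((ZZ F).filter (fun z => G z - z • s = d)).card := hk
  obtain ⟨z, hz, z', hz', hne⟩ := Finset.one_lt_card.mp hk'
  rw [mem_filter, mem_ZZ] at hz hz'
  exact ⟨z, z', hz.1, hz'.1, hne, hz.2, hz'.2⟩

theorem cls_two {s : F × F} (hs : s ∈ S) {d : F × F} (hk : 2 ≤ kk G s d) {o : Option F}
    (ho : mu S s o = 1) : (cls G s o (dt d (bar o))).card = kk G s d := by
  obtain ⟨z, z', hz, hz', hne, he, he'⟩ := L.pair_of_kk hk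
  have h1 := L.tight hs hz hz' hne (he.trans he'.symm) (o := o) (by omega)
  rw [ho, he, card_eq_one] at h1
  obtain ⟨d0, hd0⟩ := h1
  apply le_antisymm
  · unfold kk
    apply card_le_card
    intro z1 hz1
    rw [mem_cls] at hz1
    rw [mem_filter, mem_ZZ]
    refine ⟨hz1.1, ?_⟩
    have m1 : G z1 - z1 • s ∈ TT G s o (dt d (bar o)) :=
      mem_TT.mpr ⟨mem_image_of_mem (fun z => G z - z • s) (mem_ZZ.mpr hz1.1), hz1.2⟩
    have m2 : d ∈ TT G s o (dt d (bar o)) :=
      mem_TT.mpr ⟨by rw [← he]; exact mem_image_of_mem (fun z => G z - z • s) (mem_ZZ.mpr hz), rfl⟩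
    rw [hd0, mem_singleton] at m1 m2
    rw [m1, m2]
  · exact L.kk_le_cls s d o

theorem mem_TS_of_kk {s d : F × F} (hk : 2 ≤ kk G s d) : d ∈ TS G s := by
  obtain ⟨z, z', hz, hz', hne, he, he'⟩ := L.pair_of_kk hk
  rw [← he]
  exact mem_image_of_mem (fun z => G z - z • s) (mem_ZZ.mpr hz)

/-- The basic inequality `q + (g - 1) (k - 1) ≤ 2 t`. -/
theorem T5 {s : F × F} (hs : s ∈ S) {d : F × F} (hk : 2 ≤ kk G s d)
    (hg : 1 ≤ (Big S s).card) :
    Fintype.card F + ((Big S s).card - 1) * (kk G s d - 1) ≤ 2 * (TS G s).card := by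
  have h1 := L.sum_cls_point hs (L.mem_TS_of_kk hk)
  rw [sum_Sec_eq] at h1
  have h2 : ∑ o ∈ Two S s, ((cls G s o (dt d (bar o))).card - kk G s d) = 0 := by
    apply Finset.sum_eq_zero
    intro o ho
    rw [L.cls_two hs hk (mem_Two.mp ho), Nat.sub_self]
  rw [h2, add_zero] at h1
  have h3 : ∑ o ∈ Big S s, ((cls G s o (dt d (bar o))).card - kk G s d)
      + (Big S s).card * kk G s d + (Big S s).card ≤ 2 * ∑ o ∈ Big S s, mu S s o := by
    rw [Finset.mul_sum, Finset.card_eq_sum_ones, Finset.sum_mul, ← Finset.sum_add_distrib,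
      ← Finset.sum_add_distrib]
    apply Finset.sum_le_sum
    intro o ho
    rw [mem_Big] at ho
    have a1 := L.cls_le hs ho (dt d (bar o))
    have a2 := L.kk_le_cls s d o
    omega
  have h4 := L.sum_Big_mu hs
  have h5 := L.card_Sec hs
  rw [card_Sec_eq] at h5
  have h6 : kk G s d ≤ Fintype.card F - 1 := by
    rw [← card_ZZ]; unfold kk; exact card_filter_le _ _
  obtain ⟨g, hg'⟩ : ∃ g, (Big S s).card = g + 1 := ⟨(Big S s).card - 1, by omega⟩
  obtain ⟨k, hk'⟩ : ∃ k, kk G s d = k + 1 := ⟨kk G s d - 1, by omega⟩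
  rw [h1] at h3
  rw [hg', hk'] at h3
  rw [hg'] at h5
  rw [hk'] at h6
  rw [hg', hk']
  simp only [Nat.add_sub_cancel]
  have h7 : (g + 1) * (k + 1) = g * k + g + k + 1 := by ring
  rw [h7] at h3
  omega

theorem exists_kk (NT : ∀ s ∈ S, ∀ o, mu S s o + 2 ≤ Fintype.card F) {s : F × F}
    (hs : s ∈ S) : ∃ d, 2 ≤ kk G s d := by
  obtain ⟨z, hz, z', hz', hne, he⟩ := L.exists_pair NT hs
  refine ⟨G z - z • s, ?_⟩
  unfold kk
  apply Nat.succ_le_of_lt
  rw [Finset.one_lt_card]
  exact ⟨z, mem_filter.mpr ⟨hz, rfl⟩, z', mem_filter.mpr ⟨hz', he.symm⟩, hne⟩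

theorem q_lt_two_t (NT : ∀ s ∈ S, ∀ o, mu S s o + 2 ≤ Fintype.card F) {s : F × F}
    (hs : s ∈ S) : Fintype.card F + 1 ≤ 2 * (TS G s).card := by
  obtain ⟨d, hd⟩ := L.exists_kk NT hs
  have hg := L.two_le_Big NT hs
  have h1 := L.T5 hs hd (by omega)
  have h2 : 1 ≤ ((Big S s).card - 1) * (kk G s d - 1) :=
    Nat.mul_pos (by omega) (by omega)
  omega

theorem t_lt (NT : ∀ s ∈ S, ∀ o, mu S s o + 2 ≤ Fintype.card F) {s : F × F}
    (hs : s ∈ S) : (TS G s).card + 2 ≤ Fintype.card F := by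
  have h1 := L.TS_card_le (s := s)
  have h2 : (TS G s).card ≠ Fintype.card F - 1 := by
    intro h
    obtain ⟨z, hz, z', hz', hne, he⟩ := L.exists_pair NT hs
    have h2 : Set.InjOn (fun z => G z - z • s) (ZZ F : Set F) := by
      apply Finset.card_image_iff.mp
      rw [card_ZZ]
      exact h
    exact hne (h2 hz hz' he)
  have hq : 1 < Fintype.card F := Fintype.one_lt_card
  omega

/-- `|TS|` does not depend on the point. -/
theorem t_const (NT : ∀ s ∈ S, ∀ o, mu S s o + 2 ≤ Fintype.card F) {s1 s2 : F × F}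
    (hs1 : s1 ∈ S) (hs2 : s2 ∈ S) : (TS G s1).card = (TS G s2).card := by
  by_contra hne
  have key : ∀ s ∈ S, (S.filter (fun s' => (TS G s').card ≠ (TS G s).card)).card
      ≤ (Two S s).card := by
    intro s hs
    apply Finset.card_le_card_of_injOn (fun s' => dir (s' - s))
    · intro s' hs'
      rw [mem_coe, mem_filter] at hs'
      rw [mem_coe, mem_Two]
      have hss : s' ≠ s := by rintro rfl; exact hs'.2 rfl
      have h0 : dt (s' - s) (bar (dir (s' - s))) = 0 := (dt_bar_eq_zero (sub_ne_zero.mpr hss) _).mpr rfl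
      have h1 : 1 ≤ mu S s (dir (s' - s)) := by
        rw [Nat.succ_le_iff]
        unfold mu
        rw [card_pos]
        exact ⟨s', mem_filter.mpr ⟨mem_erase.mpr ⟨hss, hs'.1⟩, h0⟩⟩
      by_contra h2
      have h2' : ¬ mu S s (dir (s' - s)) = 1 := h2
      have h3 : 2 ≤ mu S s (dir (s' - s)) := by omega
      exact hs'.2 (L.TS_const hs h3 (mem_Se.mpr ⟨hs'.1, h0⟩))
    · intro a ha b hb hab
      rw [mem_coe, mem_filter] at ha hb
      simp only at hab
      have hsa : a ≠ s := by rintro rfl; exact ha.2 rfl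
      have hsb : b ≠ s := by rintro rfl; exact hb.2 rfl
      have h0 : dt (a - s) (bar (dir (a - s))) = 0 := (dt_bar_eq_zero (sub_ne_zero.mpr hsa) _).mpr rfl
      have h0' : dt (b - s) (bar (dir (a - s))) = 0 :=
        (dt_bar_eq_zero (sub_ne_zero.mpr hsb) _).mpr hab
      by_contra hne'
      have h1 : 1 < mu S s (dir (a - s)) := by
        unfold mu
        rw [Finset.one_lt_card]
        exact ⟨a, mem_filter.mpr ⟨mem_erase.mpr ⟨hsa, ha.1⟩, h0⟩, b,
          mem_filter.mpr ⟨mem_erase.mpr ⟨hsb, hb.1⟩, h0'⟩, hne'⟩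
      exact ha.2 (L.TS_const hs h1 (mem_Se.mpr ⟨ha.1, h0⟩))
  have h1 := key s1 hs1
  have h2 := key s2 hs2
  have h3 : S.card ≤ (S.filter (fun s' => (TS G s').card ≠ (TS G s1).card)).card
      + (S.filter (fun s' => (TS G s').card ≠ (TS G s2).card)).card := by
    rw [← card_union_add_card_inter]
    refine le_trans ?_ (Nat.le_add_right _ _)
    apply card_le_card
    intro s hs
    rw [mem_union, mem_filter, mem_filter]
    by_cases h : (TS G s).card = (TS G s1).card
    · right
      exact ⟨hs, by rw [h]; exact hne⟩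
    · left
      exact ⟨hs, h⟩
  rw [L.h1] at h3
  have a1 := L.card_Sec hs1
  have a2 := L.card_Sec hs2
  rw [card_Sec_eq] at a1 a2
  have b1 := L.two_le_Big NT hs1
  have b2 := L.two_le_Big NT hs2
  have c1 := L.q_lt_two_t NT hs1
  have c2 := L.q_lt_two_t NT hs2
  omega

theorem inj_tangent {s : F × F} (hs : s ∈ S) {w : F × F} (hw : w ≠ 0)
    (hmu : mu S s (dir w) = 0) : Set.InjOn (fun d => dt d w) (TS G s : Set (F × F)) := by
  intro d hd d' hd' heq
  simp only [TS, coe_image, Set.mem_image, mem_coe] at hd hd'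
  obtain ⟨z, hz, h1⟩ := hd
  obtain ⟨z', hz', h2⟩ := hd'
  by_cases hzz : z = z'
  · rw [← h1, ← h2, hzz]
  · simp only at heq
    obtain ⟨s', hs', h3, h4⟩ := L.class_pair (mem_ZZ.mp hz) (mem_ZZ.mp hz') hzz
      (s := s) (w := w) (by rw [h1, h2, heq])
    have : s' = s := by
      by_contra hne
      unfold mu at hmu
      rw [card_eq_zero, filter_eq_empty_iff] at hmu
      exact hmu (mem_erase.mpr ⟨hne, hs'⟩) ((dt_dir hw).mpr h3)
    subst this
    rw [← h1, ← h2]
    exact L.pair_iff.mpr h4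

theorem not_inj_sec (NT : ∀ s ∈ S, ∀ o, mu S s o + 2 ≤ Fintype.card F) {s : F × F} (hs : s ∈ S)
    {o : Option F} (hmu : 1 ≤ mu S s o) :
    ¬ Set.InjOn (fun d => dt d (bar o)) (TS G s : Set (F × F)) := by
  intro hinj
  obtain ⟨s', hs'⟩ := card_pos.mp (Nat.lt_of_lt_of_le Nat.zero_lt_one hmu)
  rw [mem_filter, mem_erase] at hs'
  obtain ⟨z1, hz1, z2, hz2, hne, he⟩ := L.exists_pair NT hs'.1.2
  have h1 := L.pair_iff.mp he
  have h2 : (G z1 - z1 • s) - (G z2 - z2 • s) = (z1 - z2) • (s' - s) := by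
    rw [smul_sub, ← h1, sub_smul]; abel
  have h3 : G z1 - z1 • s = G z2 - z2 • s := by
    apply hinj (mem_image_of_mem (fun z => G z - z • s) hz1)
      (mem_image_of_mem (fun z => G z - z • s) hz2)
    simp only
    rw [← sub_eq_zero, ← dt_sub_left, h2, dt_smul_left, hs'.2, mul_zero]
  rw [h3, sub_self] at h2
  rcases smul_eq_zero.mp h2.symm with h4 | h4
  · exact hne (sub_eq_zero.mp h4)
  · exact hs'.1.1 (sub_eq_zero.mp h4)

theorem dir_pencil_ne {o o0 : Option F} (h : o ≠ o0) (Y : F) :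
    bar o + Y • bar o0 ≠ 0 ∧ dir (bar o + Y • bar o0) ≠ o0 := by
  have h1 : dt (bar o + Y • bar o0) (bar o0) ≠ 0 := by
    rw [dt_add_left, dt_smul_left, dt_self, mul_zero, add_zero]
    exact dt_bar_bar h
  have h2 : bar o + Y • bar o0 ≠ 0 := by
    intro h0; rw [h0] at h1; simp at h1
  refine ⟨h2, ?_⟩
  intro h3
  apply h1
  rw [dt_bar_eq_zero h2, h3]

theorem dir_pencil_inj {o o0 : Option F} (h : o ≠ o0) :
    Function.Injective (fun Y : F => dir (bar o + Y • bar o0)) := by
  intro Y Y' heq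
  simp only at heq
  have h1 := (L.dir_pencil_ne h Y).1
  have h2 := (L.dir_pencil_ne h Y').1
  have h3 : dt (bar o + Y' • bar o0) (bar (dir (bar o + Y • bar o0))) = 0 :=
    (dt_bar_eq_zero h2 _).mpr heq
  rw [dt_dir h1] at h3
  have h4 : (Y' - Y) * dt (bar o0) (bar o) = 0 := by
    rw [dt_add_left, dt_add_right, dt_add_right, dt_smul_left, dt_smul_left, dt_smul_right,
      dt_smul_right, dt_self, dt_self, dt_swap (bar o) (bar o0)] at h3
    linear_combination h3
  rcases mul_eq_zero.mp h4 with h5 | h5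
  · exact (sub_eq_zero.mp h5).symm
  · exact absurd h5 (dt_bar_bar (Ne.symm h))

/-- number of secant members of a pencil with secant pole. -/
theorem card_B {s : F × F} (hs : s ∈ S) {o o0 : Option F} (hne : o ≠ o0) (ho0 : o0 ∈ Sec S s) :
    ((univ : Finset F).filter (fun Y => dir (bar o + Y • bar o0) ∈ Sec S s)).card
      = Fintype.card F - (TS G s).card := by
  have h1 := L.card_Sec hs
  have h3 : ((univ : Finset F).filter (fun Y => dir (bar o + Y • bar o0) ∈ Sec S s)).card
      = ((Sec S s).erase o0).card := by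
    apply Finset.card_bij (fun Y _ => dir (bar o + Y • bar o0))
    · intro Y hY
      rw [mem_filter] at hY
      exact mem_erase.mpr ⟨(L.dir_pencil_ne hne Y).2, hY.2⟩
    · intro a _ b _ hab
      exact L.dir_pencil_inj hne hab
    · intro o' ho'
      rw [mem_erase] at ho'
      -- bar o' = a bar o + b bar o0
      have hd : dt (bar o) (bar o0) ≠ 0 := dt_bar_bar hne
      have hd' : dt (bar o') (bar o0) ≠ 0 := dt_bar_bar ho'.1
      have hd'' : dt (bar o0) (bar o') ≠ 0 := dt_bar_bar (Ne.symm ho'.1)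
      refine ⟨- dt (bar o) (bar o') / dt (bar o0) (bar o'), ?_, ?_⟩
      · rw [mem_filter]
        refine ⟨mem_univ _, ?_⟩
        have : dir (bar o + (- dt (bar o) (bar o') / dt (bar o0) (bar o')) • bar o0) = o' := by
          symm
          rw [← dt_bar_eq_zero (L.dir_pencil_ne hne _).1, dt_add_left, dt_smul_left]
          field_simp
          ring
        rw [this]; exact ho'.2
      · symm
        rw [← dt_bar_eq_zero (L.dir_pencil_ne hne _).1, dt_add_left, dt_smul_left]
        field_simp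
        ring
  rw [h3, card_erase_of_mem ho0]
  omega

/-- the number of values on a secant is at most `f + 1 = q - t`. -/
theorem VV_le (NT : ∀ s ∈ S, ∀ o, mu S s o + 2 ≤ Fintype.card F) {s : F × F} (hs : s ∈ S)
    {o : Option F} (hmu : 1 ≤ mu S s o) :
    (VV G s o).card + (TS G s).card ≤ Fintype.card F := by
  have hsec := L.card_Sec hs
  have hlt := L.t_lt NT hs
  have hcard : 0 < ((Sec S s).erase o).card := by
    rw [card_erase_of_mem (mem_Sec.mpr hmu)]
    omega
  obtain ⟨o0, ho0⟩ := card_pos.mp hcard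
  rw [mem_erase] at ho0
  have hB := L.card_B hs (Ne.symm ho0.1) ho0.2
  obtain ⟨ρ, h1, h2, h3⟩ := core (TS G s) (fun d => dt d (bar o)) (fun d => dt d (bar o0))
    ((univ : Finset F).filter (fun Y => dir (bar o + Y • bar o0) ∈ Sec S s)) (by omega)
    (by
      intro Y hY
      rw [mem_filter, mem_Sec] at hY
      have h4 : mu S s (dir (bar o + Y • bar o0)) = 0 := by
        by_contra h5
        exact hY ⟨mem_univ _, by omega⟩
      have h6 := L.inj_tangent hs (L.dir_pencil_ne (Ne.symm ho0.1) Y).1 h4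
      intro a ha b hb hab
      apply h6 ha hb
      simp only [dt_add_right, dt_smul_right] at hab ⊢
      linear_combination hab)
    (L.not_inj_sec NT hs hmu)
  have h7 := card_image_le_of_root _ _ ρ h1 h3
  rw [VV_eq]
  omega

end Lift

end Pool.Agent.H229R2
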