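import Pool.Agent.H229R2.Struct3

set_option autoImplicit false
set_option linter.unusedSectionVars false
set_option linter.unusedVariables false

open Polynomial Finset

namespace Pool.Agent.H229R2

variable {F : Type*} [Field F] [Fintype F] [DecidableEq F]

theorem sum_ZZ_id (hq : 3 ≤ Fintype.card F) : ∑ z ∈ ZZ F, z = 0 := by
  have h := FiniteField.sum_pow_lt_card_sub_one F 1 (by omega)
  simp only [pow_one] at h
  unfold ZZ
  exact (Finset.sum_erase (f := fun z : F => z) (a := 0) univ rfl).trans h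

namespace Lift

variable {S : Finset (F × F)} {G : F → F × F} (L : Lift S G)

include L

/-- every line through a nucleus has a point of `S`. -/
theorem line_point {z : F} (hz : z ≠ 0) {w : F × F} (hw : w ≠ 0) :
    ∃ s ∈ S, dt (G z - z • s) w = 0 := by
  have hinj : Set.InjOn (fun s => dir (G z - z • s)) (S : Set (F × F)) := by
    intro a ha b hb hab
    have h1 := L.h2 a ha z hz
    have h2 := L.h2 b hb z hz
    exact L.h4 z hz _ (bar_ne_zero (dir (G z - z • a))) a ha b hb
      ((dt_bar_eq_zero h1 _).mpr rfl) ((dt_bar_eq_zero h2 _).mpr hab)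
  have himg : S.image (fun s => dir (G z - z • s)) = univ := by
    apply Finset.eq_univ_of_card
    rw [Finset.card_image_of_injOn hinj, L.h1, Fintype.card_option]
  have hmem : dir w ∈ S.image (fun s => dir (G z - z • s)) := by rw [himg]; exact mem_univ _
  obtain ⟨s, hs, he⟩ := mem_image.mp hmem
  refine ⟨s, hs, ?_⟩
  rw [← dt_dir hw, dt_bar_eq_zero (L.h2 s hs z hz)]
  exact he.symm

theorem sum_ext (hq : 3 ≤ Fintype.card F) {w : F × F} (hw : w ≠ 0) {c : F}
    (hext : ∀ s ∈ S, dt s w ≠ c) : ∑ z ∈ ZZ F, dt (G z) w = 0 := by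
  have hinj : Set.InjOn (fun z => dt (G z) w - c * z) (ZZ F : Set F) := by
    intro z hz z' hz' he
    by_contra hne
    obtain ⟨s, hs, h1⟩ := L.h3 z z' (mem_ZZ.mp hz) (mem_ZZ.mp hz') hne
    simp only at he
    have h2 : (z - z') * (dt s w - c) = 0 := by
      rw [mul_sub, ← dt_smul_left, ← h1, dt_sub_left]
      linear_combination he
    rcases mul_eq_zero.mp h2 with h3 | h3
    · exact hne (sub_eq_zero.mp h3)
    · exact hext s hs (sub_eq_zero.mp h3)
  have himg : (ZZ F).image (fun z => dt (G z) w - c * z) = ZZ F := by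
    apply Finset.eq_of_subset_of_card_le
    · intro x hx
      obtain ⟨z, hz, rfl⟩ := mem_image.mp hx
      rw [mem_ZZ] at hz ⊢
      intro h0
      obtain ⟨s, hs, h1⟩ := L.line_point hz hw
      rw [dt_sub_left, dt_smul_left] at h1
      have h2 : z * (dt s w - c) = 0 := by linear_combination h0 - h1
      rcases mul_eq_zero.mp h2 with h3 | h3
      · exact hz h3
      · exact hext s hs (sub_eq_zero.mp h3)
    · rw [Finset.card_image_of_injOn hinj]
  have h1 : ∑ x ∈ (ZZ F).image (fun z => dt (G z) w - c * z), x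
      = ∑ z ∈ ZZ F, (dt (G z) w - c * z) := Finset.sum_image hinj
  rw [himg, sum_ZZ_id hq, Finset.sum_sub_distrib, ← Finset.mul_sum, sum_ZZ_id hq] at h1
  linear_combination -h1

theorem two_ext (NT : ∀ s ∈ S, ∀ o, mu S s o + 2 ≤ Fintype.card F) {s : F × F} (hs : s ∈ S)
    {o : Option F} (ho : 2 ≤ mu S s o) :
    ∃ o1 o2 : Option F, o1 ≠ o2 ∧ ∃ c1 c2 : F, (∀ s ∈ S, dt s (bar o1) ≠ c1) ∧
      (∀ s ∈ S, dt s (bar o2) ≠ c2) := by
  have hn := NT s hs o
  obtain ⟨a, ha⟩ : ∃ a : F, s + a • bar o ∉ S := by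
    by_contra hall
    push Not at hall
    have h1 : Fintype.card F ≤ (Se S s o).card := by
      rw [← card_univ]
      apply Finset.card_le_card_of_injOn (fun a : F => s + a • bar o)
      · intro a _
        rw [mem_coe, mem_Se]
        refine ⟨hall a, ?_⟩
        rw [add_sub_cancel_left, dt_smul_left, dt_self, mul_zero]
      · intro a _ b _ hab
        simp only [add_right_inj] at hab
        exact smul_left_injective F (bar_ne_zero o) hab
    rw [Se_card hs] at h1
    omega
  set P := s + a • bar o with hP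
  have hsP : ∀ s' ∈ S, s' - P ≠ 0 := by
    intro s' hs' h0
    rw [sub_eq_zero] at h0
    exact ha (h0 ▸ hs')
  have himg : S.image (fun s' => dir (s' - P)) ⊆ insert o ((S \ Se S s o).image (fun s' => dir (s' - P))) := by
    intro x hx
    obtain ⟨s', hs', rfl⟩ := mem_image.mp hx
    by_cases h : s' ∈ Se S s o
    · rw [mem_insert]
      left
      symm
      rw [← dt_bar_eq_zero (hsP s' hs')]
      have : s' - P = (s' - s) - a • bar o := by rw [hP]; abel
      rw [this, dt_sub_left, (mem_Se.mp h).2, dt_smul_left, dt_self, mul_zero, sub_zero]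
    · rw [mem_insert]
      right
      exact mem_image_of_mem (fun s' => dir (s' - P)) (mem_sdiff.mpr ⟨hs', h⟩)
  have hSe : Se S s o ⊆ S := fun x hx => (mem_Se.mp hx).1
  have hc1 : (S.image (fun s' => dir (s' - P))).card ≤ Fintype.card F - 1 := by
    refine (card_le_card himg).trans ((card_insert_le _ _).trans ?_)
    have h2 : ((S \ Se S s o).image (fun s' => dir (s' - P))).card ≤ (S \ Se S s o).card :=
      card_image_le
    rw [card_sdiff_of_subset hSe, Se_card hs, L.h1] at h2
    omega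
  have hc2 : 1 < (univ \ S.image (fun s' => dir (s' - P))).card := by
    rw [card_sdiff_of_subset (subset_univ _), card_univ, Fintype.card_option]
    omega
  obtain ⟨o1, ho1, o2, ho2, hne⟩ := Finset.one_lt_card.mp hc2
  have key : ∀ o' : Option F, o' ∈ univ \ S.image (fun s' => dir (s' - P)) →
      ∀ s' ∈ S, dt s' (bar o') ≠ dt P (bar o') := by
    intro o' ho' s' hs' h0
    rw [mem_sdiff] at ho'
    apply ho'.2
    refine mem_image.mpr ⟨s', hs', ?_⟩
    symm
    rw [← dt_bar_eq_zero (hsP s' hs'), dt_sub_left, h0, sub_self]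
  exact ⟨o1, o2, hne, dt P (bar o1), dt P (bar o2), key o1 ho1, key o2 ho2⟩

theorem nonempty : ∃ s, s ∈ S := by
  have : 0 < S.card := by rw [L.h1]; omega
  exact card_pos.mp this

theorem sum_G (NT : ∀ s ∈ S, ∀ o, mu S s o + 2 ≤ Fintype.card F) : ∑ z ∈ ZZ F, G z = 0 := by
  obtain ⟨s, hs⟩ := L.nonempty
  have hB := L.two_le_Big NT hs
  obtain ⟨o, ho⟩ := card_pos.mp (by omega : 0 < (Big S s).card)
  rw [mem_Big] at ho
  have hn := NT s hs o
  obtain ⟨o1, o2, hne, c1, c2, h1, h2⟩ := L.two_ext NT hs ho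
  have e1 := L.sum_ext (by omega) (bar_ne_zero o1) h1
  have e2 := L.sum_ext (by omega) (bar_ne_zero o2) h2
  have key : ∀ w : F × F, dt (∑ z ∈ ZZ F, G z) w = ∑ z ∈ ZZ F, dt (G z) w := by
    intro w
    have : ∀ I : Finset F, dt (∑ z ∈ I, G z) w = ∑ z ∈ I, dt (G z) w := by
      intro I
      induction I using Finset.induction_on with
      | empty => simp
      | insert a I ha ih => rw [sum_insert ha, sum_insert ha, dt_add_left, ih]
    exact this _
  refine eq_of_dt_eq (dt_bar_bar hne) ?_ ?_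
  · rw [key, e1, dt_zero_left]
  · rw [key, e2, dt_zero_left]

theorem sum_vals (NT : ∀ s ∈ S, ∀ o, mu S s o + 2 ≤ Fintype.card F) (s w : F × F) :
    ∑ z ∈ ZZ F, dt (G z - z • s) w = 0 := by
  have hq : 3 ≤ Fintype.card F := by
    obtain ⟨s, hs⟩ := L.nonempty
    have hB := L.two_le_Big NT hs
    obtain ⟨o, ho⟩ := card_pos.mp (by omega : 0 < (Big S s).card)
    rw [mem_Big] at ho
    have hn := NT s hs o
    omega
  have h1 : ∀ I : Finset F, ∑ z ∈ I, dt (G z - z • s) w = dt (∑ z ∈ I, G z) w - (∑ z ∈ I, z) * dt s w := by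
    intro I
    induction I using Finset.induction_on with
    | empty => simp
    | insert a I ha ih =>
      rw [sum_insert ha, sum_insert ha, sum_insert ha, dt_add_left, ih, dt_sub_left, dt_smul_left]
      ring
  rw [h1, L.sum_G NT, sum_ZZ_id hq, dt_zero_left, zero_mul, sub_zero]

/-- directions of the differences in `TS`. -/
theorem dir_diff_Sec {s : F × F} (hs : s ∈ S) {d d' : F × F} (hd : d ∈ TS G s)
    (hd' : d' ∈ TS G s) (hne : d ≠ d') : dir (d - d') ∈ Sec S s := by
  obtain ⟨z1, hz1, e1⟩ := mem_image.mp hd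
  obtain ⟨z, hz, e⟩ := mem_image.mp hd'
  have hzz : z1 ≠ z := by
    rintro rfl
    exact hne (e1.symm.trans e)
  have hn : d - d' ≠ 0 := sub_ne_zero.mpr hne
  have h5 : dt (d - d') (bar (dir (d - d'))) = 0 := (dt_bar_eq_zero hn _).mpr rfl
  obtain ⟨s', hs', h1, h2⟩ := L.class_pair (mem_ZZ.mp hz1) (mem_ZZ.mp hz) hzz
    (s := s) (w := bar (dir (d - d'))) (by
      rw [e1, e, ← sub_eq_zero, ← dt_sub_left, h5])
  have hs's : s' ≠ s := by
    rintro rfl
    have := L.pair_iff.mpr h2
    rw [e1, e] at this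
    exact hne this
  rw [mem_Sec, Nat.succ_le_iff]
  unfold mu
  rw [card_pos]
  exact ⟨s', mem_filter.mpr ⟨mem_erase.mpr ⟨hs's, hs'⟩, h1⟩⟩

theorem fiber_card {s : F × F} (hs : s ∈ S) {d : F × F} (hk : 2 ≤ kk G s d) {o : Option F}
    (ho : o ∈ Sec S s) :
    (((TS G s).erase d).filter (fun d' => dir (d - d') = o)).card + 1 = mu S s o := by
  obtain ⟨z, z', hz, hz', hne, he, he'⟩ := L.pair_of_kk hk
  have h1 := L.tight hs hz hz' hne (he.trans he'.symm) (o := o) (mem_Sec.mp ho)
  rw [he] at h1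
  have hd := L.mem_TS_of_kk hk
  have hmem : d ∈ TT G s o (dt d (bar o)) := mem_TT.mpr ⟨hd, rfl⟩
  rw [← h1, ← Finset.card_erase_add_one hmem]
  congr 2
  ext d'
  simp only [mem_erase, mem_TT, mem_filter]
  constructor
  · rintro ⟨⟨h1, h2⟩, h3⟩
    refine ⟨h1, h2, ?_⟩
    have h4 := h3.symm
    rw [← dt_bar_eq_zero (sub_ne_zero.mpr (Ne.symm h1)), dt_sub_left, sub_eq_zero] at h4
    exact h4.symm
  · rintro ⟨h1, h2, h3⟩
    refine ⟨⟨h1, h2⟩, ?_⟩
    symm
    rw [← dt_bar_eq_zero (sub_ne_zero.mpr (Ne.symm h1)), dt_sub_left, h3, sub_self]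

theorem prod_diff {s : F × F} (hs : s ∈ S) {d : F × F} (hk : 2 ≤ kk G s d) (w : F × F) :
    (∏ d' ∈ (TS G s).erase d, dt (d - d') w) * ∏ o ∈ Sec S s, dt (bar o) w
      = (∏ d' ∈ (TS G s).erase d, cf (d - d')) * ∏ o ∈ Sec S s, dt (bar o) w ^ mu S s o := by
  have hd := L.mem_TS_of_kk hk
  have h1 : ∀ d' ∈ (TS G s).erase d, dt (d - d') w = cf (d - d') * dt (bar (dir (d - d'))) w :=
    fun d' _ => dt_cf_left _ _
  rw [Finset.prod_congr rfl h1, Finset.prod_mul_distrib, mul_assoc]
  congr 1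
  rw [← Finset.prod_fiberwise_of_maps_to (s := (TS G s).erase d) (t := Sec S s)
    (g := fun d' => dir (d - d')) (f := fun d' => dt (bar (dir (d - d'))) w)
    (fun d' hd' => L.dir_diff_Sec hs hd (mem_erase.mp hd').2 (Ne.symm (mem_erase.mp hd').1)),
    ← Finset.prod_mul_distrib]
  apply Finset.prod_congr rfl
  intro o ho
  have h2 : ∏ d' ∈ ((TS G s).erase d).filter (fun d' => dir (d - d') = o),
      dt (bar (dir (d - d'))) w
      = dt (bar o) w ^ (((TS G s).erase d).filter (fun d' => dir (d - d') = o)).card := by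
    rw [← Finset.prod_const]
    apply Finset.prod_congr rfl
    intro d' hd'
    rw [(mem_filter.mp hd').2]
  rw [h2, ← pow_succ, L.fiber_card hs hk ho]

omit L in
theorem prod_S {s : F × F} (hs : s ∈ S) (w : F × F) :
    ∏ s' ∈ S.erase s, dt (s' - s) w
      = (∏ s' ∈ S.erase s, cf (s' - s)) * ∏ o ∈ Sec S s, dt (bar o) w ^ mu S s o := by
  have h1 : ∀ s' ∈ S.erase s, dt (s' - s) w = cf (s' - s) * dt (bar (dir (s' - s))) w :=
    fun d' _ => dt_cf_left _ _
  rw [Finset.prod_congr rfl h1, Finset.prod_mul_distrib]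
  congr 1
  have hfib : ∀ o : Option F, (S.erase s).filter (fun s' => dir (s' - s) = o)
      = (S.erase s).filter (fun s' => dt (s' - s) (bar o) = 0) := by
    intro o
    apply Finset.filter_congr
    intro s' hs'
    rw [dt_bar_eq_zero (sub_ne_zero.mpr (mem_erase.mp hs').1)]
    exact eq_comm
  rw [← Finset.prod_fiberwise_of_maps_to (s := S.erase s) (t := Sec S s)
    (g := fun s' => dir (s' - s)) (f := fun s' => dt (bar (dir (s' - s))) w)]
  · apply Finset.prod_congr rfl
    intro o ho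
    have h2 : ∏ s' ∈ (S.erase s).filter (fun s' => dir (s' - s) = o),
        dt (bar (dir (s' - s))) w
        = dt (bar o) w ^ ((S.erase s).filter (fun s' => dir (s' - s) = o)).card := by
      rw [← Finset.prod_const]
      apply Finset.prod_congr rfl
      intro d' hd'
      rw [(mem_filter.mp hd').2]
    rw [h2, hfib]
    rfl
  · intro s' hs'
    rw [mem_Sec, Nat.succ_le_iff]
    unfold mu
    rw [card_pos]
    refine ⟨s', mem_filter.mpr ⟨hs', ?_⟩⟩
    exact (dt_bar_eq_zero (sub_ne_zero.mpr (mem_erase.mp hs').1) _).mpr rfl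

/-- Evaluation at the direction `d`. -/
theorem prod_at {s : F × F} (hs : s ∈ S) {d : F × F} (hd : d ∈ TS G s) :
    (∏ d' ∈ (TS G s).erase d, dt (d - d') d) * ∏ o ∈ Sec S s, dt (bar o) d
      = (-1) ^ (TS G s).card * ∏ d' ∈ TS G s, cf d' := by
  have h1 : ∀ d' ∈ (TS G s).erase d, dt (d - d') d = (-1) * cf d' * dt (bar (dir d')) d := by
    intro d' _
    rw [dt_sub_left, dt_self, dt_cf_left d']
    ring
  have h2 : (∏ d' ∈ (TS G s).erase d, dt (bar (dir d')) d) * ∏ o ∈ Sec S s, dt (bar o) d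
      = ∏ o' ∈ (univ : Finset (Option F)).erase (dir d), dt (bar o') d := by
    have h3 : ∏ d' ∈ (TS G s).erase d, dt (bar (dir d')) d
        = ∏ o ∈ ((TS G s).erase d).image dir, dt (bar o) d := by
      rw [Finset.prod_image]
      intro a ha b hb hab
      exact L.dir_injOn hs (mem_of_mem_erase ha) (mem_of_mem_erase hb) hab
    have hT := L.tangents hs
    have hdisj : Disjoint (((TS G s).erase d).image dir) (Sec S s) := by
      rw [Finset.disjoint_left]
      intro o ho ho2
      obtain ⟨d', hd', rfl⟩ := mem_image.mp ho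
      have := L.tangent_of hs (mem_of_mem_erase hd')
      rw [mem_Sec] at ho2
      omega
    rw [h3, ← Finset.prod_union hdisj]
    apply Finset.prod_congr _ (fun _ _ => rfl)
    ext o
    rw [mem_union, mem_erase]
    constructor
    · rintro (h | h)
      · obtain ⟨d', hd', rfl⟩ := mem_image.mp h
        rw [mem_erase] at hd'
        refine ⟨fun h4 => hd'.1 (L.dir_injOn hs hd'.2 hd h4), mem_univ _⟩
      · refine ⟨?_, mem_univ _⟩
        rintro rfl
        have := L.tangent_of hs hd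
        rw [mem_Sec] at h
        omega
    · rintro ⟨h, -⟩
      by_cases ho : 1 ≤ mu S s o
      · right; exact mem_Sec.mpr ho
      · left
        have h5 : o ∈ (univ : Finset (Option F)).filter (fun o => mu S s o = 0) := by
          rw [mem_filter]; exact ⟨mem_univ _, by omega⟩
        rw [hT] at h5
        obtain ⟨d', hd', rfl⟩ := mem_image.mp h5
        refine mem_image_of_mem dir (mem_erase.mpr ⟨?_, hd'⟩)
        rintro rfl
        exact h rfl
  rw [Finset.prod_congr rfl h1, Finset.prod_mul_distrib, mul_assoc, h2, prod_bar,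
    Finset.prod_mul_distrib, Finset.prod_const, ← Finset.mul_prod_erase (TS G s) cf hd,
    ← Finset.card_erase_add_one hd, pow_succ]
  ring

theorem stepH {s : F × F} (hs : s ∈ S) {d : F × F} (hk : 2 ≤ kk G s d) (w : F × F) :
    (∏ d' ∈ (TS G s).erase d, dt (d - d') w) * ∏ o ∈ Sec S s, dt (bar o) w
      = ((-1) ^ (TS G s).card * ∏ d' ∈ TS G s, cf d') * ∏ s' ∈ S.erase s, dt (s' - s) w := by
  have hd := L.mem_TS_of_kk hk
  obtain ⟨z, hz, he⟩ := mem_image.mp hd
  have h6 := L.h6 s hs z (mem_ZZ.mp hz)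
  rw [he] at h6
  have hB : (∏ s' ∈ S.erase s, cf (s' - s)) ≠ 0 := by
    rw [Finset.prod_ne_zero_iff]
    intro s' hs'
    exact cf_ne_zero (sub_ne_zero.mpr (mem_erase.mp hs').1)
  have e1 := L.prod_diff hs hk w
  have e2 := prod_S hs w
  have e3 := L.prod_diff hs hk d
  have e4 := prod_S hs d
  have e5 := L.prod_at hs hd
  rw [h6] at e4
  rw [e5] at e3
  have hP : (∏ o ∈ Sec S s, dt (bar o) d ^ mu S s o) ≠ 0 := by
    intro h0
    rw [h0, mul_zero] at e4
    exact one_ne_zero e4
  -- A = κ B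
  have e6 : (∏ d' ∈ (TS G s).erase d, cf (d - d'))
      = ((-1) ^ (TS G s).card * ∏ d' ∈ TS G s, cf d') * (∏ s' ∈ S.erase s, cf (s' - s)) := by
    rw [e3]
    rw [mul_assoc, mul_comm (∏ o ∈ Sec S s, dt (bar o) d ^ mu S s o), ← e4, mul_one]
  rw [e1, e2, e6]
  ring

theorem stepH' {s : F × F} (hs : s ∈ S) {d1 d2 : F × F} (hk1 : 2 ≤ kk G s d1)
    (hk2 : 2 ≤ kk G s d2) {w : F × F} (hw : w ≠ 0) (hmu : mu S s (dir w) = 0) :
    (∏ d' ∈ (TS G s).erase d1, dt (d1 - d') w) = (∏ d' ∈ (TS G s).erase d2, dt (d2 - d') w) := by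
  have e1 := L.stepH hs hk1 w
  have e2 := L.stepH hs hk2 w
  have hP : (∏ o ∈ Sec S s, dt (bar o) w) ≠ 0 := by
    rw [Finset.prod_ne_zero_iff]
    intro o ho h0
    rw [dt_swap, neg_eq_zero, dt_bar_eq_zero hw] at h0
    subst h0
    rw [mem_Sec] at ho
    omega
  exact mul_right_cancel₀ hP (e1.trans e2.symm)

end Lift

end Pool.Agent.H229R2
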