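import Pool.Agent.H229R2.Struct4

set_option autoImplicit false
set_option linter.unusedSectionVars false
set_option linter.unusedVariables false

open Polynomial Finset

namespace Pool.Agent.H229R2

section PolyLemmas

variable {F : Type*} [Field F]

theorem Wt.finsum {ι : Type*} {m : ℕ} (I : Finset ι) (f : ι → F[X][X]) (h : ∀ i ∈ I, Wt m (f i)) :
    Wt m (∑ i ∈ I, f i) := by
  intro i j hij
  rw [finsetSum_coeff, finsetSum_coeff]
  apply Finset.sum_eq_zero
  intro x hx
  exact h x hx i j hij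

theorem Wt.coeff_natDegree {m : ℕ} {P : F[X][X]} (hP : Wt m P) (i : ℕ) :
    (P.coeff i).natDegree ≤ m - i := by
  rw [natDegree_le_iff_coeff_eq_zero]
  intro j hj
  exact hP i j (by omega)

theorem Wt.coeff_eq_zero {m : ℕ} {P : F[X][X]} (hP : Wt m P) {i : ℕ} (hi : m < i) :
    P.coeff i = 0 := by
  ext j
  rw [hP i j (by omega), coeff_zero]

theorem Wt.comp {m : ℕ} {P : F[X][X]} (hP : Wt m P) {b : F[X]} (hb : b.natDegree ≤ 1) :
    Wt m (P.comp (X + C b)) := by
  rw [comp_eq_sum_left, Polynomial.sum_def]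
  apply Wt.finsum
  intro i _
  by_cases hi : m < i
  · rw [hP.coeff_eq_zero hi, C_0, zero_mul]
    exact Wt.zero _
  · have h1 : Wt (m - i) (C (P.coeff i)) := Wt.C_of_natDegree (hP.coeff_natDegree i)
    have h2 : Wt 1 (X + C b : F[X][X]) := by
      have h3 : Wt 1 ((X : F[X][X])) := by
        simpa using Wt.X_pow (F := F) 1
      exact h3.add (Wt.C_of_natDegree hb)
    have h4 := h1.mul (h2.pow i)
    exact h4.mono (by omega)

/-- constant modulo `X^n` -/
def CM (n : ℕ) (P : F[X]) : Prop := ∃ c : F, X ^ n ∣ P - C c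

theorem CM.prod {ι : Type*} {n : ℕ} (I : Finset ι) (f : ι → F[X]) (h : ∀ i ∈ I, CM n (f i)) :
    CM n (∏ i ∈ I, f i) := by
  classical
  induction I using Finset.induction_on with
  | empty => exact ⟨1, by simp⟩
  | insert a s ha ih =>
    rw [prod_insert ha]
    obtain ⟨c, hc⟩ := h a (mem_insert_self _ _)
    obtain ⟨c', hc'⟩ := ih (fun i hi => h i (mem_insert_of_mem hi))
    refine ⟨c * c', ?_⟩
    have : f a * ∏ i ∈ s, f i - C (c * c')
        = (f a - C c) * ∏ i ∈ s, f i + C c * (∏ i ∈ s, f i - C c') := by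
      rw [C_mul]; ring
    rw [this]
    exact dvd_add (dvd_mul_of_dvd_left hc _) (dvd_mul_of_dvd_right hc' _)

end PolyLemmas

section Shift

variable {F : Type*} [Field F] [Fintype F] [DecidableEq F]

theorem shift_pow (b : F) : (X + C b : F[X]) ^ (Fintype.card F) = X ^ (Fintype.card F) + C b := by
  have h : (X + C b : F[X]) ^ (Fintype.card F) = X ^ (Fintype.card F) + (C b) ^ (Fintype.card F) := by
    obtain ⟨p, hp⟩ := CharP.exists F
    have := hp
    have : Fact p.Prime := ⟨CharP.char_is_prime F p⟩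
    obtain ⟨n, hp', hn⟩ := FiniteField.card F p
    rw [hn]
    exact add_pow_char_pow (p := p) (n := n) X (C b)
  rw [h, ← C_pow, FiniteField.pow_card]

theorem prod_comp_shift {ι : Type*} (I : Finset ι) (u : ι → F) (b : F) :
    (∏ i ∈ I, (X - C (u i))).comp (X + C b) = ∏ i ∈ I, (X - C (u i - b)) := by
  rw [Polynomial.prod_comp]
  apply Finset.prod_congr rfl
  intro i _
  simp only [sub_comp, X_comp, C_comp, C_sub]
  ring

end Shift

variable {F : Type*} [Field F] [Fintype F] [DecidableEq F]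

namespace Lift

variable {S : Finset (F × F)} {G : F → F × F} (L : Lift S G)

include L

theorem dt_bar_ne_of_tangent {s w : F × F} (hw : w ≠ 0) (hmu : mu S s (dir w) = 0)
    {o : Option F} (ho : o ∈ Sec S s) : dt (bar o) w ≠ 0 := by
  intro h0
  rw [dt_swap, neg_eq_zero, dt_bar_eq_zero hw] at h0
  subst h0
  rw [mem_Sec] at ho
  omega

theorem class_const {s : F × F} (hs : s ∈ S) {d : F × F} (hk : 2 ≤ kk G s d) {w : F × F}
    (hw : w ≠ 0) (hmu : mu S s (dir w) = 0) {o : Option F} (ho : o ∈ Sec S s) :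
    CM (kk G s d - 1) (∏ d' ∈ (TT G s o (dt d (bar o))).erase d, (X - C (dt (d' - d) w))) := by
  have hbw := L.dt_bar_ne_of_tangent hw hmu ho
  have hmo := mem_Sec.mp ho
  have hd := L.mem_TS_of_kk hk
  obtain ⟨z, z', hz, hz', hne, he, he'⟩ := L.pair_of_kk hk
  set v := dt d (bar o) with hv
  have hp : HasPair G s (cls G s o v) := by
    refine ⟨z, mem_cls.mpr ⟨hz, by rw [he]⟩, z', mem_cls.mpr ⟨hz', by rw [he']⟩, hne, he.trans he'.symm⟩
  obtain ⟨ρ, h1, h2, h3⟩ := L.class_rho hs hmo w hbw v hp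
  have h4 := card_TT_eq G s o v w hbw
  have h5 := L.tight' hs hmo hp
  obtain ⟨c0, hc0, hρ⟩ := rho_eq _ _ ρ h1 h3 (by omega)
  have himg : (cls G s o v).image (fun z => dt (G z - z • s) w)
      = (TT G s o v).image (fun d => dt d w) := by
    rw [← cls_image, Finset.image_image]; rfl
  have hinj : Set.InjOn (fun d => dt d w) (TT G s o v : Set (F × F)) := by
    intro x hx x' hx' h
    rw [mem_coe, mem_TT] at hx hx'
    exact eq_of_dt_eq hbw (hx.2.trans hx'.2.symm) h
  have hρ2 : ρ = C c0 * ∏ d' ∈ TT G s o v, (X - C (dt d' w)) := by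
    rw [hρ, himg, Finset.prod_image hinj]
  -- the power
  set b := dt d w with hb
  have hpow : (X - C b) ^ (kk G s d) ∣ X ^ (Fintype.card F) - X - ρ := by
    refine dvd_trans (dvd_trans ?_ (pow_fiber_dvd (cls G s o v) (fun z => dt (G z - z • s) w) b)) h3
    apply pow_dvd_pow
    unfold kk
    apply card_le_card
    intro y hy
    rw [mem_filter] at hy
    rw [mem_filter, mem_cls]
    exact ⟨⟨mem_ZZ.mp hy.1, by rw [hy.2]⟩, by rw [hy.2]⟩
  have hmem : d ∈ TT G s o v := mem_TT.mpr ⟨hd, rfl⟩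
  obtain ⟨A, hA⟩ := hpow
  have hA2 := congrArg (fun P : F[X] => P.comp (X + C b)) hA
  simp only [sub_comp, mul_comp, pow_comp, X_comp, C_comp, shift_pow, hρ2, prod_comp_shift,
    add_sub_cancel_right] at hA2
  rw [← Finset.mul_prod_erase _ _ hmem] at hA2
  rw [hb, sub_self, C_0, sub_zero] at hA2
  set PP := ∏ x ∈ (TT G s o v).erase d, (X - C (dt x w - dt d w)) with hPP
  have hPP2 : ∏ d' ∈ (TT G s o v).erase d, (X - C (dt (d' - d) w)) = PP := by
    rw [hPP]
    apply Finset.prod_congr rfl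
    intro x _
    rw [dt_sub_left]
  rw [hPP2]
  obtain ⟨k, hk'⟩ : ∃ k, kk G s d = k + 2 := ⟨kk G s d - 2, by omega⟩
  have hkq : kk G s d ≤ Fintype.card F - 1 := by
    rw [← card_ZZ]; unfold kk; exact card_filter_le _ _
  obtain ⟨n, hn⟩ : ∃ n, Fintype.card F = k + 2 + (n + 1) := ⟨Fintype.card F - k - 3, by omega⟩
  have hq1 : (X : F[X]) ^ (Fintype.card F) = X * (X ^ (k + 1) * X ^ (n + 1)) := by
    rw [hn]; ring
  rw [hq1, hk'] at hA2
  have hX : (X : F[X]) ≠ 0 := X_ne_zero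
  have h6 : X ^ (k + 1) * X ^ (n + 1) - 1 - C c0 * PP = X ^ (k + 1) * A.comp (X + C (dt d w)) := by
    apply mul_left_cancel₀ hX
    linear_combination hA2
  have hcc : C c0 * C (c0⁻¹) = (1 : F[X]) := by
    rw [← C_mul, mul_inv_cancel₀ hc0, C_1]
  refine ⟨-c0⁻¹, ?_⟩
  rw [hk']
  have e : k + 2 - 1 = k + 1 := by omega
  rw [e]
  refine ⟨C (c0⁻¹) * (X ^ (n + 1) - A.comp (X + C (dt d w))), ?_⟩
  rw [C_neg]
  linear_combination (-C (c0⁻¹)) * h6 - PP * hcc

theorem fiber_eq {s d : F × F} (hd : d ∈ TS G s) (o : Option F) :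
    ((TS G s).erase d).filter (fun d' => dir (d - d') = o)
      = (TT G s o (dt d (bar o))).erase d := by
  ext d'
  simp only [mem_erase, mem_TT, mem_filter]
  constructor
  · rintro ⟨⟨h1, h2⟩, h3⟩
    refine ⟨h1, h2, ?_⟩
    have h4 := h3.symm
    rw [← dt_bar_eq_zero (sub_ne_zero.mpr (Ne.symm h1)), dt_sub_left, sub_eq_zero] at h4
    exact h4.symm
  · rintro ⟨h1, h2, h3⟩
    refine ⟨⟨h1, h2⟩, ?_⟩
    symm
    rw [← dt_bar_eq_zero (sub_ne_zero.mpr (Ne.symm h1)), dt_sub_left, h3, sub_self]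

theorem all_const {s : F × F} (hs : s ∈ S) {d : F × F} (hk : 2 ≤ kk G s d) {w : F × F}
    (hw : w ≠ 0) (hmu : mu S s (dir w) = 0) :
    CM (kk G s d - 1) (∏ d' ∈ (TS G s).erase d, (X - C (dt (d' - d) w))) := by
  have hd := L.mem_TS_of_kk hk
  rw [← Finset.prod_fiberwise_of_maps_to (s := (TS G s).erase d) (t := Sec S s)
    (g := fun d' => dir (d - d'))
    (fun d' hd' => L.dir_diff_Sec hs hd (mem_erase.mp hd').2 (Ne.symm (mem_erase.mp hd').1))]
  apply CM.prod
  intro o ho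
  rw [L.fiber_eq hd]
  exact L.class_const hs hk hw hmu ho

/-- the quotient is constant to high order. -/
theorem Q_const {s : F × F} (hs : s ∈ S) {d : F × F} (hk : 2 ≤ kk G s d) {w : F × F}
    (hw : w ≠ 0) (hmu : mu S s (dir w) = 0) (Q : F[X])
    (hQ : (∏ d' ∈ TS G s, (X - C (dt d' w))) * Q = X ^ (Fintype.card F) - X) :
    X ^ (kk G s d - 1) ∣ Q.comp (X + C (dt d w))
      - C (-(∏ d' ∈ (TS G s).erase d, dt (d - d') w)⁻¹) := by
  have hd := L.mem_TS_of_kk hk
  have hkq : kk G s d ≤ Fintype.card F - 1 := by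
    rw [← card_ZZ]; unfold kk; exact card_filter_le _ _
  obtain ⟨c, hc⟩ := L.all_const hs hk hw hmu
  have h1 := congrArg (fun P : F[X] => P.comp (X + C (dt d w))) hQ
  simp only [sub_comp, mul_comp, pow_comp, X_comp, shift_pow, prod_comp_shift] at h1
  rw [← Finset.mul_prod_erase _ _ hd, sub_self, C_0, sub_zero] at h1
  set V := ∏ d' ∈ (TS G s).erase d, (X - C (dt (d' - d) w)) with hV
  have hV2 : ∏ x ∈ (TS G s).erase d, (X - C (dt x w - dt d w)) = V := by
    rw [hV]
    apply Finset.prod_congr rfl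
    intro x _
    rw [dt_sub_left]
  rw [hV2] at h1
  have hV0 : V.eval 0 = ∏ d' ∈ (TS G s).erase d, dt (d - d') w := by
    rw [hV, eval_prod]
    apply Finset.prod_congr rfl
    intro x _
    simp only [eval_sub, eval_X, eval_C, dt_sub_left]
    ring
  rw [← hV0]
  obtain ⟨k, hk'⟩ : ∃ k, kk G s d = k + 2 := ⟨kk G s d - 2, by omega⟩
  obtain ⟨n, hn⟩ : ∃ n, Fintype.card F = k + 2 + (n + 1) := ⟨Fintype.card F - k - 3, by omega⟩
  have hq1 : (X : F[X]) ^ (Fintype.card F) = X * (X ^ (k + 1) * X ^ (n + 1)) := by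
    rw [hn]; ring
  have e : k + 2 - 1 = k + 1 := by omega
  rw [hk', e] at hc ⊢
  rw [hq1] at h1
  set Qc := Q.comp (X + C (dt d w)) with hQc
  have h2 : V * Qc = X ^ (k + 1) * X ^ (n + 1) - 1 := by
    apply mul_left_cancel₀ (X_ne_zero (R := F))
    linear_combination h1
  obtain ⟨A, hA⟩ := hc
  have hVc : V.eval 0 = c := by
    have h3 := congrArg (Polynomial.eval 0) hA
    simp only [eval_sub, eval_C, eval_mul, eval_pow, eval_X] at h3
    rw [pow_succ, mul_zero, zero_mul] at h3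
    exact sub_eq_zero.mp h3
  have hV0ne : V.eval 0 ≠ 0 := by
    intro h0
    have h3 := congrArg (Polynomial.eval 0) h2
    simp only [eval_sub, eval_mul, eval_pow, eval_X, eval_one, h0] at h3
    rw [pow_succ, mul_zero, zero_mul, zero_mul, zero_sub] at h3
    exact one_ne_zero (neg_eq_zero.mp h3.symm)
  rw [hVc] at hV0ne ⊢
  have hcc : C c * C (c⁻¹) = (1 : F[X]) := by
    rw [← C_mul, mul_inv_cancel₀ hV0ne, C_1]
  refine ⟨C (c⁻¹) * (X ^ (n + 1) - A * Qc), ?_⟩
  rw [C_neg]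
  linear_combination (-C (c⁻¹) * Qc) * hA + C (c⁻¹) * h2 - Qc * hcc

end Lift

end Pool.Agent.H229R2
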