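import Pool.Agent.H229R2.Struct5

set_option autoImplicit false
set_option linter.unusedSectionVars false
set_option linter.unusedVariables false

open Polynomial Finset

namespace Pool.Agent.H229R2

section PolyLemmas

variable {F : Type*} [Field F]

theorem isRelPrime_lin {a b : F[X]} (h : a ≠ b) : IsRelPrime (X - C a : F[X][X]) (X - C b) := by
  rw [(prime_X_sub_C a).irreducible.isRelPrime_iff_not_dvd, dvd_iff_isRoot, IsRoot.def, eval_sub,
    eval_X, eval_C]
  exact sub_ne_zero.mpr h

theorem shift_dvd {Q : F[X][X]} {b φ : F[X]} {n : ℕ} (h : X ^ n ∣ Q.comp (X + C b) - C φ) :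
    (X - C b) ^ n ∣ Q - C φ := by
  obtain ⟨A, hA⟩ := h
  refine ⟨A.comp (X - C b), ?_⟩
  have h1 := congrArg (fun P : F[X][X] => P.comp (X - C b)) hA
  simp only [sub_comp, mul_comp, pow_comp, X_comp, C_comp, comp_assoc, add_comp,
    sub_add_cancel, comp_X] at h1
  exact h1

theorem lin_inj {a b a' b' : F} (h : lin a b = lin a' b') : a = a' ∧ b = b' := by
  have e0 := congrArg (fun p => Polynomial.eval 0 p) h
  have e1 := congrArg (fun p => Polynomial.eval 1 p) h
  simp only [eval_lin, mul_zero, add_zero, mul_one] at e0 e1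
  exact ⟨e0, by linear_combination e1 - e0⟩

theorem coeff_map_ev (P : F[X][X]) (ω : F) (j : ℕ) :
    (P.map (evalRingHom ω)).coeff j = (P.coeff j).eval ω := by
  rw [coeff_map, coe_evalRingHom]

theorem map_comp_shift (Q : F[X][X]) (b : F[X]) (ω : F) :
    (Q.comp (X + C b)).map (evalRingHom ω) = (Q.map (evalRingHom ω)).comp (X + C (b.eval ω)) := by
  rw [Polynomial.map_comp, Polynomial.map_add, map_X, map_C, coe_evalRingHom]

/-- two polynomials of degree `≤ m` agreeing on more than `m` points -/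
theorem eq_of_eval_eq' {p1 p2 : F[X]} {m : ℕ} (h1 : p1.natDegree ≤ m) (h2 : p2.natDegree ≤ m)
    (Ω : Finset F) (hΩ : m < Ω.card) (h : ∀ ω ∈ Ω, p1.eval ω = p2.eval ω) : p1 = p2 := by
  rw [← sub_eq_zero]
  apply eq_zero_of_natDegree_lt_card_of_eval_eq_zero' _ Ω
  · intro ω hω
    rw [eval_sub, h ω hω, sub_self]
  · exact lt_of_le_of_lt ((natDegree_sub_le _ _).trans (max_le h1 h2)) hΩ

end PolyLemmas

variable {F : Type*} [Field F] [Fintype F] [DecidableEq F]

theorem sum_kk (G : F → F × F) (s : F × F) : ∑ d ∈ TS G s, kk G s d = Fintype.card F - 1 := by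
  unfold TS kk
  rw [sum_fiber_card, card_ZZ]

theorem kk_pos {G : F → F × F} {s d : F × F} (hd : d ∈ TS G s) : 1 ≤ kk G s d := by
  obtain ⟨z, hz, he⟩ := mem_image.mp hd
  unfold kk
  rw [Nat.succ_le_iff, card_pos]
  exact ⟨z, mem_filter.mpr ⟨hz, he⟩⟩

theorem sum_kk_sub (G : F → F × F) (s : F × F) :
    ∑ d ∈ TS G s, (kk G s d - 1) + (TS G s).card = Fintype.card F - 1 := by
  rw [← sum_kk G s, Finset.card_eq_sum_ones, ← Finset.sum_add_distrib]
  apply Finset.sum_congr rfl
  intro d hd
  have := kk_pos hd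
  omega

theorem prod_ZZ_eq (G : F → F × F) (s w : F × F) :
    ∏ z ∈ ZZ F, (X - C (dt (G z - z • s) w)) = ∏ d ∈ TS G s, (X - C (dt d w)) ^ kk G s d := by
  rw [← Finset.prod_fiberwise_of_maps_to (s := ZZ F) (t := TS G s) (g := fun z => G z - z • s)
    (fun z hz => mem_image_of_mem (fun z => G z - z • s) hz)]
  apply Finset.prod_congr rfl
  intro d hd
  unfold kk
  rw [← Finset.prod_const]
  apply Finset.prod_congr rfl
  intro z hz
  rw [(mem_filter.mp hz).2]

namespace Lift

variable {S : Finset (F × F)} {G : F → F × F} (L : Lift S G)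

include L

/-- The main polynomial statement for secants. -/
theorem S7 (NT : ∀ s ∈ S, ∀ o, mu S s o + 2 ≤ Fintype.card F)
    {s : F × F} (hs : s ∈ S) {o : Option F} (ho : o ∈ Sec S s) :
    ∃ g : F[X], g.natDegree ≤ (TS G s).card ∧
      X * ∏ z ∈ ZZ F, (X - C (dt (G z - z • s) (bar o))) = X ^ (Fintype.card F) + g := by
  have hsec := L.card_Sec hs
  have hlt := L.t_lt NT hs
  have h2t := L.q_lt_two_t NT hs
  have hcard : 0 < ((Sec S s).erase o).card := by
    rw [card_erase_of_mem ho]
    omega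
  obtain ⟨o0, ho0⟩ := card_pos.mp hcard
  rw [mem_erase] at ho0
  have hoo : o ≠ o0 := Ne.symm ho0.1
  have hB := L.card_B hs hoo ho0.2
  obtain ⟨Q, r, hQr, hr, hWr, hWQ⟩ := family (TS G s) (fun d => dt d (bar o))
    (fun d => dt d (bar o0)) (by omega)
  set Ω := (univ : Finset F).filter (fun Y => ¬ dir (bar o + Y • bar o0) ∈ Sec S s) with hΩ
  have hΩc : Ω.card = (TS G s).card := by
    have h1 := Finset.card_filter_add_card_filter_not (s := (univ : Finset F))
      (fun Y => dir (bar o + Y • bar o0) ∈ Sec S s)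
    rw [card_univ, hB, ← hΩ] at h1
    omega
  have hw : ∀ ω : F, bar o + ω • bar o0 ≠ 0 := fun ω => (L.dir_pencil_ne hoo ω).1
  have hmu : ∀ ω ∈ Ω, mu S s (dir (bar o + ω • bar o0)) = 0 := by
    intro ω hω
    rw [hΩ, mem_filter, mem_Sec] at hω
    omega
  have hfun : ∀ (ω : F) (d : F × F), dt d (bar o) + dt d (bar o0) * ω
      = dt d (bar o + ω • bar o0) := by
    intro ω d
    rw [dt_add_right, dt_smul_right]; ring
  have hat : ∀ ω ∈ Ω, (∏ d' ∈ TS G s, (X - C (dt d' (bar o + ω • bar o0))))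
      * Q.map (evalRingHom ω) = X ^ (Fintype.card F) - X := by
    intro ω hω
    have h1 := (family_at hQr hr (by omega) ω (by
      intro a ha b hb hab
      apply L.inj_tangent hs (hw ω) (hmu ω hω) ha hb
      simp only at hab ⊢
      rw [← hfun, ← hfun]; exact hab)).2
    simp only [hfun] at h1
    exact h1
  set b : F × F → F[X] := fun d => lin (dt d (bar o)) (dt d (bar o0)) with hb
  have hbeval : ∀ (ω : F) (d : F × F), (b d).eval ω = dt d (bar o + ω • bar o0) := by
    intro ω d
    rw [hb]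
    simp only
    rw [eval_lin, hfun]
  have hbinj : Function.Injective b := by
    intro x y hxy
    obtain ⟨h1, h2⟩ := lin_inj hxy
    exact eq_of_dt_eq (dt_bar_bar hoo) h1 h2
  have hWs : ∀ d, Wt (Fintype.card F - (TS G s).card) (Q.comp (X + C (b d))) :=
    fun d => hWQ.comp (natDegree_lin _ _)
  have hdvd : ∀ d, 2 ≤ kk G s d → ∀ ω ∈ Ω, X ^ (kk G s d - 1) ∣
      (Q.comp (X + C (b d))).map (evalRingHom ω)
      - C (-(∏ d' ∈ (TS G s).erase d, dt (d - d') (bar o + ω • bar o0))⁻¹) := by
    intro d hk ω hω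
    rw [map_comp_shift, hbeval]
    exact L.Q_const hs hk (hw ω) (hmu ω hω) _ (hat ω hω)
  have hcoef : ∀ d, 2 ≤ kk G s d → ∀ j, 1 ≤ j → j < kk G s d - 1 →
      (Q.comp (X + C (b d))).coeff j = 0 := by
    intro d hk j hj1 hj2
    apply eq_of_eval_eq' (m := Fintype.card F - (TS G s).card - j) ((hWs d).coeff_natDegree j)
      (by simp) Ω (by omega)
    intro ω hω
    have h1 := X_pow_dvd_iff.mp (hdvd d hk ω hω) j hj2
    rw [coeff_sub, coeff_C, if_neg (by omega), sub_zero, coeff_map_ev] at h1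
    rw [h1, eval_zero]
  have hc0 : ∀ d, 2 ≤ kk G s d → ∀ ω ∈ Ω, ((Q.comp (X + C (b d))).coeff 0).eval ω
      = -(∏ d' ∈ (TS G s).erase d, dt (d - d') (bar o + ω • bar o0))⁻¹ := by
    intro d hk ω hω
    have h1 := X_pow_dvd_iff.mp (hdvd d hk ω hω) 0 (by omega)
    rw [coeff_sub, coeff_C, if_pos rfl, coeff_map_ev] at h1
    exact sub_eq_zero.mp h1
  obtain ⟨d0, hd0⟩ := L.exists_kk NT hs
  set φ := (Q.comp (X + C (b d0))).coeff 0 with hφ
  have hφd : ∀ d, 2 ≤ kk G s d → (Q.comp (X + C (b d))).coeff 0 = φ := by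
    intro d hk
    apply eq_of_eval_eq' (m := Fintype.card F - (TS G s).card) ((hWs d).coeff_natDegree 0)
      ((hWs d0).coeff_natDegree 0) Ω (by omega)
    intro ω hω
    rw [hc0 d hk ω hω, hc0 d0 hd0 ω hω, L.stepH' hs hk hd0 (hw ω) (hmu ω hω)]
  have hpow : ∀ d ∈ TS G s, (X - C (b d)) ^ (kk G s d - 1) ∣ Q - C φ := by
    intro d hd
    by_cases hk : 2 ≤ kk G s d
    · apply shift_dvd
      rw [X_pow_dvd_iff]
      intro j hj
      rw [coeff_sub, coeff_C]
      by_cases hj0 : j = 0
      · rw [if_pos hj0, hj0, hφd d hk, sub_self]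
      · rw [if_neg hj0, sub_zero]
        exact hcoef d hk j (by omega) hj
    · have h1 : kk G s d - 1 = 0 := by omega
      rw [h1, pow_zero]
      exact one_dvd _
  have hD : ∏ d ∈ TS G s, (X - C (b d)) ^ (kk G s d - 1) ∣ Q - C φ := by
    apply Finset.prod_dvd_of_isRelPrime
    · intro d hd d' hd' hne
      exact IsRelPrime.pow (isRelPrime_lin (fun h => hne (hbinj h)))
    · exact hpow
  -- monicity
  have hRm := RR_monic (TS G s) (fun d => dt d (bar o)) (fun d => dt d (bar o0))
  have hRd := RR_natDegree (TS G s) (fun d => dt d (bar o)) (fun d => dt d (bar o0))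
  set R := RR (TS G s) (fun d => dt d (bar o)) (fun d => dt d (bar o0)) with hR
  have hRQ : R * Q = X ^ (Fintype.card F) - r := by linear_combination -hQr
  have hRQm : (R * Q).Monic := by
    rw [hRQ]
    apply monic_X_pow_sub
    exact lt_of_lt_of_le hr (by exact_mod_cast (by omega))
  have hQm : Q.Monic := Monic.of_mul_monic_left hRm hRQm
  have hQd : (TS G s).card + Q.natDegree = Fintype.card F := by
    have h1 := hRm.natDegree_mul hQm
    rw [hRQ, natDegree_sub_eq_left_of_natDegree_lt, natDegree_X_pow, hRd] at h1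
    · exact h1.symm
    · rw [natDegree_X_pow]
      by_cases h0 : r = 0
      · rw [h0, natDegree_zero]; omega
      · have := (natDegree_lt_iff_degree_lt h0).mpr hr
        omega
  have hQφm : (Q - C φ).Monic := by
    apply hQm.sub_of_left
    refine lt_of_le_of_lt degree_C_le ?_
    rw [← natDegree_pos_iff_degree_pos]
    omega
  have hQφd : (Q - C φ).natDegree = Q.natDegree := natDegree_sub_C
  have hDm : (∏ d ∈ TS G s, (X - C (b d)) ^ (kk G s d - 1)).Monic :=
    monic_prod_of_monic _ _ (fun d _ => (monic_X_sub_C _).pow _)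
  have hDd : (∏ d ∈ TS G s, (X - C (b d)) ^ (kk G s d - 1)).natDegree
      = ∑ d ∈ TS G s, (kk G s d - 1) := by
    rw [natDegree_prod_of_monic _ _ (fun d _ => (monic_X_sub_C _).pow _)]
    simp only [natDegree_pow, natDegree_X_sub_C, mul_one]
  have hsum := sum_kk_sub G s
  obtain ⟨A, hA⟩ := hD
  have hAm : A.Monic := Monic.of_mul_monic_left hDm (hA ▸ hQφm)
  have hAd : A.natDegree = 1 := by
    have h1 := hDm.natDegree_mul hAm
    rw [← hA, hQφd, hDd] at h1
    omega
  have hAX := hAm.eq_X_add_C hAd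
  -- specialise at `0`
  have e1 := congrArg (Polynomial.map (evalRingHom (0 : F))) hA
  have e2 := congrArg (Polynomial.map (evalRingHom (0 : F))) hQr
  rw [hAX] at e1
  rw [Polynomial.map_mul, Polynomial.map_prod, Polynomial.map_sub, Polynomial.map_add, map_X,
    map_C, map_C] at e1
  rw [Polynomial.map_add, Polynomial.map_mul, hR, RR_map, Polynomial.map_pow, map_X] at e2
  simp only [Polynomial.map_pow, Polynomial.map_sub, map_X, map_C, coe_evalRingHom, hbeval,
    zero_smul, add_zero] at e1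
  simp only [mul_zero, add_zero] at e2
  set a0 := (A.coeff 0).eval 0 with ha0
  set Q0 := Q.map (evalRingHom (0 : F)) with hQ0
  set r0 := r.map (evalRingHom (0 : F)) with hr0
  set φ0 := φ.eval 0 with hφ0
  set R0 := ∏ i ∈ TS G s, (X - C (dt i (bar o))) with hR0
  have hN : ∏ z ∈ ZZ F, (X - C (dt (G z - z • s) (bar o)))
      = R0 * ∏ d ∈ TS G s, (X - C (dt d (bar o))) ^ (kk G s d - 1) := by
    rw [prod_ZZ_eq, hR0, ← Finset.prod_mul_distrib]
    apply Finset.prod_congr rfl
    intro d hd
    rw [← pow_succ']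
    congr 1
    have := kk_pos hd
    omega
  set NN := ∏ z ∈ ZZ F, (X - C (dt (G z - z • s) (bar o))) with hNN
  have hfin : (X + C a0) * NN = X ^ (Fintype.card F) - r0 - C φ0 * R0 := by
    rw [hN]
    linear_combination (-R0) * e1 - e2
  have hr0d : r0.natDegree ≤ (TS G s).card := by
    rw [natDegree_le_iff_coeff_eq_zero]
    intro j hj
    rw [hr0, coeff_map_ev]
    rw [coeff_eq_zero_of_degree_lt (lt_trans hr (by exact_mod_cast hj)), eval_zero]
  have hR0d : R0.natDegree = (TS G s).card := natDegree_prod_X_sub_C' _ _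
  have hgd : (- r0 - C φ0 * R0).natDegree ≤ (TS G s).card := by
    refine (natDegree_sub_le _ _).trans (max_le ?_ ?_)
    · rw [natDegree_neg]; exact hr0d
    · exact (natDegree_C_mul_le _ _).trans (le_of_eq hR0d)
  -- the coefficient of `X^(q-1)`
  have ha00 : a0 = 0 := by
    set u : F → F := fun z => if z = 0 then - a0 else dt (G z - z • s) (bar o) with hu
    have h1 : ∏ z : F, (X - C (u z)) = (X + C a0) * NN := by
      rw [← Finset.mul_prod_erase univ _ (mem_univ (0 : F))]
      congr 1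
      · rw [hu]; simp
      · rw [hNN]
        apply Finset.prod_congr rfl
        intro z hz
        have hz0 : z ≠ 0 := mem_ZZ.mp hz
        rw [hu]
        simp only [if_neg hz0]
    have h2 := prod_X_sub_C_coeff_card_pred (univ : Finset F) u (by rw [card_univ]; omega)
    rw [h1, hfin, card_univ] at h2
    have h3 : (X ^ (Fintype.card F) - r0 - C φ0 * R0 : F[X]).coeff (Fintype.card F - 1) = 0 := by
      have h4 : (X ^ (Fintype.card F) - r0 - C φ0 * R0 : F[X])
          = X ^ (Fintype.card F) + (- r0 - C φ0 * R0) := by ring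
      rw [h4, coeff_add, coeff_X_pow, if_neg (by omega), coeff_eq_zero_of_natDegree_lt (by omega),
        add_zero]
    rw [h3, ← Finset.add_sum_erase univ u (mem_univ (0 : F))] at h2
    have h5 : ∑ z ∈ (univ : Finset F).erase 0, u z = 0 := by
      refine (Finset.sum_congr rfl ?_).trans (L.sum_vals NT s (bar o))
      intro z hz
      have hz0 : z ≠ 0 := mem_ZZ.mp hz
      rw [hu]
      simp only [if_neg hz0]
    rw [h5, add_zero, hu] at h2
    simpa using h2.symm
  refine ⟨- r0 - C φ0 * R0, hgd, ?_⟩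
  rw [ha00, C_0, add_zero] at hfin
  rw [hfin]; ring

end Lift

end Pool.Agent.H229R2
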