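import Pool.Agent.H229R2.Struct6

set_option autoImplicit false
set_option linter.unusedSectionVars false
set_option linter.unusedVariables false

open Polynomial Finset

namespace Pool.Agent.H229R2

variable {F : Type*} [Field F] [Fintype F] [DecidableEq F]

/-- If an equation `y^n = a` has `n` non-zero solutions then `n ∣ q - 1`. -/
theorem dvd_of_roots (Y : Finset F) (n : ℕ) (hn : 1 ≤ n) (hY : Y.card = n) (a : F)
    (h : ∀ y ∈ Y, y ≠ 0 ∧ y ^ n = a) : n ∣ Fintype.card F - 1 := by
  have : NeZero n := ⟨by omega⟩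
  obtain ⟨y0, hy0⟩ := card_pos.mp (by omega : 0 < Y.card)
  obtain ⟨h0, h1⟩ := h y0 hy0
  have ha : a ≠ 0 := by rw [← h1]; exact pow_ne_zero _ h0
  have key : n ≤ Nat.card (rootsOfUnity n F) := by
    have hYc : Nat.card Y = n := by rw [Nat.card_eq_fintype_card, Fintype.card_coe, hY]
    refine le_trans (le_of_eq hYc.symm) ?_
    apply Nat.card_le_card_of_injective (fun y : Y => (⟨Units.mk0 (y.1 / y0)
      (div_ne_zero (h y.1 y.2).1 h0), by
        rw [mem_rootsOfUnity]
        ext
        simp only [Units.val_pow_eq_pow_val, Units.val_mk0, Units.val_one]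
        rw [div_pow, (h y.1 y.2).2, h1, div_self ha]⟩ : rootsOfUnity n F))
    intro y y' hyy
    have h2 := congrArg (fun x : rootsOfUnity n F => ((x : Fˣ) : F)) hyy
    simp only [Units.val_mk0] at h2
    apply Subtype.ext
    field_simp at h2
    exact h2
  have h3 : Nat.card (rootsOfUnity n F) = n := le_antisymm (card_rootsOfUnity F n) key
  have h4 := Subgroup.card_subgroup_dvd_card (rootsOfUnity n F)
  rw [h3, Nat.card_eq_fintype_card, Fintype.card_units] at h4
  exact h4

/-- consecutive factors of a prime power -/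
theorem not_consecutive {a : ℕ} (ha : 2 ≤ a) (h : Fintype.card F = a * (a + 1)) : False := by
  obtain ⟨p, hp⟩ := CharP.exists F
  have hp' := hp
  obtain ⟨n, hpp, hn⟩ := FiniteField.card F p
  have h1 : a ∣ p ^ (n : ℕ) := by rw [← hn, h]; exact Dvd.intro _ rfl
  have h2 : a + 1 ∣ p ^ (n : ℕ) := by rw [← hn, h]; exact Dvd.intro_left _ rfl
  obtain ⟨i, _, hi⟩ := (Nat.dvd_prime_pow hpp).mp h1
  obtain ⟨j, _, hj⟩ := (Nat.dvd_prime_pow hpp).mp h2
  have hi0 : i ≠ 0 := by rintro rfl; simp at hi; omega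
  have hj0 : j ≠ 0 := by rintro rfl; simp at hj; omega
  have d1 : p ∣ a := by rw [hi]; exact dvd_pow_self p hi0
  have d2 : p ∣ a + 1 := by rw [hj]; exact dvd_pow_self p hj0
  have d3 : p ∣ 1 := (Nat.dvd_add_right d1).mp d2
  exact hpp.one_lt.ne' (Nat.dvd_one.mp d3)

/-- Two partitions covering all pairs. -/
theorem two_rel {α β : Type*} [DecidableEq α] [DecidableEq β] (C : Finset α) (f g : α → β)
    (h : ∀ x ∈ C, ∀ y ∈ C, x ≠ y → f x = f y ∨ g x = g y) :
    (∀ x ∈ C, ∀ y ∈ C, f x = f y) ∨ (∀ x ∈ C, ∀ y ∈ C, g x = g y) := by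
  by_contra hcon
  push Not at hcon
  obtain ⟨⟨a, ha, b, hb, hab⟩, ⟨c, hc, d, hd, hcd⟩⟩ := hcon
  have key : ∀ x ∈ C, g x = g a := by
    have hgab : g a = g b := by
      rcases h a ha b hb (by rintro rfl; exact hab rfl) with h1 | h1
      · exact absurd h1 hab
      · exact h1
    intro x hx
    by_cases hxa : x = a
    · rw [hxa]
    · rcases h x hx a ha hxa with h1 | h1
      · by_cases hxb : x = b
        · rw [hxb]; exact hgab.symm
        · rcases h x hx b hb hxb with h2 | h2
          · exact absurd (h1.symm.trans h2) hab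
          · exact h2.trans hgab.symm
      · exact h1
  exact hcd ((key c hc).trans (key d hd).symm)

namespace Lift

variable {S : Finset (F × F)} {G : F → F × F} (L : Lift S G)

include L

theorem exists_other {s : F × F} {o : Option F} (ho : 1 ≤ mu S s o) :
    ∃ s' ∈ S, s' ≠ s ∧ dt (s' - s) (bar o) = 0 := by
  obtain ⟨s', hs'⟩ := card_pos.mp (Nat.lt_of_lt_of_le Nat.zero_lt_one ho)
  rw [mem_filter, mem_erase] at hs'
  exact ⟨s', hs'.1.2, hs'.1.1, hs'.2⟩

theorem val_ne_zero {s : F × F} (hs : s ∈ S) {o : Option F} (ho : o ∈ Sec S s) {z : F}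
    (hz : z ≠ 0) : dt (G z - z • s) (bar o) ≠ 0 := by
  intro h0
  obtain ⟨s', hs', hne, h1⟩ := L.exists_other (mem_Sec.mp ho)
  apply hne
  symm
  refine L.h4 z hz _ (bar_ne_zero o) s hs s' hs' h0 ?_
  rw [dt_base_change G h1, h0]

theorem image_univ_eq (s : F × F) (o : Option F) :
    (univ : Finset F).image (fun z => dt (G z - z • s) (bar o)) = insert 0 (VV G s o) := by
  have h1 : (univ : Finset F) = insert 0 (ZZ F) := by
    unfold ZZ; rw [Finset.insert_erase (mem_univ _)]
  rw [h1, Finset.image_insert]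
  unfold VV
  rw [L.h0]
  simp

theorem prod_univ_eq (s : F × F) (o : Option F) :
    ∏ z : F, (X - C (dt (G z - z • s) (bar o)))
      = X * ∏ z ∈ ZZ F, (X - C (dt (G z - z • s) (bar o))) := by
  rw [← Finset.mul_prod_erase univ _ (mem_univ (0 : F)), L.h0]
  simp only [zero_smul, sub_zero, dt_zero_left, C_0]
  rfl

theorem VV_ge (NT : ∀ s ∈ S, ∀ o, mu S s o + 2 ≤ Fintype.card F)
    {s : F × F} (hs : s ∈ S) {o : Option F} (ho : o ∈ Sec S s) :
    Fintype.card F ≤ (VV G s o).card + (TS G s).card := by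
  obtain ⟨g, hg, h1⟩ := L.S7 NT hs ho
  have hder : derivative (X ^ (Fintype.card F) + g) = derivative g := by
    rw [derivative_add, derivative_X_pow]
    simp
  have hne : derivative (X ^ (Fintype.card F) + g) ≠ 0 := by
    rw [← h1]
    intro h0
    have h2 := congrArg (Polynomial.eval 0) h0
    rw [derivative_mul, derivative_X, one_mul, eval_add, eval_mul, eval_X, zero_mul, add_zero,
      eval_prod, eval_zero, Finset.prod_eq_zero_iff] at h2
    obtain ⟨z, hz, h3⟩ := h2
    rw [eval_sub, eval_X, eval_C, zero_sub, neg_eq_zero] at h3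
    exact L.val_ne_zero hs ho (mem_ZZ.mp hz) h3
  have h2 := mult_le (univ : Finset F) (fun z => dt (G z - z • s) (bar o)) (X ^ (Fintype.card F) + g)
    (by rw [L.prod_univ_eq, h1]) hne
  have h0 : (0 : F) ∉ VV G s o := by
    intro h
    obtain ⟨z, hz, h3⟩ := mem_image.mp h
    exact L.val_ne_zero hs ho (mem_ZZ.mp hz) h3
  rw [L.image_univ_eq, card_insert_of_notMem h0, card_univ, hder] at h2
  have h3 := natDegree_derivative_le g
  have h4 := L.TS_card_pos (s := s)
  omega

theorem VV_card (NT : ∀ s ∈ S, ∀ o, mu S s o + 2 ≤ Fintype.card F)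
    {s : F × F} (hs : s ∈ S) {o : Option F} (ho : o ∈ Sec S s) :
    (VV G s o).card + (TS G s).card = Fintype.card F :=
  le_antisymm (L.VV_le NT hs (mem_Sec.mp ho)) (L.VV_ge NT hs ho)

theorem Two_nonempty (NT : ∀ s ∈ S, ∀ o, mu S s o + 2 ≤ Fintype.card F)
    {s : F × F} (hs : s ∈ S) : 1 ≤ (Two S s).card := by
  by_contra hcon
  have h0 : (Two S s).card = 0 := by omega
  rw [card_eq_zero] at h0
  have hbig : ∀ o, 1 ≤ mu S s o → 2 ≤ mu S s o := by
    intro o ho
    by_contra h1
    have h2 : o ∈ Two S s := mem_Two.mpr (by omega)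
    rw [h0] at h2
    simp at h2
  have hTT : ∀ d ∈ TS G s, ∀ o, 1 ≤ mu S s o → (TT G s o (dt d (bar o))).card = mu S s o := by
    intro d hd
    have h1 := L.sum_TT_point hs hd
    rw [← L.sum_sec_sub hs] at h1
    have hpos : ∀ o, 1 ≤ (TT G s o (dt d (bar o))).card := by
      intro o
      rw [Nat.succ_le_iff, card_pos]
      exact ⟨d, mem_TT.mpr ⟨hd, rfl⟩⟩
    have hle : ∀ o ∈ (univ : Finset (Option F)).filter (fun o => 1 ≤ mu S s o),
        ((TT G s o (dt d (bar o))).card - 1) ≤ mu S s o - 1 := by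
      intro o ho
      have hb := hbig o (mem_filter.mp ho).2
      apply Nat.sub_le_sub_right
      by_cases h2 : 2 ≤ (cls G s o (dt d (bar o))).card
      · exact le_of_eq (L.TT_big hs hb h2)
      · have h3 := card_TT_le_cls G s o (dt d (bar o))
        omega
    intro o ho
    have h2 := (Finset.sum_eq_sum_iff_of_le hle).mp h1 o (mem_filter.mpr ⟨mem_univ _, ho⟩)
    have h3 := hpos o
    omega
  have hprod : ∀ o ∈ Sec S s, (TS G s).card = (Fintype.card F - (TS G s).card) * mu S s o := by
    intro o ho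
    have h1 := L.VV_card NT hs ho
    have h2 : (VV G s o).card = Fintype.card F - (TS G s).card := by omega
    rw [← h2, ← smul_eq_mul, ← Finset.sum_const]
    refine (sum_TT G s o).symm.trans ?_
    apply Finset.sum_congr rfl
    intro v hv
    rw [VV_eq] at hv
    obtain ⟨d, hd, rfl⟩ := mem_image.mp hv
    exact hTT d hd o (mem_Sec.mp ho)
  have hsum : ∑ _o ∈ Sec S s, (TS G s).card
      = ∑ o ∈ Sec S s, (Fintype.card F - (TS G s).card) * mu S s o :=
    Finset.sum_congr rfl hprod
  rw [← Finset.mul_sum, L.sum_Sec hs, Finset.sum_const, smul_eq_mul] at hsum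
  have hsec := L.card_Sec hs
  have hlt := L.t_lt NT hs
  obtain ⟨a, ha⟩ : ∃ a, Fintype.card F = (TS G s).card + a := ⟨Fintype.card F - (TS G s).card, by omega⟩
  have h1 : (Sec S s).card = a + 1 := by omega
  rw [h1, ha, Nat.add_sub_cancel_left] at hsum
  have h2 : (TS G s).card = a * a := by
    have : (a + 1) * (TS G s).card = a * (TS G s).card + (TS G s).card := by ring
    rw [this, mul_add] at hsum
    omega
  apply not_consecutive (F := F) (a := a) (by omega)
  rw [ha, h2]; ring

/-- a line with exactly two points. -/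
theorem two_classes {s : F × F} (hs : s ∈ S) {o : Option F} (ho : mu S s o = 1) :
    ∃ s' ∈ S, s' ≠ s ∧ dt (s' - s) (bar o) = 0 ∧ Se S s o = {s, s'} := by
  obtain ⟨s', hs', hne, h1⟩ := L.exists_other (le_of_eq ho.symm)
  refine ⟨s', hs', hne, h1, ?_⟩
  symm
  apply Finset.eq_of_subset_of_card_le
  · intro x hx
    rw [mem_insert, mem_singleton] at hx
    rcases hx with rfl | rfl
    · exact mem_Se.mpr ⟨hs, by simp⟩
    · exact mem_Se.mpr ⟨hs', h1⟩
  · rw [Se_card hs, ho, card_pair (Ne.symm hne)]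

theorem two_classes' {s s' : F × F} (hs : s ∈ S) (hs' : s' ∈ S) (hne : s' ≠ s) {o : Option F}
    (h1 : dt (s' - s) (bar o) = 0) (hSe : Se S s o = {s, s'}) (v : F) (hv : v ∈ VV G s o) :
    ((TT G s o v).card = 1 ∧ (TT G s' o v).card = (cls G s o v).card) ∨
    ((TT G s' o v).card = 1 ∧ (TT G s o v).card = (cls G s o v).card) := by
  have hex : ∀ z ∈ cls G s o v, ∀ z' ∈ cls G s o v, z ≠ z' →
      (G z - z • s = G z' - z' • s ∨ G z - z • s' = G z' - z' • s') := by
    intro z hz z' hz' hzz
    obtain ⟨s'', hs'', he⟩ := L.cls_dir hz hz' hzz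
    rw [hSe, mem_insert, mem_singleton] at hs''
    rcases hs'' with rfl | rfl
    · left; exact L.pair_iff.mpr he
    · right; exact L.pair_iff.mpr he
  have hnot : ∀ z ∈ cls G s o v, ∀ z' ∈ cls G s o v, z ≠ z' →
      G z - z • s = G z' - z' • s → G z - z • s' = G z' - z' • s' → False := by
    intro z hz z' hz' hzz e1 e2
    exact hne (L.uniq hzz (L.pair_iff.mp e1) (L.pair_iff.mp e2)).symm
  have hpos := TT_pos hv
  have hv' : v ∈ VV G s' o := by rw [VV_base_change G h1]; exact hv
  have hpos' := TT_pos hv'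
  have hTT : (TT G s o v).card = ((cls G s o v).image (fun z => G z - z • s)).card := by
    rw [cls_image]
  have hTT' : (TT G s' o v).card = ((cls G s o v).image (fun z => G z - z • s')).card := by
    rw [← cls_base_change G h1, cls_image]
  rcases two_rel (cls G s o v) (fun z => G z - z • s) (fun z => G z - z • s') hex with hc | hc
  · left
    constructor
    · apply le_antisymm _ hpos
      rw [hTT, card_le_one]
      intro a ha b hb
      obtain ⟨z, hz, rfl⟩ := mem_image.mp ha
      obtain ⟨z', hz', rfl⟩ := mem_image.mp hb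
      exact hc z hz z' hz'
    · rw [hTT']
      apply Finset.card_image_of_injOn
      intro z hz z' hz' he
      by_contra hzz
      exact hnot z hz z' hz' hzz (hc z hz z' hz') he
  · right
    constructor
    · apply le_antisymm _ hpos'
      rw [hTT', card_le_one]
      intro a ha b hb
      obtain ⟨z, hz, rfl⟩ := mem_image.mp ha
      obtain ⟨z', hz', rfl⟩ := mem_image.mp hb
      exact hc z hz z' hz'
    · rw [hTT]
      apply Finset.card_image_of_injOn
      intro z hz z' hz' he
      by_contra hzz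
      exact hnot z hz z' hz' hzz he (hc z hz z' hz')

/-- The parameters. -/
theorem param (NT : ∀ s ∈ S, ∀ o, mu S s o + 2 ≤ Fintype.card F)
    {s : F × F} (hs : s ∈ S) : 3 * (TS G s).card + 1 = 2 * Fintype.card F := by
  obtain ⟨o, ho⟩ := card_pos.mp (L.Two_nonempty NT hs)
  rw [mem_Two] at ho
  obtain ⟨s', hs', hne, h1, hSe⟩ := L.two_classes hs ho
  have h2 : ∀ v ∈ VV G s o, (TT G s o v).card + (TT G s' o v).card = (cls G s o v).card + 1 := by
    intro v hv
    rcases L.two_classes' hs hs' hne h1 hSe v hv with ⟨a, b⟩ | ⟨a, b⟩ <;> omega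
  have h3 : ∑ v ∈ VV G s o, ((TT G s o v).card + (TT G s' o v).card)
      = ∑ v ∈ VV G s o, ((cls G s o v).card + 1) := Finset.sum_congr rfl h2
  rw [Finset.sum_add_distrib, Finset.sum_add_distrib, sum_TT, sum_cls,
    ← VV_base_change G h1, sum_TT, VV_base_change G h1, Finset.sum_const, smul_eq_mul, mul_one,
    L.t_const NT hs' hs] at h3
  have h4 := L.VV_card NT hs (mem_Sec.mpr (le_of_eq ho.symm))
  have hq : 1 < Fintype.card F := Fintype.one_lt_card
  omega

end Lift

end Pool.Agent.H229R2
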