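import Pool.Agent.H229R2.Struct7

set_option autoImplicit false
set_option linter.unusedSectionVars false
set_option linter.unusedVariables false

open Polynomial Finset

namespace Pool.Agent.H229R2

variable {F : Type*} [Field F] [Fintype F] [DecidableEq F]

namespace Lift

variable {S : Finset (F × F)} {G : F → F × F} (L : Lift S G)

include L

theorem exists_f (NT : ∀ s ∈ S, ∀ o, mu S s o + 2 ≤ Fintype.card F) :
    ∃ f, 1 ≤ f ∧ Fintype.card F = 3 * f + 2 ∧ ∀ s ∈ S, (TS G s).card = 2 * f + 1 := by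
  obtain ⟨s, hs⟩ := L.nonempty
  have h1 := L.param NT hs
  have h2 := L.t_lt NT hs
  refine ⟨((TS G s).card - 1) / 2, by omega, by omega, ?_⟩
  intro s' hs'
  rw [L.t_const NT hs' hs]
  omega

theorem J_mul (NT : ∀ s ∈ S, ∀ o, mu S s o + 2 ≤ Fintype.card F) {f : ℕ}
    (hq : Fintype.card F = 3 * f + 2) (ht : ∀ s ∈ S, (TS G s).card = 2 * f + 1)
    {s : F × F} (hs : s ∈ S) {o : Option F} (ho : 2 ≤ mu S s o) :
    ((VV G s o).filter (fun v => 2 ≤ (cls G s o v).card)).card * (mu S s o - 1) = f := by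
  have h1 := sum_TT G s o
  have h2 : ∀ v ∈ VV G s o, (TT G s o v).card
      = 1 + (if 2 ≤ (cls G s o v).card then (mu S s o - 1) else 0) := by
    intro v hv
    split_ifs with h
    · rw [L.TT_big hs ho h]; omega
    · rw [L.TT_small hv h]
  rw [Finset.sum_congr rfl h2, Finset.sum_add_distrib, ← Finset.sum_filter, Finset.sum_const,
    Finset.sum_const, ht s hs, smul_eq_mul, smul_eq_mul, mul_one] at h1
  have h3 := L.VV_card NT hs (mem_Sec.mpr (by omega : 1 ≤ mu S s o))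
  rw [ht s hs] at h3
  omega

theorem cls_eq (NT : ∀ s ∈ S, ∀ o, mu S s o + 2 ≤ Fintype.card F) {f : ℕ}
    (hq : Fintype.card F = 3 * f + 2) (ht : ∀ s ∈ S, (TS G s).card = 2 * f + 1)
    {s : F × F} (hs : s ∈ S) {o : Option F} (ho : 2 ≤ mu S s o) {v : F}
    (hv2 : 2 ≤ (cls G s o v).card) : (cls G s o v).card = 2 * mu S s o - 1 := by
  have hJ := L.J_mul NT hq ht hs ho
  have h1 := sum_cls G s o
  have hle : ∀ v ∈ VV G s o, (cls G s o v).card
      ≤ 1 + (if 2 ≤ (cls G s o v).card then 2 * (mu S s o - 1) else 0) := by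
    intro v hv
    split_ifs with h
    · have := L.cls_le hs ho v
      omega
    · omega
  have h3 := L.VV_card NT hs (mem_Sec.mpr (by omega : 1 ≤ mu S s o))
  rw [ht s hs] at h3
  have hsum : ∑ v ∈ VV G s o, (1 + (if 2 ≤ (cls G s o v).card then 2 * (mu S s o - 1) else 0))
      = Fintype.card F - 1 := by
    rw [Finset.sum_add_distrib, ← Finset.sum_filter, Finset.sum_const,
      Finset.sum_const, smul_eq_mul, smul_eq_mul, mul_one]
    have : ∀ a b : ℕ, a * (2 * b) = 2 * (a * b) := by intro a b; ring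
    rw [this, hJ]
    omega
  have hv : v ∈ VV G s o := by
    obtain ⟨z, hz⟩ := card_pos.mp (by omega : 0 < (cls G s o v).card)
    rw [mem_cls] at hz
    exact mem_image.mpr ⟨z, mem_ZZ.mpr hz.1, hz.2⟩
  have h4 := (Finset.sum_eq_sum_iff_of_le hle).mp (h1.trans hsum.symm) v hv
  rw [if_pos hv2] at h4
  omega

theorem gk (NT : ∀ s ∈ S, ∀ o, mu S s o + 2 ≤ Fintype.card F) {f : ℕ}
    (hq : Fintype.card F = 3 * f + 2) (ht : ∀ s ∈ S, (TS G s).card = 2 * f + 1)
    {s : F × F} (hs : s ∈ S) {d : F × F} (hk : 2 ≤ kk G s d) :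
    ((Big S s).card - 1) * (kk G s d - 1) = f := by
  have h1 := L.sum_cls_point hs (L.mem_TS_of_kk hk)
  rw [sum_Sec_eq] at h1
  have h2 : ∑ o ∈ Two S s, ((cls G s o (dt d (bar o))).card - kk G s d) = 0 := by
    apply Finset.sum_eq_zero
    intro o ho
    rw [L.cls_two hs hk (mem_Two.mp ho), Nat.sub_self]
  rw [h2, add_zero] at h1
  have h3 : ∑ o ∈ Big S s, ((cls G s o (dt d (bar o))).card - kk G s d)
      + (Big S s).card * kk G s d + (Big S s).card = 2 * ∑ o ∈ Big S s, mu S s o := by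
    rw [Finset.mul_sum, Finset.card_eq_sum_ones, Finset.sum_mul, ← Finset.sum_add_distrib,
      ← Finset.sum_add_distrib]
    apply Finset.sum_congr rfl
    intro o ho
    rw [mem_Big] at ho
    have a2 := L.kk_le_cls s d o
    have a1 := L.cls_eq NT hq ht hs ho (v := dt d (bar o)) (by omega)
    omega
  have h4 := L.sum_Big_mu hs
  have h5 := L.card_Sec hs
  rw [card_Sec_eq, ht s hs] at h5
  have h6 : kk G s d ≤ Fintype.card F - 1 := by
    rw [← card_ZZ]; unfold kk; exact card_filter_le _ _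
  have h7 := L.two_le_Big NT hs
  obtain ⟨g, hg'⟩ : ∃ g, (Big S s).card = g + 1 := ⟨(Big S s).card - 1, by omega⟩
  obtain ⟨k, hk'⟩ : ∃ k, kk G s d = k + 1 := ⟨kk G s d - 1, by omega⟩
  rw [h1] at h3
  rw [hg', hk'] at h3
  rw [hg'] at h5
  rw [hk'] at h6
  rw [hg', hk']
  simp only [Nat.add_sub_cancel]
  have h8 : (g + 1) * (k + 1) = g * k + g + k + 1 := by ring
  rw [h8] at h3
  omega

/-- the pairs at `s`. -/
theorem pairs_card (s : F × F) :
    ((ZZ F).offDiag.filter (fun p => G p.1 - p.1 • s = G p.2 - p.2 • s)).card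
      = ∑ d ∈ TS G s, kk G s d * (kk G s d - 1) := by
  rw [Finset.card_eq_sum_card_fiberwise (f := fun p : F × F => G p.1 - p.1 • s) (t := TS G s)]
  · apply Finset.sum_congr rfl
    intro d _
    have : ((ZZ F).offDiag.filter (fun p => G p.1 - p.1 • s = G p.2 - p.2 • s)).filter
        (fun p => G p.1 - p.1 • s = d) = ((ZZ F).filter (fun z => G z - z • s = d)).offDiag := by
      ext ⟨x, y⟩
      simp only [mem_filter, mem_offDiag]
      constructor
      · rintro ⟨⟨⟨a, b, c⟩, e⟩, h⟩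
        exact ⟨⟨a, h⟩, ⟨b, e ▸ h⟩, c⟩
      · rintro ⟨⟨a, h⟩, ⟨b, h'⟩, c⟩
        exact ⟨⟨⟨a, b, c⟩, h.trans h'.symm⟩, h⟩
    rw [this, Finset.offDiag_card]
    unfold kk
    rw [Nat.mul_sub, mul_one]
  · intro p hp
    rw [mem_coe, mem_filter, mem_offDiag] at hp
    exact mem_image_of_mem (fun z => G z - z • s) hp.1.1

theorem sum_pairs : ∑ s ∈ S, ∑ d ∈ TS G s, kk G s d * (kk G s d - 1)
    ≤ (Fintype.card F - 1) * (Fintype.card F - 1) - (Fintype.card F - 1) := by
  have h1 : ∑ s ∈ S, ∑ d ∈ TS G s, kk G s d * (kk G s d - 1)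
      = ∑ s ∈ S, ((ZZ F).offDiag.filter (fun p => G p.1 - p.1 • s = G p.2 - p.2 • s)).card :=
    Finset.sum_congr rfl (fun s _ => (L.pairs_card s).symm)
  have h2 := Finset.sum_card_bipartiteAbove_eq_sum_card_bipartiteBelow (s := S)
    (t := (ZZ F).offDiag) (fun (s : F × F) (p : F × F) => G p.1 - p.1 • s = G p.2 - p.2 • s)
  unfold Finset.bipartiteAbove Finset.bipartiteBelow at h2
  rw [h1, h2, ← card_ZZ, ← Finset.offDiag_card, Finset.card_eq_sum_ones]
  apply Finset.sum_le_sum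
  intro p hp
  rw [mem_offDiag] at hp
  rw [card_le_one]
  intro a ha b hb
  rw [mem_filter] at ha hb
  exact L.uniq hp.2.2 (L.pair_iff.mp ha.2) (L.pair_iff.mp hb.2)

theorem exists_kk_two (NT : ∀ s ∈ S, ∀ o, mu S s o + 2 ≤ Fintype.card F) {f : ℕ} (hf : 1 ≤ f)
    (hq : Fintype.card F = 3 * f + 2) (ht : ∀ s ∈ S, (TS G s).card = 2 * f + 1) :
    ∃ s ∈ S, ∃ d, kk G s d = 2 := by
  by_contra hcon
  push Not at hcon
  have h1 : ∀ s ∈ S, 3 * f ≤ ∑ d ∈ TS G s, kk G s d * (kk G s d - 1) := by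
    intro s hs
    have h2 := sum_kk_sub G s
    rw [ht s hs, hq] at h2
    have h3 : ∑ d ∈ TS G s, (kk G s d - 1) = f := by omega
    rw [← h3, Finset.mul_sum]
    apply Finset.sum_le_sum
    intro d _
    have h4 := hcon s hs d
    by_cases h5 : kk G s d ≤ 1
    · have : kk G s d - 1 = 0 := by omega
      rw [this, mul_zero, mul_zero]
    · exact Nat.mul_le_mul_right _ (by omega)
  have h2 : ∑ _s ∈ S, 3 * f ≤ ∑ s ∈ S, ∑ d ∈ TS G s, kk G s d * (kk G s d - 1) :=
    Finset.sum_le_sum h1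
  have h3 := L.sum_pairs
  rw [Finset.sum_const, L.h1, hq, smul_eq_mul] at h2
  rw [hq] at h3
  have h4 := h2.trans h3
  have e1 : 3 * f + 2 - 1 = 3 * f + 1 := by omega
  rw [e1] at h4
  have e2 : (3 * f + 1) * (3 * f + 1) - (3 * f + 1) = (3 * f + 1) * (3 * f) := by
    rw [Nat.mul_succ, Nat.add_sub_cancel]
  rw [e2] at h4
  nlinarith

end Lift

end Pool.Agent.H229R2
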