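import Pool.Agent.H229R2.Struct8

set_option autoImplicit false
set_option linter.unusedSectionVars false
set_option linter.unusedVariables false

open Polynomial Finset

namespace Pool.Agent.H229R2

variable {F : Type*} [Field F] [Fintype F] [DecidableEq F]

namespace Lift

variable {S : Finset (F × F)} {G : F → F × F} (L : Lift S G)

include L

theorem J_pos (NT : ∀ s ∈ S, ∀ o, mu S s o + 2 ≤ Fintype.card F) {f : ℕ} (hf : 1 ≤ f)
    (hq : Fintype.card F = 3 * f + 2) (ht : ∀ s ∈ S, (TS G s).card = 2 * f + 1)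
    {s : F × F} (hs : s ∈ S) {o : Option F} (ho : 2 ≤ mu S s o) : mu S s o - 1 ≤ f := by
  have h := L.J_mul NT hq ht hs ho
  set J := ((VV G s o).filter (fun v => 2 ≤ (cls G s o v).card)).card with hJ
  by_cases h0 : J = 0
  · rw [h0, zero_mul] at h; omega
  · calc mu S s o - 1 = 1 * (mu S s o - 1) := (one_mul _).symm
      _ ≤ J * (mu S s o - 1) := Nat.mul_le_mul_right _ (by omega)
      _ = f := h

/-- There is a line with `f + 2` points. -/
theorem exists_big (NT : ∀ s ∈ S, ∀ o, mu S s o + 2 ≤ Fintype.card F) {f : ℕ} (hf : 1 ≤ f)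
    (hq : Fintype.card F = 3 * f + 2) (ht : ∀ s ∈ S, (TS G s).card = 2 * f + 1) :
    ∃ s ∈ S, ∃ o, mu S s o = f + 1 := by
  obtain ⟨s, hs, d, hd⟩ := L.exists_kk_two NT hf hq ht
  have hg := L.gk NT hq ht hs (d := d) (by omega)
  rw [hd] at hg
  have hsec := L.card_Sec hs
  rw [card_Sec_eq, ht s hs, hq] at hsec
  have hB2 := L.two_le_Big NT hs
  have hg' : (Big S s).card = f + 1 := by omega
  have hT : (Two S s).card = 1 := by omega
  obtain ⟨o, ho⟩ := card_pos.mp (by omega : 0 < (Two S s).card)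
  rw [mem_Two] at ho
  obtain ⟨s', hs', hne, h1, hSe⟩ := L.two_classes hs ho
  have hk2 : ∀ d, 2 ≤ kk G s d → kk G s d = 2 := by
    intro d' hd'
    have h2 := L.gk NT hq ht hs hd'
    rw [hg'] at h2
    have h3 : f + 1 - 1 = f := by omega
    rw [h3] at h2
    have h4 : kk G s d' - 1 = 1 := by
      have : f * (kk G s d' - 1) = f * 1 := by rw [h2, mul_one]
      exact Nat.eq_of_mul_eq_mul_left (by omega) this
    omega
  set D2 := (TS G s).filter (fun d => 2 ≤ kk G s d) with hD2
  have hD2c : D2.card = f := by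
    have h2 := sum_kk_sub G s
    rw [ht s hs, hq] at h2
    have h3 : ∑ d ∈ TS G s, (kk G s d - 1) = D2.card := by
      rw [hD2, Finset.card_filter]
      apply Finset.sum_congr rfl
      intro d' _
      split_ifs with h
      · rw [hk2 d' h]
      · omega
    omega
  have hcl : ∀ d' ∈ D2, (cls G s o (dt d' (bar o))).card = 2 := by
    intro d' hd'
    rw [hD2, mem_filter] at hd'
    rw [L.cls_two hs hd'.2 ho, hk2 d' hd'.2]
  have hinj : Set.InjOn (fun d => dt d (bar o)) (D2 : Set (F × F)) := by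
    intro a ha b hb hab
    simp only at hab
    have h2 := hcl a ha
    rw [mem_coe, hD2, mem_filter] at ha hb
    have h3 : (ZZ F).filter (fun z => G z - z • s = a) = cls G s o (dt a (bar o)) := by
      apply Finset.eq_of_subset_of_card_le (L.fiber_sub_cls s a o)
      rw [h2]; exact ha.2
    obtain ⟨z, z', hz, hz', hzz, e, e'⟩ := L.pair_of_kk hb.2
    have h4 : z ∈ cls G s o (dt a (bar o)) := by
      rw [mem_cls]
      exact ⟨hz, by rw [e]; exact hab.symm⟩
    rw [← h3, mem_filter] at h4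
    rw [← h4.2, e]
  set V1 := D2.image (fun d => dt d (bar o)) with hV1
  have hV1c : V1.card = f := by rw [hV1, Finset.card_image_of_injOn hinj, hD2c]
  have hV1s : V1 ⊆ VV G s o := by
    rw [VV_eq, hV1]
    exact Finset.image_subset_image (filter_subset _ _)
  have hVV := L.VV_card NT hs (mem_Sec.mpr (by omega : 1 ≤ mu S s o))
  rw [ht s hs, hq] at hVV
  have hdiff : (VV G s o \ V1).card = 1 := by
    rw [card_sdiff_of_subset hV1s, hV1c]; omega
  obtain ⟨v1, hv1⟩ := card_eq_one.mp hdiff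
  have hv1m : v1 ∈ VV G s o \ V1 := by rw [hv1]; exact mem_singleton_self _
  rw [mem_sdiff] at hv1m
  have hcv1 : (cls G s o v1).card = f + 1 := by
    have h2 := sum_cls G s o
    rw [← Finset.sum_sdiff hV1s, hv1, sum_singleton] at h2
    have h3 : ∑ v ∈ V1, (cls G s o v).card = ∑ _v ∈ V1, 2 := by
      apply Finset.sum_congr rfl
      intro v hv
      obtain ⟨d', hd', rfl⟩ := mem_image.mp hv
      exact hcl d' hd'
    rw [h3, Finset.sum_const, hV1c, smul_eq_mul, hq] at h2
    omega
  have hall : ∀ z ∈ cls G s o v1, ∀ z' ∈ cls G s o v1, G z - z • s' = G z' - z' • s' := by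
    intro z hz z' hz'
    by_cases hzz : z = z'
    · rw [hzz]
    · obtain ⟨s'', hs'', he⟩ := L.cls_dir hz hz' hzz
      rw [hSe, mem_insert, mem_singleton] at hs''
      rcases hs'' with h5 | h5
      · exfalso
        rw [h5] at he
        apply hv1m.2
        rw [hV1]
        have hz0 := (mem_cls.mp hz)
        refine mem_image.mpr ⟨G z - z • s, ?_, hz0.2⟩
        rw [hD2, mem_filter]
        refine ⟨mem_image_of_mem (fun z => G z - z • s) (mem_ZZ.mpr hz0.1), ?_⟩
        unfold kk
        apply Nat.succ_le_of_lt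
        rw [Finset.one_lt_card]
        exact ⟨z, mem_filter.mpr ⟨mem_ZZ.mpr hz0.1, rfl⟩, z',
          mem_filter.mpr ⟨mem_ZZ.mpr (mem_cls.mp hz').1, (L.pair_iff.mpr he).symm⟩, hzz⟩
      · rw [h5] at he
        exact L.pair_iff.mpr he
  obtain ⟨z0, hz0⟩ := card_pos.mp (by omega : 0 < (cls G s o v1).card)
  set d' := G z0 - z0 • s' with hd'
  have hkk1 : f + 1 ≤ kk G s' d' := by
    rw [← hcv1]
    unfold kk
    apply card_le_card
    intro z hz
    rw [mem_filter]
    exact ⟨mem_ZZ.mpr (mem_cls.mp hz).1, hall z hz z0 hz0⟩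
  have hmu' : mu S s' o = 1 := by rw [mu_base_change hs hs' h1, ho]
  have hv1' : dt d' (bar o) = v1 := by
    rw [hd', dt_base_change G h1]
    exact (mem_cls.mp hz0).2
  have hkk2 : kk G s' d' = f + 1 := by
    have h2 := L.cls_two hs' (d := d') (by omega) hmu'
    rw [hv1', cls_base_change G h1, hcv1] at h2
    exact h2.symm
  have hgs' := L.gk NT hq ht hs' (d := d') (by omega)
  have hB2' := L.two_le_Big NT hs'
  have hg2 : (Big S s').card = 2 := by
    rw [hkk2, Nat.add_sub_cancel] at hgs'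
    have : ((Big S s').card - 1) * f = 1 * f := by rw [hgs', one_mul]
    have := Nat.eq_of_mul_eq_mul_right (by omega) this
    omega
  obtain ⟨o1, o2, hoo, hB⟩ := Finset.card_eq_two.mp hg2
  have hsum := L.sum_Big_mu hs'
  have hsec' := L.card_Sec hs'
  rw [card_Sec_eq, ht s' hs', hq, hg2] at hsec'
  rw [hB, Finset.sum_pair hoo, hq] at hsum
  have ho1 : o1 ∈ Big S s' := by rw [hB]; simp
  have ho2 : o2 ∈ Big S s' := by rw [hB]; simp
  rw [mem_Big] at ho1 ho2
  have b1 := L.J_pos NT hf hq ht hs' ho1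
  have b2 := L.J_pos NT hf hq ht hs' ho2
  exact ⟨s', hs', o1, by omega⟩

theorem f_eq_one (NT : ∀ s ∈ S, ∀ o, mu S s o + 2 ≤ Fintype.card F) {f : ℕ} (hf : 1 ≤ f)
    (hq : Fintype.card F = 3 * f + 2) (ht : ∀ s ∈ S, (TS G s).card = 2 * f + 1) : f = 1 := by
  obtain ⟨s, hs, o, ho⟩ := L.exists_big NT hf hq ht
  have hJ := L.J_mul NT hq ht hs (o := o) (by omega)
  have hf1 : mu S s o - 1 = f := by omega
  rw [hf1] at hJ
  have hJ1 : ((VV G s o).filter (fun v => 2 ≤ (cls G s o v).card)).card = 1 := by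
    have : ((VV G s o).filter (fun v => 2 ≤ (cls G s o v).card)).card * f = 1 * f := by
      rw [hJ, one_mul]
    exact Nat.eq_of_mul_eq_mul_right (by omega) this
  obtain ⟨v0, hv0⟩ := card_eq_one.mp hJ1
  have hv0m : v0 ∈ (VV G s o).filter (fun v => 2 ≤ (cls G s o v).card) := by
    rw [hv0]; exact mem_singleton_self _
  rw [mem_filter] at hv0m
  have hc0 := L.cls_eq NT hq ht hs (o := o) (by omega) hv0m.2
  have hosec : o ∈ Sec S s := mem_Sec.mpr (by omega)
  set u : F → F := fun z => dt (G z - z • s) (bar o) with hu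
  have hu0 : u 0 = 0 := by rw [hu]; simp [L.h0]
  have hune : ∀ z, z ≠ 0 → u z ≠ 0 := fun z hz => L.val_ne_zero hs hosec hz
  have hv0ne : v0 ≠ 0 := by
    obtain ⟨z, hz, e⟩ := mem_image.mp hv0m.1
    rw [← e]
    exact hune z (mem_ZZ.mp hz)
  have hcls : (univ : Finset F).filter (fun z => u z = v0) = cls G s o v0 := by
    ext z
    rw [mem_filter, mem_cls]
    constructor
    · rintro ⟨_, h⟩
      refine ⟨?_, h⟩
      rintro rfl
      exact hv0ne (h.symm.trans hu0)
    · rintro ⟨_, h⟩
      exact ⟨mem_univ _, h⟩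
  set W := (univ : Finset F).filter (fun z => ¬ u z = v0) with hW
  have hWc : W.card = f + 1 := by
    have h1 := Finset.card_filter_add_card_filter_not (s := (univ : Finset F)) (fun z => u z = v0)
    rw [hcls, hc0, card_univ, hq, ← hW] at h1
    omega
  have hinj : Set.InjOn u (W : Set F) := by
    intro z hz z' hz' he
    by_contra hne
    rw [mem_coe, hW, mem_filter] at hz hz'
    by_cases h0 : z = 0
    · subst h0
      rw [hu0] at he
      exact hune z' (fun h => hne h.symm) he.symm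
    · by_cases h0' : z' = 0
      · subst h0'
        rw [hu0] at he
        exact hune z h0 he
      · have h1 : u z ∈ (VV G s o).filter (fun v => 2 ≤ (cls G s o v).card) := by
          rw [mem_filter]
          refine ⟨mem_image.mpr ⟨z, mem_ZZ.mpr h0, rfl⟩, ?_⟩
          apply Nat.succ_le_of_lt
          rw [Finset.one_lt_card]
          exact ⟨z, mem_cls.mpr ⟨h0, rfl⟩, z', mem_cls.mpr ⟨h0', he.symm⟩, hne⟩
        rw [hv0, mem_singleton] at h1
        exact hz.2 h1
  obtain ⟨g, hg, hP⟩ := L.S7 NT hs hosec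
  rw [← L.prod_univ_eq] at hP
  have hsplit : ∏ z : F, (X - C (u z)) = (X - C v0) ^ (2 * f + 1) * ∏ z ∈ W, (X - C (u z)) := by
    rw [← Finset.prod_filter_mul_prod_filter_not univ (fun z => u z = v0)]
    congr 1
    rw [hcls]
    have h1 : 2 * f + 1 = (cls G s o v0).card := by rw [hc0]; omega
    rw [h1, ← Finset.prod_const]
    apply Finset.prod_congr rfl
    intro z hz
    rw [← (mem_cls.mp hz).2]
  have hP2 : (X - C v0) ^ (2 * f + 1) * ∏ z ∈ W, (X - C (u z)) = X ^ (Fintype.card F) + g := by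
    rw [← hsplit]; exact hP
  have hP3 := congrArg (fun P : F[X] => P.comp (X + C v0)) hP2
  simp only [mul_comp, pow_comp, sub_comp, add_comp, X_comp, C_comp, add_sub_cancel_right,
    prod_comp_shift, shift_pow] at hP3
  set σ := ∏ x ∈ W, (X - C (u x - v0)) with hσ
  set h := C v0 + g.comp (X + C v0) with hh
  have hhd : h.natDegree ≤ 2 * f + 1 := by
    rw [hh]
    refine (natDegree_add_le _ _).trans (max_le (by simp) ?_)
    rw [natDegree_comp, natDegree_X_add_C, mul_one]
    exact hg.trans (le_of_eq (ht s hs))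
  have hX : (X : F[X]) ^ (Fintype.card F) = X ^ (2 * f + 1) * X ^ (f + 1) := by
    rw [← pow_add, hq]; congr 1; omega
  have hP4 : h = X ^ (2 * f + 1) * (σ - X ^ (f + 1)) := by
    rw [hX] at hP3
    rw [hh]
    linear_combination -hP3
  have hconst : ∃ c : F, σ - X ^ (f + 1) = C c := by
    by_cases h0 : σ - X ^ (f + 1) = 0
    · exact ⟨0, by rw [h0, C_0]⟩
    · have h1 : h.natDegree = 2 * f + 1 + (σ - X ^ (f + 1)).natDegree := by
        rw [hP4, natDegree_mul (pow_ne_zero _ X_ne_zero) h0, natDegree_X_pow]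
      have h2 : (σ - X ^ (f + 1)).natDegree = 0 := by omega
      exact ⟨_, eq_C_of_natDegree_eq_zero h2⟩
  obtain ⟨c, hc⟩ := hconst
  have hroots : ∀ y ∈ W.image (fun z => u z - v0), y ≠ 0 ∧ y ^ (f + 1) = -c := by
    intro y hy
    obtain ⟨z, hz, rfl⟩ := mem_image.mp hy
    have hz' := hz
    rw [hW, mem_filter] at hz'
    refine ⟨sub_ne_zero.mpr hz'.2, ?_⟩
    have h1 := congrArg (Polynomial.eval (u z - v0)) hc
    rw [eval_sub, eval_pow, eval_X, eval_C, hσ, eval_prod] at h1
    have h2 : ∏ j ∈ W, eval (u z - v0) (X - C (u j - v0)) = 0 := by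
      apply Finset.prod_eq_zero hz
      simp
    rw [h2, zero_sub] at h1
    rw [← h1, neg_neg]
  have hYc : (W.image (fun z => u z - v0)).card = f + 1 := by
    rw [Finset.card_image_of_injOn, hWc]
    intro a ha b hb hab
    apply hinj ha hb
    simp only at hab
    exact sub_left_injective hab
  have hdvd := dvd_of_roots _ (f + 1) (by omega) hYc (-c) hroots
  rw [hq] at hdvd
  have e1 : 3 * f + 2 - 1 = 3 * f + 1 := by omega
  rw [e1] at hdvd
  have h3 : f + 1 ∣ 3 * (f + 1) := Dvd.intro_left _ rfl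
  have h4 := (Nat.dvd_sub h3 hdvd)
  have e2 : 3 * (f + 1) - (3 * f + 1) = 2 := by omega
  rw [e2] at h4
  have h5 := Nat.le_of_dvd (by omega) h4
  omega

theorem q_eq_five (NT : ∀ s ∈ S, ∀ o, mu S s o + 2 ≤ Fintype.card F) :
    Fintype.card F = 5 ∧ ∀ s ∈ S, (TS G s).card = 3 := by
  obtain ⟨f, hf, hq, ht⟩ := L.exists_f NT
  have h1 := L.f_eq_one NT hf hq ht
  subst h1
  exact ⟨hq, ht⟩

end Lift

end Pool.Agent.H229R2
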